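import Pool.Agent.W_448s7_h5.SevE
import Pool.Agent.W_448rr_h67.RrA

/-!
Far data with twins from component data, at the cost of the cheapest pairs.
-/

namespace Pool.Agent.GaussPoset

set_option linter.unusedSectionVars false

open Polynomial Finset

universe u

variable {P : Type u} [Fintype P] [PartialOrder P] [DecidableEq P]
variable {ι : Type*}

lemma tcst_congr {i : ℕ} {θ θ' : P → ℕ} {t : P × P} (h : θ t.1 = θ' t.1) :
    tez i θ t = tez i θ' t := by
  funext y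
  unfold tez
  rw [h]

/-- far data with twins from component data -/
theorem farX_of_compT [Fintype ι] [DecidableEq ι] {i : ℕ} {R : Finset P}
    (hgr : GradedBelow P) (hR : ∀ x y, x ≤ y → y ∈ R → x ∈ R) (hRlev : ∀ x ∈ R, i < lev x)
    (cp : P → ι) (hcp : ∀ x y, x ≤ y → x ∉ R → cp x = cp y) (b : ι → ℕ) (θ : P → ℕ)
    (B : P → Prop) (hBR : ∀ x ∈ R, ¬ B x) (Tw : Finset (P × P)) (n0 : ℕ)
    (H : ∀ k, CompDataT R cp k i (b k) θ B Tw)
    (htw : ∀ t ∈ Tw, Twn i θ t) (hanti : ∀ x x', (x, x') ∈ Tw → (x', x) ∉ Tw)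
    (hcost : ∀ t ∈ Tw, n0 ≤ tcst i θ t) (hmin : ∀ t ∈ Tw, ∀ y < t.2, y ∈ R)
    (htR : ∀ t ∈ Tw, t.1 ∉ R ∧ t.2 ∉ R) : FarX P i R (∑ k, b k) (hcan R θ) θ Tw n0 := by
  classical
  let θ' : P → ℕ := fun x => if x ∈ R then 0 else θ x
  have hθ' : ∀ x, x ∉ R → θ' x = θ x := fun x hx => if_neg hx
  have hθ0 : ∀ x, 1 ≤ θ' x → x ∉ R := by
    intro x hx hxR
    have : θ' x = 0 := if_pos hxR
    omega
  have hlow : ∀ D ∈ {D | Good i R B D}, ∀ x y, x ≤ y → y ∈ D → x ∈ D := fun D hD => hD.1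
  have hlev : ∀ D ∈ {D | Good i R B D}, ∀ x ∈ D, i < lev x := fun D hD => hD.2.2.1
  have hRR : R ∈ {D | Good i R B D} := ⟨hR, Subset.refl R, hRlev, hBR⟩
  have hθ : ∀ x, 1 ≤ θ' x → i < lev x := by
    intro x hx
    have hxR := hθ0 x hx
    rw [hθ' x hxR] at hx
    exact (H (cp x)).lev x hxR rfl hx
  have hle : ∀ x, θ' x ≤ lev x - i := by
    intro x
    by_cases hxR : x ∈ R
    · have : θ' x = 0 := if_pos hxR
      omega
    · rw [hθ' x hxR]
      exact (H (cp x)).le x hxR rfl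
  have c0 : ∀ D ∈ {D | Good i R B D}, (∀ t ∈ Tw, t.1 ∈ D ∨ t.2 ∈ D) → ∀ n,
      (1 + X : ℤ[X]) ^ (∑ k, b k) ∣ ZB i D 0 0 n := by
    intro D hD hbr n
    rw [ZB_off hD.1 hD.2.2.1]
    refine dvd_Z_of_dvd_W ?_ n
    refine dvd_W_prod (fun x : {x : P // x ∉ D} => cp (x : P)) ?_ i b fun k => ?_
    · intro x y hxy
      exact hcp x y hxy fun h => x.2 (hD.2.1 h)
    · exact (H k).clean D hD hbr inferInstance
  have c1 : ∀ D ∈ {D | Good i R B D}, ∀ x, x ∉ D → 1 ≤ θ' x →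
      D ∪ dnf x ∈ {D | Good i R B D} := by
    intro D hD x hx hθx
    have hxR := hθ0 x hθx
    rw [hθ' x hxR] at hθx
    have hlx := (H (cp x)).lev x hxR rfl hθx
    refine ⟨?_, hD.2.1.trans subset_union_left, ?_, ?_⟩
    · intro a c hac hc
      rw [mem_union, mem_dnf] at hc ⊢
      rcases hc with hc | hc
      · exact Or.inl (hD.1 a c hac hc)
      · exact Or.inr (hac.trans hc)
    · intro a ha
      rw [mem_union, mem_dnf] at ha
      rcases ha with ha | ha
      · exact hD.2.2.1 a ha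
      · rcases eq_or_lt_of_le ha with h | h
        · rw [h]; exact hlx
        · have := lev_strictAnti h; omega
    · intro a ha
      rw [mem_union, mem_dnf] at ha
      rcases ha with ha | ha
      · exact hD.2.2.2 a ha
      · by_cases haR : a ∈ R
        · exact hBR a haR
        · exact (H (cp x)).base x hxR rfl hθx a ha haR
  have c2 : ∀ D ∈ {D | Good i R B D}, ∀ x, x ∉ D → 1 ≤ θ' x → ∀ y ≤ x, y ∉ D → ∀ x', y ⋖ x' →
      ¬ x' ≤ x → θ' x ≤ θ' x' + 1 := by
    intro D hD x hx hθx y hyx hyD x' hyx' hx'x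
    have hxR := hθ0 x hθx
    have hyR : y ∉ R := fun h => hyD (hD.2.1 h)
    have hx'R : x' ∉ R := fun h => hyR (hR y x' hyx'.1.le h)
    rw [hθ' x hxR] at hθx ⊢
    rw [hθ' x' hx'R]
    exact (H (cp x)).step x hxR rfl hθx y hyx hyR x' hx'R hyx' hx'x
  have hT : ∀ t ∈ Tw, Twn i θ' t := by
    intro t ht
    have h1 := htR t ht
    have h2 := htw t ht
    refine ⟨h2.ne, h2.up, ?_, ?_, ?_, ?_⟩
    · rw [hθ' _ h1.1]; exact h2.one_le
    · rw [hθ' _ h1.1, hθ' _ h1.2]; exact h2.eq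
    · rw [hθ' _ h1.1]; exact h2.lt
    · intro y hy
      rw [hθ' _ h1.1, hθ' y (fun h => h1.1 (hR _ _ hy.le h))]
      exact h2.mono y hy
  have htz : ∀ t ∈ Tw, tez i θ' t = tez i θ t := fun t ht => tcst_congr (hθ' _ (htR t ht).1)
  have hcost' : ∀ t ∈ Tw, n0 ≤ tcst i θ' t := by
    intro t ht
    unfold tcst
    rw [htz t ht]
    exact hcost t ht
  have hmin' : ∀ t ∈ Tw, ∀ D ∈ {D | Good i R B D}, ∀ y < t.2, y ∈ D :=
    fun t ht D hD y hy => hD.2.1 (hmin t ht y hy)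
  have hlt := dvd_ZB_bounds_twins i _ n0 {D | Good i R B D} θ' Tw hlow hlev hθ
    (fun D hD hb n _ => c0 D hD hb n) c1 c2 (fun t ht => (hT t ht).pair (hcost' t ht)) hmin'
  have hex := dvd_ZB_exact i _ n0 {D | Good i R B D} θ' Tw hlow hlev hθ hle c0 c1 c2 hT hanti
    hcost' hmin' R hRR 0 (fun _ _ => Nat.zero_le _)
  refine ⟨hgr, hRlev, ?_, ?_, ?_, ?_⟩
  · intro g hg0 hg hpos
    refine dvd_ZB_shift_pos 0 hR hRlev hg0 _ n0 (fun n hn => ?_) hpos
    refine hlt R hRR _ ?_ n hn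
    intro x hx
    refine bg_le (Nat.zero_le _) fun y hy hyx => ?_
    rw [hθ' x hx]
    have h1 : y ∈ bdR R := mem_filter.mpr ⟨hy, x, hx, hyx⟩
    have h2 := hg y h1
    have h3 := hcan_le (θ := θ) hx hyx
    omega
  · have h1 : tsum i θ' n0 Tw R 0 = ∑ t ∈ Tw.filter (fun t => tcst i θ t = n0), Tm i θ t := by
      unfold tsum
      have h2 : tws i θ' n0 Tw R 0 = Tw.filter (fun t => tcst i θ t = n0) := by
        ext t
        rw [mem_tws, mem_filter]
        constructor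
        · rintro ⟨h2, -, h3, -⟩
          refine ⟨h2, ?_⟩
          unfold tcst at h3 ⊢
          rw [← htz t h2]
          exact h3
        · rintro ⟨h2, h3⟩
          refine ⟨h2, htR t h2, ?_, fun _ _ => Nat.zero_le _⟩
          unfold tcst at h3 ⊢
          rw [htz t h2]
          exact h3
      rw [h2]
      refine Finset.sum_congr rfl fun t ht => ?_
      unfold Tm
      rw [htz t (mem_filter.mp ht).1]
    rw [h1] at hex
    exact hex
  · intro z hz
    obtain ⟨x, -, -, hx⟩ := hcan_spec (θ := θ) hz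
    omega
  · intro z hz
    obtain ⟨x, hxR, hzx, hx⟩ := hcan_spec (θ := θ) hz
    have h1 := hgr.lev_covBy hzx
    have h2 := (H (cp x)).le x hxR rfl
    have h3 := hRlev z (mem_filter.mp hz).1
    omega

section Assembly

variable {i : ℕ} {N : Tops P → Finset P} {b : Tops P → ℕ} {θ : Tops P → P → ℕ}
  {B : Tops P → P → Prop} {Y : Finset P} {τ : P → P}

/-- assembly: natural sets of all tops and twins of natural elements, exact form -/
theorem farX_of_tops (hgr : GradedBelow P) (H : ∀ t, NatTop i t (b t) (N t) (θ t) (B t))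
    (T : TwSys (unnat N) Y topOf τ) (n0 : ℕ)
    (htw : ∀ x ∈ Y, Twn i (thX Y τ (fun x => θ (topOf x) x)) (τ x, x))
    (hcost : ∀ x ∈ Y, n0 ≤ tcst i (thX Y τ (fun x => θ (topOf x) x)) (τ x, x)) :
    FarX P i (unnat N \ Y) (∑ t, b t)
      (hcan (unnat N \ Y) (thX Y τ (fun x => θ (topOf x) x)))
      (thX Y τ (fun x => θ (topOf x) x)) (pairsX Y τ) n0 := by
  have HN := natSys_of_tops H
  have hRlev : ∀ x ∈ unnat N, i < lev x := by
    intro x hx
    by_contra hcon
    exact low_natural H (not_lt.mp hcon) hx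
  refine farX_of_compT hgr (T.lower HN.lower) (fun x hx => hRlev x (mem_sdiff.mp hx).1) topOf
    (T.cp' HN.cp) b _ (fun x => x ∉ unnat N ∧ B (topOf x) x)
    (fun x hx h => h.1 (mem_sdiff.mp hx).1) (pairsX Y τ) n0 ?_ ?_ ?_ ?_ ?_ ?_
  · intro t
    refine CompData.toTwins ((H t).data N HN rfl _ _ ?_ ?_) T HN.lower hRlev (fun x hx h => h.1 hx)
    · intro x hx
      simp only [HN.topOf_eq hx]
    · intro x hx
      simp only [HN.topOf_eq hx, (HN.mem_iff.mp hx).1, not_false_eq_true, true_and]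
  · intro t ht
    rw [mem_pairsX] at ht
    have h1 := htw t.2 ht.1
    rw [← ht.2] at h1
    exact h1
  · intro x x' h1 h2
    rw [mem_pairsX] at h1 h2
    simp only at h1 h2
    exact T.nat x' h1.1 (h1.2 ▸ T.sub h2.1)
  · intro t ht
    rw [mem_pairsX] at ht
    have h1 := hcost t.2 ht.1
    rw [← ht.2] at h1
    exact h1
  · intro t ht y hy
    rw [mem_pairsX] at ht
    rw [mem_sdiff]
    exact ⟨HN.lower y _ hy.le (T.sub ht.1), fun h => T.anti _ ht.1 y h hy⟩
  · intro t ht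
    rw [mem_pairsX] at ht
    rw [mem_sdiff, mem_sdiff, ht.2]
    exact ⟨fun h => T.nat _ ht.1 h.1, fun h => h.2 ht.1⟩

end Assembly

end Pool.Agent.GaussPoset
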