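import Pool.Agent.W_448s7_h5.SevM

/-!
# The windows of S7: deep covers are expensive, cheapest elements are flat (MP_448cb3_co)
-/

namespace Pool.Agent.GaussPoset

set_option linter.unusedSectionVars false

open Polynomial Finset

universe u

variable {P : Type u} [Fintype P] [PartialOrder P] [DecidableEq P] {r j w : ℕ}
  {N : Tops P → Finset P} {b : Tops P → ℕ} {θ : Tops P → P → ℕ}

open Classical in
/-- the natural element of a natural element or twin -/
noncomputable def bs (N : Tops P → Finset P) (x : P) : P := if x ∈ twA N then twT N x else x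

/-- properties of the natural element `y` of `x` -/
structure Bs (N : Tops P → Finset P) (θ : Tops P → P → ℕ) (x y : P) : Prop where
  nat : y ∉ unnat N
  lev : Pool.Agent.GaussPoset.lev y = Pool.Agent.GaussPoset.lev x
  th : thA N θ x = θ (topOf y) y
  nab : ∀ k, Pool.Agent.GaussPoset.nab k y = Pool.Agent.GaussPoset.nab k x ∨
    Pool.Agent.GaussPoset.lev x ≤ k
  up : ∀ v, y < v ↔ x < v

lemma nab_congr_up {x y : P} (h : ∀ v, y < v ↔ x < v) {k : ℕ} (hk : k < lev x) :
    nab k y = nab k x := by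
  have hl := lev_eq_of_up h
  exact le_antisymm (nab_le_of_up h (by omega)) (nab_le_of_up (fun v => (h v).symm) hk)

lemma Wn.bs (W : Wn r j w N b θ) {x : P} (hx : x ∉ rA N) : Bs N θ x (bs N x) := by
  classical
  unfold GaussPoset.bs
  rcases not_mem_rA.mp hx with h | h
  · rw [if_neg (W.not_tw h)]
    exact ⟨h, rfl, W.thA_nat h, fun k => Or.inl rfl, fun v => Iff.rfl⟩
  · rw [if_pos h]
    have h1 := W.twSys.up x h
    refine ⟨W.twSys.nat x h, W.twSys.lev h, W.thA_tw h, fun k => ?_, h1⟩
    rcases Nat.lt_or_ge k (Pool.Agent.GaussPoset.lev x) with h2 | h2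
    · exact Or.inl (nab_congr_up h1 h2)
    · exact Or.inr h2

lemma cst_const_congr {i h : ℕ} {x y : P} (hl : lev y = lev x)
    (hn : ∀ k, nab k y = nab k x ∨ lev x ≤ k) : cst i (fun _ => h) y = cst i (fun _ => h) x := by
  rw [cst_eq, cst_eq, hl, Finset.sum_range_succ, Finset.sum_range_succ, nab_self, ← hl, nab_self]
  congr 1
  refine Finset.sum_congr rfl fun k hk => ?_
  rw [mem_range] at hk
  rcases hn k with h1 | h1
  · rw [h1]
  · omega

lemma cst_ge_cover {i : ℕ} {h : P → ℕ} {z x : P} (H : GradedBelow P) (hzx : z ⋖ x) :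
    cst i (fun _ => h z) x + min (h z) (lev z - i) ≤ cst i h z := by
  have h1 := H.lev_covBy hzx
  rw [cst_eq, cst_eq, h1, Finset.sum_range_succ _ (lev x + 1), ← h1, nab_self, mul_one]
  refine Nat.add_le_add_right ?_ _
  exact Finset.sum_le_sum fun k _ => Nat.mul_le_mul_left _ (nab_mono hzx.1.le)

lemma Wn.hA_le (W : Wn r j w N b θ) {z x : P} (hx : x ∉ rA N) (hzx : z ⋖ x) :
    hA N θ z ≤ θ (topOf (GaussPoset.bs N x)) (GaussPoset.bs N x) + 1 := by
  rw [← (W.bs hx).th]
  exact hcan_le hx hzx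

lemma Wn.hA_spec (W : Wn r j w N b θ) {z : P} (hz : z ∈ bdR (rA N)) :
    ∃ x, x ∉ rA N ∧ z ⋖ x ∧
      hA N θ z = θ (topOf (GaussPoset.bs N x)) (GaussPoset.bs N x) + 1 := by
  obtain ⟨x, h1, h2, h3⟩ := hcan_spec (θ := thA N θ) hz
  refine ⟨x, h1, h2, ?_⟩
  rw [← (W.bs h1).th]
  exact h3

lemma Wn.bd_lev (W : Wn r j w N b θ) {z : P} (hz : z ∈ bdR (rA N)) : j < lev z :=
  W.lt_lev (mem_rA.mp (mem_bdR.mp hz).1).1

/-- a boundary element with a deep cover of level greater than `j` is expensive -/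
theorem Wn.deep_cover (W : Wn r j w N b θ) {z : P} (hz : z ∈ bdR (rA N)) {x : P}
    (hx : x ∉ rA N) (hzx : z ⋖ x) (hlx : j + 1 ≤ lev x) (hD : Dp j w N θ (GaussPoset.bs N x)) :
    cap j w + 1 < cst w (hA N θ) z := by
  have H := W.gt.H.gradedBelow
  -- a deep cover which defines the label
  obtain ⟨x1, h1, h2, h3, h4⟩ : ∃ x1, x1 ∉ rA N ∧ z ⋖ x1 ∧ Dp j w N θ (GaussPoset.bs N x1) ∧
      hA N θ z = θ (topOf (GaussPoset.bs N x1)) (GaussPoset.bs N x1) + 1 := by
    by_cases he : hA N θ z = θ (topOf (GaussPoset.bs N x)) (GaussPoset.bs N x) + 1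
    · exact ⟨x, hx, hzx, hD, he⟩
    · obtain ⟨x0, g1, g2, g3⟩ := W.hA_spec hz
      refine ⟨x0, g1, g2, ?_, g3⟩
      have g4 := W.hA_le hx hzx
      have g5 := hD.th
      have g6 := W.bs hx
      have g7 := W.bs g1
      have e1 := H.lev_covBy hzx
      have e2 := H.lev_covBy g2
      have e3 := g6.lev
      have e4 := g7.lev
      rcases W.cases g7.nat (by omega) with h | h | h
      · have := h.th
        omega
      · have := h.th
        omega
      · exact h
  have g7 := W.bs h1
  have e1 := H.lev_covBy hzx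
  have e2 := H.lev_covBy h2
  have e4 := g7.lev
  have h5 := h3.cost (by omega)
  have h6 := cst_ge_cover (i := w) (h := hA N θ) H h2
  rw [h4] at h6
  rw [← cst_const_congr g7.lev g7.nab] at h6
  have h7 := h3.th
  rw [Nat.min_eq_left (by omega)] at h6
  omega

/-- flat elements: all covers are natural and straight or in row `1` -/
def Flat (j w : ℕ) (N : Tops P → Finset P) (θ : Tops P → P → ℕ) (z : P) : Prop :=
  ∀ x, z ⋖ x → x ∉ unnat N ∧ (Str w N θ x ∨ Row1 j w N θ x)

/-- the minimality hypotheses at window `w` for the value `v` -/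
structure Mn (j w : ℕ) (N : Tops P → Finset P) (θ : Tops P → P → ℕ) (v : ℕ) : Prop where
  bd : ∀ z ∈ bdR (rA N), v ≤ cst w (hA N θ) z
  tw : ∀ x ∈ twA N, v ≤ tcst w (thA N θ) (twT N x, x)

/-- a cheapest boundary element without deep covers is flat -/
theorem Wn.flat (W : Wn r j w N b θ) {v : ℕ} (M : Mn j w N θ v) {z : P} (hz : z ∈ bdR (rA N))
    (hc : cst w (hA N θ) z = v)
    (hnd : ∀ x, x ∉ rA N → z ⋖ x → ¬ Dp j w N θ (GaussPoset.bs N x)) :
    Flat j w N θ z ∧ lev z ≤ hA N θ z + 1 + w := by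
  have H := W.gt.H.gradedBelow
  have hj := W.hj
  have hw := W.hw
  have hlz := W.bd_lev hz
  have hkd : ∀ x, x ∉ rA N → z ⋖ x → Str w N θ (GaussPoset.bs N x) ∨
      Row1 j w N θ (GaussPoset.bs N x) := by
    intro x hx hzx
    have g6 := W.bs hx
    have e1 := H.lev_covBy hzx
    have e3 := g6.lev
    rcases W.cases g6.nat (by omega) with h | h | h
    · exact Or.inl h
    · exact Or.inr h
    · exact absurd h (hnd x hx hzx)
  have hge : lev z ≤ hA N θ z + 1 + w := by
    obtain ⟨x0, g1, g2, g3⟩ := W.hA_spec hz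
    have g7 := W.bs g1
    have e2 := H.lev_covBy g2
    have e4 := g7.lev
    rcases hkd x0 g1 g2 with h | h
    · have := h.th
      omega
    · have := h.th
      omega
  refine ⟨?_, hge⟩
  intro x hzx
  have hxR : x ∉ rA N := by
    refine no_cover_of_min H (fun x hx => ?_) M.bd (fun z hz => ?_) hz hc (by omega) hzx
    · have := W.lt_lev (mem_rA.mp hx).1
      omega
    · obtain ⟨x0, g1, g2, g3⟩ := W.hA_spec hz
      omega
  have hxt : x ∉ twA N := by
    intro hxt
    have e1 := H.lev_covBy hzx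
    obtain ⟨g1, g2⟩ := W.tw_cases hxt
    have hbs : GaussPoset.bs N x = twT N x := by
      unfold GaussPoset.bs
      rw [if_pos hxt]
    have g6 := W.bs hxR
    rw [hbs] at g6
    have hR : Row1 j w N θ (twT N x) := by
      rcases g2 with h | h
      · exact h
      · exact absurd (hbs ▸ h) (hnd x hxR hzx)
    obtain ⟨a, ha⟩ : ∃ a, lev x = w + a := ⟨lev x - w, by have := g6.lev; omega⟩
    have g7 := W.tcst_row1 hxt hR ha
    have g8 := M.tw x hxt
    have g9 := cst_step (i := w) (h := hA N θ) H hzx (by omega)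
    have g10 : ful w x = a ^ 2 := ful_two ha (fun k hk1 hk2 => by
      have := hR.nab k hk1.le (by rw [g6.lev]; exact hk2)
      rcases g6.nab k with h | h
      · rw [← h]; exact this
      · omega)
    rw [g10, hc] at g9
    have : a ≤ min (hA N θ z) (lev z - w) := by
      rw [Nat.le_min]
      omega
    omega
  rcases not_mem_rA.mp hxR with h | h
  · have hbs : GaussPoset.bs N x = x := by
      unfold GaussPoset.bs
      rw [if_neg hxt]
    have := hkd x hxR hzx
    rw [hbs] at this
    exact ⟨h, this⟩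
  · exact absurd h hxt

end Pool.Agent.GaussPoset
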