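import Pool.Agent.W_448s7_h5.SevL

/-!
# The windows of S7: twins of natural elements, the exact far window theorem (MP_448cb3_co)
-/

namespace Pool.Agent.GaussPoset

set_option linter.unusedSectionVars false

open Polynomial Finset

universe u

variable {P : Type u} [Fintype P] [PartialOrder P] [DecidableEq P] {r j w : ℕ}
  {N : Tops P → Finset P} {b : Tops P → ℕ} {θ : Tops P → P → ℕ}

lemma tcst_cst {i : ℕ} {θ : P → ℕ} {t : P × P} (H : Twn i θ t) :
    tcst i θ t = cst i (fun _ => θ t.1 + 1) t.1 + θ t.1 := by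
  classical
  rw [tcst_eq H]
  have h1 : cst i (fun _ => θ t.1 + 1) t.1 =
      ∑ y, (if t.1 < y then min (θ t.1 + 1) (lev y - i) else 0) + (θ t.1 + 1) := by
    unfold cst
    rw [← Finset.sum_erase_add univ _ (mem_univ t.1),
      ← Finset.sum_erase_add univ (fun y => if t.1 < y then min (θ t.1 + 1) (lev y - i) else 0)
        (mem_univ t.1), if_neg (lt_irrefl _), add_zero]
    congr 1
    · refine Finset.sum_congr rfl fun y hy => ?_
      have hne := (mem_erase.mp hy).1
      unfold ez
      by_cases h4 : t.1 < y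
      · rw [if_pos h4, if_pos h4.le]
      · rw [if_neg h4, if_neg]
        intro h5
        exact h4 (lt_of_le_of_ne h5 (Ne.symm hne))
    · unfold ez
      rw [if_pos le_rfl]
      exact Nat.min_eq_left H.lt
  rw [h1]
  omega

/-- full cost with two elements on every level `w ≤ k < lev x` -/
lemma ful_two {x : P} {a : ℕ} (hl : lev x = w + a) (h2 : ∀ k, w < k → k < lev x → nab k x = 2) :
    ful w x = a ^ 2 := by
  have h3 : cst w (fun _ => a) x = ful w x := cst_eq_ful (h := fun _ => a) (by omega)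
  rw [← h3, cst_shift hl, Finset.sum_range_succ, ← hl, nab_self, mul_one, Nat.min_self]
  have h4 : ∑ n ∈ range a, min a n * nab (w + n) x = (∑ n ∈ range a, n) * 2 := by
    rw [Finset.sum_mul]
    refine Finset.sum_congr rfl fun n hn => ?_
    rw [mem_range] at hn
    rw [Nat.min_eq_right hn.le]
    rcases Nat.eq_zero_or_pos n with h0 | h0
    · subst h0; simp
    · rw [h2 (w + n) (by omega) (by omega)]
  rw [h4, Finset.sum_range_id_mul_two]
  rcases Nat.eq_zero_or_pos a with h0 | h0
  · subst h0; rfl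
  · obtain ⟨c, rfl⟩ : ∃ c, a = c + 1 := ⟨a - 1, by omega⟩
    rw [Nat.add_sub_cancel]
    ring

open Classical in
/-- the unnatural twins of natural elements -/
noncomputable def twA (N : Tops P → Finset P) : Finset P :=
  (unnat N).filter (fun z => ∃ y, y ∉ unnat N ∧ ∀ w, y < w ↔ z < w)

lemma mem_twA {z : P} : z ∈ twA N ↔ z ∈ unnat N ∧ ∃ y, y ∉ unnat N ∧ ∀ w, y < w ↔ z < w := by
  classical
  unfold twA
  rw [mem_filter]

theorem Wn.twSys (W : Wn r j w N b θ) : TwSys (unnat N) (twA N) topOf (twT N) where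
  sub := fun x hx => (mem_twA.mp hx).1
  nat := fun x hx => (twT_spec (mem_twA.mp hx).2).1
  up := fun x hx => (twT_spec (mem_twA.mp hx).2).2
  inj := by
    intro x hx x' hx' h
    have h1 := mem_twA.mp hx
    have h2 := mem_twA.mp hx'
    have h3 := twT_spec h1.2
    have h4 := twT_spec h2.2
    have hlx := W.lt_lev h1.1
    by_contra hne
    have h5 : x < (topOf x : P) := lt_of_le_of_ne (le_topOf x) (by
      intro h
      have := (topOf x).2
      rw [← h] at this
      omega)
    obtain ⟨u, hu, -⟩ := Hul.exists_cov h5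
    have hu' : twT N x ⋖ u := (cov_of_up h3.2).mpr hu
    have hu'' : x' ⋖ u := by
      rw [h] at hu'
      exact (cov_of_up h4.2).mp hu'
    refine Win.dc_three W.gt.H hu hu'' hu' hne ?_ ?_
    · intro h6
      exact h3.1 (h6 ▸ h1.1)
    · intro h6
      rw [h] at h6
      exact h4.1 (h6 ▸ h2.1)
  anti := by
    intro x hx y hy h
    have h1 := mem_twA.mp hx
    have h2 := mem_twA.mp hy
    have h3 := twT_spec h2.2
    exact (W.up h3.1 ((h3.2 x).mpr h).le).1 h1.1
  cp := by
    intro x hx
    have h1 := mem_twA.mp hx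
    have h3 := twT_spec h1.2
    have hlx := W.lt_lev h1.1
    have h5 : x < (topOf x : P) := lt_of_le_of_ne (le_topOf x) (by
      intro h
      have := (topOf x).2
      rw [← h] at this
      omega)
    have h6 : twT N x ∈ N (topOf (twT N x)) := W.natSys.mem_iff.mpr ⟨h3.1, rfl⟩
    exact (Subtype.ext (W.natSys.top_eq h6 (topOf x).2 ((h3.2 _).mpr h5).le)).symm

/-- twins are not straight -/
lemma Wn.tw_cases (W : Wn r j w N b θ) {x : P} (hx : x ∈ twA N) :
    j < lev (twT N x) ∧ (Row1 j w N θ (twT N x) ∨ Dp j w N θ (twT N x)) := by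
  have h1 := mem_twA.mp hx
  have h3 := twT_spec h1.2
  have h4 := W.lt_lev h1.1
  have h5 := W.twSys.lev hx
  refine ⟨by omega, ?_⟩
  rcases W.cases h3.1 (by omega) with h | h
  · exact absurd h3.2 (h.tw x h1.1)
  · exact h

/-- the thresholds of natural elements and twins -/
noncomputable abbrev thA (N : Tops P → Finset P) (θ : Tops P → P → ℕ) : P → ℕ :=
  thX (twA N) (twT N) (fun x => θ (topOf x) x)

lemma Wn.not_tw (W : Wn r j w N b θ) {x : P} (hx : x ∉ unnat N) : x ∉ twA N :=
  fun h => hx (mem_twA.mp h).1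

lemma Wn.thA_nat (W : Wn r j w N b θ) {x : P} (hx : x ∉ unnat N) :
    thA N θ x = θ (topOf x) x := thX_not (W.not_tw hx)

lemma Wn.thA_tw (W : Wn r j w N b θ) {x : P} (hx : x ∈ twA N) :
    thA N θ x = θ (topOf (twT N x)) (twT N x) := thX_of hx

theorem Wn.twn (W : Wn r j w N b θ) {x : P} (hx : x ∈ twA N) :
    Twn w (thA N θ) (twT N x, x) := by
  have T := W.twSys
  have h1 := mem_twA.mp hx
  have h3 := twT_spec h1.2
  obtain ⟨hl, hk⟩ := W.tw_cases hx
  have hj := W.hj
  have hw := W.hw
  have e1 : thA N θ (twT N x) = θ (topOf (twT N x)) (twT N x) := W.thA_nat h3.1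
  have e2 := W.thA_tw hx
  have hm : ∀ y, twT N x < y → θ (topOf y) y ≤ θ (topOf (twT N x)) (twT N x) + 1 := by
    rcases hk with h | h
    · exact h.mono
    · exact h.mono
  have ht : θ (topOf (twT N x)) (twT N x) + 1 ≤ lev (twT N x) - w ∧
      lev (twT N x) - w ≤ θ (topOf (twT N x)) (twT N x) + 3 := by
    rcases hk with h | h
    · have := h.th
      omega
    · exact ⟨h.th, h.th3⟩
  refine ⟨?_, h3.2, ?_, ?_, ?_, ?_⟩
  · intro h
    simp only at h
    exact h3.1 (by rw [h]; exact h1.1)
  · simp only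
    rw [e1]
    omega
  · simp only
    rw [e1, e2]
  · simp only
    rw [e1]
    exact ht.1
  · intro y hy
    simp only at hy ⊢
    rw [e1, W.thA_nat (W.up h3.1 hy.le).1]
    exact hm y hy

/-- cost of the twins of cells of row `1` -/
lemma Wn.tcst_row1 (W : Wn r j w N b θ) {x : P} (hx : x ∈ twA N)
    (hk : Row1 j w N θ (twT N x)) {a : ℕ} (ha : lev x = w + a) :
    tcst w (thA N θ) (twT N x, x) + 1 = a ^ 2 + a := by
  have h1 := mem_twA.mp hx
  have h3 := twT_spec h1.2
  have hl := W.twSys.lev hx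
  have e1 : thA N θ (twT N x) = θ (topOf (twT N x)) (twT N x) := W.thA_nat h3.1
  have h4 := hk.th
  have h5 : thA N θ (twT N x) + 1 = a := by omega
  rw [tcst_cst (W.twn hx)]
  simp only
  rw [h5, cst_eq_ful (by omega), ful_two (a := a) (by omega)
    fun k hk1 hk2 => hk.nab k hk1.le hk2]
  omega

/-- cost of the twins of deep cells -/
lemma Wn.tcst_deep (W : Wn r j w N b θ) {x : P} (hx : x ∈ twA N)
    (hk : Dp j w N θ (twT N x)) : cap j w < tcst w (thA N θ) (twT N x, x) := by
  have h1 := mem_twA.mp hx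
  have h3 := twT_spec h1.2
  have hl := (W.tw_cases hx).1
  have e1 : thA N θ (twT N x) = θ (topOf (twT N x)) (twT N x) := W.thA_nat h3.1
  rw [tcst_cst (W.twn hx)]
  have h4 := hk.cost (by omega)
  simp only
  rw [e1]
  omega

/-- the far set -/
noncomputable abbrev rA (N : Tops P → Finset P) : Finset P := unnat N \ twA N

/-- the labels -/
noncomputable abbrev hA (N : Tops P → Finset P) (θ : Tops P → P → ℕ) : P → ℕ :=
  hcan (rA N) (thA N θ)

theorem Wn.farX (W : Wn r j w N b θ) (n0 : ℕ)
    (hcost : ∀ x ∈ twA N, n0 ≤ tcst w (thA N θ) (twT N x, x)) :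
    FarX P w (rA N) (lv P w).card (hA N θ) (thA N θ) (pairsX (twA N) (twT N)) n0 := by
  choose B hB using fun t => (W.top t).natTop W.gt.H.gradedBelow
  have h := farX_of_tops W.gt.H.gradedBelow hB W.twSys n0 (fun x hx => W.twn hx) hcost
  rw [W.sum_b] at h
  exact h

lemma mem_rA {x : P} : x ∈ rA N ↔ x ∈ unnat N ∧ x ∉ twA N := mem_sdiff

lemma not_mem_rA {x : P} : x ∉ rA N ↔ x ∉ unnat N ∨ x ∈ twA N := by
  classical
  rw [mem_rA]
  tauto

end Pool.Agent.GaussPoset
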