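import Pool.Agent.W_448s6_h67.PcC

/-!
# Two pendants below an end of a long row force a join at the other end (MP_448cb3_co, S7)

All levels less than `j = i + 1` are good, the row of level `j` of a component is `x_0, …, x_m`, `m ≥ 3`,
both ends are single-up and no inner element has a pendant.  If `x_0` has two pendants, then `m` is odd and
`x_m` has a lower cover which is below another maximal element.
-/

namespace Pool.Agent.GaussPoset.Win

set_option linter.unusedSectionVars false

open Finset

universe u

variable {P : Type u} [Fintype P] [PartialOrder P] [DecidableEq P] {r i : ℕ} {t : P}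

/-- the first coefficient of the matching polynomial of a path -/
lemma coeff_path (A : Finset P → ℤ) (X : ℕ → P) {k : ℕ}
    (hinj : ∀ a b, a ≤ k → b ≤ k → X a = X b → a = b)
    (hfar : ∀ a b, a + 1 < b → b ≤ k → A {X a, X b} = 0) :
    (St.mp A ((range (k + 1)).image X)).coeff 1 = ∑ a ∈ range k, A {X a, X (a + 1)} := by
  induction k with
  | zero =>
    rw [show (range (0 + 1)).image X = {X 0} by simp, St.mp_singleton, Polynomial.coeff_one,
      if_neg (by norm_num)]
    simp
  | succ k ih =>
    have h1 := ih (fun a b ha hb => hinj a b (by omega) (by omega))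
      (fun a b ha hb => hfar a b ha (by omega))
    have hnm : X (k + 1) ∉ (range (k + 1)).image X := by
      rw [mem_image]
      rintro ⟨a, ha, he⟩
      rw [mem_range] at ha
      have := hinj a (k + 1) (by omega) le_rfl he
      omega
    rw [range_add_one (n := k + 1), image_insert, St.coeff_one_insert hnm, h1, sum_range_succ]
    congr 1
    rw [sum_image (by
      intro a ha b hb he
      rw [mem_coe, mem_range] at ha hb
      exact hinj a b (by omega) (by omega) he)]
    rw [sum_eq_single_of_mem k (mem_range.2 (by omega)) (by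
      intro b hb hbk
      rw [mem_range] at hb
      rw [pair_comm]
      exact hfar b (k + 1) (by omega) le_rfl)]
    rw [pair_comm]

/-- **Two pendants below an end of a long row.** -/
theorem pen_join {lo hi : ℕ → ℕ} {x : ℕ → ℕ → P} (h : GoodTo P r (i + 1)) (hi1 : 1 ≤ i)
    (ht : lev t = 0) (C : Comp P t (i + 1) lo hi x)
    (hpen : ∀ a, lo i < a → a ≤ hi i → (pen (x (i + 1) a)).card = 0)
    (hlo : lo (i + 1) = lo i) (hhi : hi (i + 1) = hi i + 1) (hm3 : lo (i + 1) + 3 ≤ hi (i + 1))
    {p p' : P} (hpp : p ≠ p') (hp : p ⋖ x (i + 1) (lo (i + 1))) (hp' : p' ⋖ x (i + 1) (lo (i + 1)))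
    (ho : ∀ y, p ⋖ y → y = x (i + 1) (lo (i + 1)))
    (ho' : ∀ y, p' ⋖ y → y = x (i + 1) (lo (i + 1))) :
    Odd (hi (i + 1) - lo (i + 1)) ∧
      ∃ z y, z ⋖ x (i + 1) (hi (i + 1)) ∧ z ⋖ y ∧ ¬ y ≤ t := by
  classical
  have H := h.H
  have S := C.rw_row h hi1 ht
  set m := hi (i + 1) - lo (i + 1) with hm
  set X : ℕ → P := fun a => x (i + 1) (lo (i + 1) + a) with hX
  have hX0 : X 0 = x (i + 1) (lo (i + 1)) := rfl
  have hXm : X m = x (i + 1) (hi (i + 1)) := by
    show x (i + 1) (lo (i + 1) + m) = x (i + 1) (hi (i + 1))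
    congr 1
    omega
  rw [← hXm]
  rw [← hX0] at hp hp' ho ho'
  have hmr : i + 2 ≤ r := by
    have h1 := lev_cov H hp
    have h2 := S.lev_x 0 (by omega)
    have h3 := H.lev_le p
    omega
  -- covers of the row elements
  have huc : ∀ a, 1 ≤ a → a < m → (uc (X a)).card = 2 := by
    intro a h1 h2
    exact (C.uc_two h ht (k := i) (a := lo (i + 1) + a) (by omega) (by omega) (by omega)).2
      (by omega)
  have hnear := (near_level' h hi1).1
  -- the first element has no pairs
  have F0 : ∀ v, v ≠ X 0 → dcv (X 0) v = 0 := by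
    intro v hv
    by_contra hcon
    obtain ⟨z, hz, hz'⟩ := StA_of_dcv (Nat.one_le_iff_ne_zero.2 hcon)
    by_cases h1 : z = p
    · subst h1
      exact hv (ho v hz')
    · by_cases h2 : z = p'
      · subst h2
        exact hv (ho' v hz')
      · exact dc_three H hp hp' hz hpp (Ne.symm h1) (Ne.symm h2)
  -- inner elements have pairs in the component only
  have F1 : ∀ a, 1 ≤ a → a < m → ∀ v z, z ⋖ X a → z ⋖ v → v ≠ X a → v ≤ t := by
    intro a h1 h2 v z hz hz' hne
    have hl := S.lev_x a h2.le
    have hlz := lev_cov H hz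
    rcases hnear z (X a) v (by omega) hz hz' (Ne.symm hne) with h3 | ⟨h3, -⟩
    · exact h.top_of_ucv (by omega) (by omega) ht (S.le_t a h2.le)
    · have := huc a h1 h2
      omega
  have hfar0 : ∀ a b, a + 1 < b → b ≤ m → dcv (X a) (X b) = 0 := by
    intro a b h1 h2
    by_cases h3 : a = 0 ∧ b = m
    · rw [h3.1, h3.2]
      exact F0 _ fun he => by
        have := S.inj m 0 le_rfl (by omega) he
        omega
    · exact S.dcv_far h1 h2 h3
  have hDfar : ∀ a b, a + 1 < b → b ≤ m → Df (i + 1) {X a, X b} = 0 := by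
    intro a b h1 h2
    rw [Df_pair H (S.lev_x a (by omega)) (fun he => by
      have := S.inj a b (by omega) h2 he
      omega), hfar0 a b h1 h2, S.ucv_x a b (by omega) h2 (by omega), if_neg (by omega)]
    norm_num
  -- the defects on the path
  obtain ⟨c, hc⟩ : ∃ c : ℕ → ℤ, ∀ k, c k = Df (i + 1) {X k, X (k + 1)} := ⟨_, fun _ => rfl⟩
  have hcd : ∀ k, k < m → c k = (dcv (X k) (X (k + 1)) : ℤ) - 1 := fun k hk => by
    rw [hc k, S.Df_adj H hk]
  have hc0 : c 0 = -1 := by
    rw [hcd 0 (by omega), F0 (X 1) (fun he => by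
      have := S.inj 1 0 (by omega) (by omega) he
      omega)]
    norm_num
  have hcm : ∀ k, k < m → -1 ≤ c k := fun k hk => by
    rw [hcd k hk]
    have : (0 : ℤ) ≤ dcv (X k) (X (k + 1)) := by positivity
    linarith
  have F3 : ∀ a, a + 1 < m → 1 ≤ dcv (X a) (X (a + 1)) + dcv (X (a + 1)) (X (a + 2)) := by
    intro a ha
    by_contra hcon
    have g1 : dcv (X a) (X (a + 1)) = 0 := by omega
    have g2 : dcv (X (a + 1)) (X (a + 2)) = 0 := by omega
    have hl := S.lev_x (a + 1) (by omega)
    obtain ⟨z, hz⟩ := exists_dc H (v := X (a + 1)) (by omega)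
    have hlz := lev_cov H hz
    have hnp : (uc z).card ≠ 1 := by
      intro h1
      have h2 : z ∈ pen (X (a + 1)) := mem_pen.2 ⟨hz, h1⟩
      have h3 := hpen (lo (i + 1) + (a + 1)) (by omega) (by omega)
      rw [Finset.card_eq_zero] at h3
      rw [show X (a + 1) = x (i + 1) (lo (i + 1) + (a + 1)) from rfl, h3] at h2
      exact absurd h2 (Finset.notMem_empty _)
    have h2 : (uc z).card = 2 := by
      rcases uc_card_cases H (x := z) (by omega) with h3 | h3
      · exact absurd h3 hnp
      · exact h3
    obtain ⟨v, hv, hne⟩ := exists_other_uc (y := X (a + 1)) h2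
    have hvt := F1 (a + 1) (by omega) (by omega) v z hz hv hne
    obtain ⟨b, hb, rfl⟩ := S.surj v (by have := lev_cov H hv; omega) hvt
    have h3 := StA_dcv_pos hz hv
    have h4 := StA_dcv_pos hv hz
    have hab : a + 1 ≠ b := fun he => hne (by rw [he])
    rcases Nat.lt_or_ge (a + 1) b with h5 | h5
    · by_cases h6 : a + 2 = b
      · rw [← h6] at h3
        omega
      · have := hfar0 (a + 1) b (by omega) hb
        omega
    · by_cases h6 : b = a
      · rw [h6] at h4
        omega
      · have := hfar0 b (a + 1) (by omega) (by omega)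
        omega
  have F4 : ∀ a, a + 1 < m → c a + c (a + 1) ≤ 0 := by
    intro a ha
    have h1 := S.degD_le H (a := a + 1) (by omega)
    rw [S.dcv_mid ha] at h1
    rw [hcd a (by omega), hcd (a + 1) ha]
    linarith
  have F3' : ∀ a, a + 1 < m → -1 ≤ c a + c (a + 1) := by
    intro a ha
    have h1 : (1 : ℤ) ≤ dcv (X a) (X (a + 1)) + dcv (X (a + 1)) (X (a + 2)) := by
      exact_mod_cast F3 a ha
    rw [hcd a (by omega), hcd (a + 1) ha]
    linarith
  -- alternation
  have halt : ∀ k, k ≤ m → (∀ a, 1 ≤ a → a < k → c a ≠ 0) → ∀ a, a < k → c a = -(-1) ^ a := by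
    intro k hk hne a
    induction a with
    | zero => intro _; rw [hc0]; norm_num
    | succ a ih =>
      intro ha
      have h1 := ih (by omega)
      have h2 := F4 a (by omega)
      have h3 := F3' a (by omega)
      have h4 := hcm (a + 1) (by omega)
      have h5 := hne (a + 1) (by omega) ha
      rcases Nat.even_or_odd a with h6 | h6
      · rw [h6.neg_one_pow] at h1
        rw [pow_succ, h6.neg_one_pow]
        omega
      · rw [h6.neg_one_pow] at h1
        rw [pow_succ, h6.neg_one_pow]
        omega
  have hsum : ∀ k, ∑ a ∈ range k, (-(-1 : ℤ) ^ a) = if Even k then 0 else -1 := by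
    intro k
    induction k with
    | zero => simp
    | succ k ih =>
      rw [sum_range_succ, ih]
      rcases Nat.even_or_odd k with h6 | h6
      · rw [if_pos h6, h6.neg_one_pow, if_neg (by
          rw [Nat.not_even_iff_odd]
          exact h6.add_one)]
        norm_num
      · rw [if_neg (Nat.not_even_iff_odd.2 h6), h6.neg_one_pow, if_pos h6.add_one]
        norm_num
  -- no pairs of the row with other elements
  have hout : ∀ a, a < m → ∀ v, lev v = i + 1 → ¬ v ≤ t → Df (i + 1) {X a, v} = 0 := by
    intro a ha v hv hvt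
    have hne : X a ≠ v := by
      rintro rfl
      exact hvt (S.le_t a ha.le)
    rw [Df_pair H (S.lev_x a ha.le) hne]
    have e1 : dcv (X a) v = 0 := by
      rcases Nat.eq_zero_or_pos a with h0 | h0
      · rw [h0]
        exact F0 v fun he => hvt (by rw [he]; exact S.le_t 0 (by omega))
      · by_contra hcon
        obtain ⟨z, hz, hz'⟩ := StA_of_dcv (Nat.one_le_iff_ne_zero.2 hcon)
        exact hvt (F1 a h0 ha v z hz hz' hne.symm)
    have e2 : ucv (X a) v = 0 := by
      by_contra hcon
      exact hvt (h.top_of_ucv (by have := S.lev_x a ha.le; omega) (by omega) ht (S.le_t a ha.le))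
    rw [e1, e2]
    norm_num
  have hmpall : St.mp (Df (i + 1)) (lv P (i + 1)) = 1 := St.mp_level H (by have := h.hr; omega)
  have hsep : ∀ k, k ≤ m → (∀ w ∈ lv P (i + 1), w ∉ SV k X → ∀ a, a ≤ k →
      Df (i + 1) {X a, w} = 0) → St.mp (Df (i + 1)) (SV k X) = 1 := by
    intro k hk hw
    have hsub : SV k X ⊆ lv P (i + 1) := by
      intro v hv
      unfold SV at hv
      rw [mem_image] at hv
      obtain ⟨a, ha, rfl⟩ := hv
      rw [mem_range] at ha
      exact mem_lv.2 (S.lev_x a (by omega))
    refine St.mp_left (W := lv P (i + 1) \ SV k X) disjoint_sdiff ?_ ?_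
    · intro u hu w hw'
      rw [mem_sdiff] at hw'
      unfold SV at hu
      rw [mem_image] at hu
      obtain ⟨a, ha, rfl⟩ := hu
      rw [mem_range] at ha
      exact hw w hw'.1 hw'.2 a (by omega)
    · rw [union_sdiff_of_subset hsub]
      exact hmpall
  have hnz : ∀ a, 1 ≤ a → a < m → c a ≠ 0 := by
    by_contra hcon
    push Not at hcon
    obtain ⟨k, ⟨h1, h2, h3⟩, hmin⟩ : ∃ k, (1 ≤ k ∧ k < m ∧ c k = 0) ∧
        ∀ a, a < k → ¬ (1 ≤ a ∧ a < m ∧ c a = 0) :=
      ⟨Nat.find hcon, Nat.find_spec hcon, fun a ha => Nat.find_min hcon ha⟩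
    have h4 := halt k h2.le fun a ha hak he => hmin a hak ⟨ha, by omega, he⟩
    have h5 : c (k - 1) = -1 := by
      have g1 := h4 (k - 1) (by omega)
      have g2 := F4 (k - 1) (by omega)
      have g3 := F3' (k - 1) (by omega)
      rw [show k - 1 + 1 = k by omega, h3] at g2 g3
      rcases Nat.even_or_odd (k - 1) with h6 | h6
      · rw [h6.neg_one_pow] at g1
        exact g1
      · rw [h6.neg_one_pow] at g1
        omega
    have h6 : ¬ Even k := by
      intro hk
      have g1 := h4 (k - 1) (by omega)
      have h7 : Odd (k - 1) := by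
        obtain ⟨q, hq⟩ := hk
        exact ⟨q - 1, by omega⟩
      rw [h7.neg_one_pow] at g1
      omega
    have h7 := hsep k h2.le (by
      intro w hw hwS a ha
      rw [mem_lv] at hw
      by_cases hwt : w ≤ t
      · obtain ⟨b, hb, rfl⟩ := S.surj w hw hwt
        have hbk : k < b := by
          by_contra hcon'
          exact hwS (mem_SV (by omega))
        by_cases h8 : a + 1 < b
        · exact hDfar a b h8 hb
        · rw [show b = a + 1 by omega, ← hc a, show a = k by omega]
          exact h3
      · exact hout a (by omega) w hw hwt)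
    have h8 := coeff_path (Df (i + 1)) X (k := k)
      (fun a b ha hb => S.inj a b (by omega) (by omega))
      (fun a b ha hb => hDfar a b ha (by omega))
    rw [show (range (k + 1)).image X = SV k X from rfl, h7, Polynomial.coeff_one,
      if_neg (by norm_num)] at h8
    have h9 : ∑ a ∈ range k, Df (i + 1) {X a, X (a + 1)} = ∑ a ∈ range k, (-(-1 : ℤ) ^ a) :=
      sum_congr rfl fun a ha => by
        rw [← hc a]
        exact h4 a (mem_range.1 ha)
    rw [h9, hsum k, if_neg h6] at h8
    norm_num at h8
  have hall := halt m le_rfl hnz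
  -- a join at the last element
  have hjoin : ∃ z y, z ⋖ X m ∧ z ⋖ y ∧ ¬ y ≤ t := by
    by_contra hcon
    push Not at hcon
    have h7 := hsep m le_rfl (by
      intro w hw hwS a ha
      rw [mem_lv] at hw
      have hwt : ¬ w ≤ t := by
        intro hwt
        obtain ⟨b, hb, rfl⟩ := S.surj w hw hwt
        exact hwS (mem_SV hb)
      rcases Nat.lt_or_ge a m with h8 | h8
      · exact hout a h8 w hw hwt
      · obtain rfl : a = m := by omega
        have hne : X m ≠ w := by
          rintro rfl
          exact hwt (S.le_t m le_rfl)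
        rw [Df_pair H (S.lev_x m le_rfl) hne]
        have e1 : dcv (X m) w = 0 := by
          by_contra hcon'
          obtain ⟨z, hz, hz'⟩ := StA_of_dcv (Nat.one_le_iff_ne_zero.2 hcon')
          exact hwt (hcon z w hz hz')
        have e2 : ucv (X m) w = 0 := by
          by_contra hcon'
          exact hwt (h.top_of_ucv (by have := S.lev_x m le_rfl; omega) (by omega) ht
            (S.le_t m le_rfl))
        rw [e1, e2]
        norm_num)
    obtain ⟨c', β, hpat, hc', hβ⟩ := S.cases H h7 (p := 0) (fun a ha _ => F3 a ha)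
    have g1 : c' 0 = -1 := by rw [← hc' 0 (by omega), ← hc 0]; exact hc0
    have g2 : β = 0 := by rw [← hβ (by omega)]; exact hDfar 0 m (by omega) le_rfl
    rcases hpat with ⟨-, e⟩ | ⟨-, e, -⟩ | ⟨-, e, -⟩ | ⟨-, -, e, -⟩ | ⟨-, -, -, -, e⟩ | ⟨-, -, e, -⟩ |
      ⟨e, -⟩ | ⟨-, -, e, -⟩
    · have := e 0 (by omega)
      omega
    · omega
    · omega
    · omega
    · have := e 0 (by omega)
      omega
    · omega
    · omega
    · omega
  refine ⟨?_, hjoin⟩
  by_contra hodd
  rw [Nat.not_odd_iff_even] at hodd
  obtain ⟨z, y, hz, hzy, hyt⟩ := hjoin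
  have h1 := hall (m - 1) (by omega)
  have h2 : Odd (m - 1) := by
    obtain ⟨q, hq⟩ := hodd
    exact ⟨q - 1, by omega⟩
  rw [h2.neg_one_pow, hcd (m - 1) (by omega), show m - 1 + 1 = m by omega] at h1
  have h3 : 2 ≤ dcv (X (m - 1)) (X m) := by
    have : (dcv (X (m - 1)) (X m) : ℤ) = 2 := by linarith
    have : dcv (X (m - 1)) (X m) = 2 := by exact_mod_cast this
    omega
  -- two common children and `z`
  unfold dcv at h3
  obtain ⟨q, hq1, q', hq2, hqq⟩ := Finset.one_lt_card.mp (Nat.lt_of_succ_le h3)
  have hq := And.intro hq1 hq2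
  rw [mem_filter, mem_filter] at hq
  have hz1 : ∀ a, a ⋖ X (m - 1) → a ⋖ X m → a ≠ z := by
    rintro a ha ha' rfl
    -- `a` has the covers `X (m-1)`, `X m`, `y`
    have g1 : X (m - 1) ≠ X m := fun he => by
      have := S.inj (m - 1) m (by omega) le_rfl he
      omega
    have g2 : X (m - 1) ≠ y := by
      rintro rfl
      exact hyt (S.le_t _ (by omega))
    have g3 : X m ≠ y := by
      rintro rfl
      exact hyt (S.le_t _ le_rfl)
    have g4 := uc_card_le H a
    have g5 : ({X (m - 1), X m, y} : Finset P) ⊆ uc a := by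
      intro v hv
      rw [mem_insert, mem_insert, mem_singleton] at hv
      rw [mem_uc]
      rcases hv with rfl | rfl | rfl
      · exact ha
      · exact ha'
      · exact hzy
    have g6 := Finset.card_le_card g5
    rw [Finset.card_insert_of_notMem (by
      rw [mem_insert, mem_singleton]
      exact fun hh => hh.elim g1 g2), Finset.card_pair g3] at g6
    omega
  exact dc_three H hq.1.2.2 hq.2.2.2 hz hqq (hz1 q hq.1.2.1 hq.1.2.2) (hz1 q' hq.2.2.1 hq.2.2.2)

end Pool.Agent.GaussPoset.Win
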