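import Pool.Agent.W_448s7_h5.SevFn
import Pool.Agent.W_448s7_h5.PenA
import Pool.Agent.W_448rr_h67.RrB

/-!
# One pendant below the straight ends, or a cheap join (MP_448cb3_co, S7, `j ≥ 17`)
-/

namespace Pool.Agent.GaussPoset

set_option linter.unusedSectionVars false

open Finset Wd

universe u

variable {P : Type u} [Fintype P] [PartialOrder P] [DecidableEq P] {r j w : ℕ}

section

variable {t : Tops P} {lo hi : ℕ → ℕ} {e : ℕ → ℕ → P}

/-- two pendants below the end `e j 0` of a full rectangle row -/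
lemma pen_left (G : Win.GoodTo P r j) (hj : 3 ≤ j) (C : Cp.Comp j (t : P) lo hi e)
    (S : RectShape j lo hi) (h0 : lo j = 0) (h1 : hi j = j) {p p' : P} (hpp : p ≠ p')
    (hp : p ⋖ e j 0) (hp' : p' ⋖ e j 0) (ho : ∀ y, p ⋖ y → y = e j 0)
    (ho' : ∀ y, p' ⋖ y → y = e j 0) :
    Odd j ∧ ∃ z y, z ⋖ e j j ∧ z ⋖ y ∧ ¬ y ≤ (t : P) := by
  obtain ⟨i, rfl⟩ : ∃ i, j = i + 1 := ⟨j - 1, by omega⟩
  have ht : lev (t : P) = 0 := t.2
  have a1 := C.lo_step i (by omega)
  have a2 := C.hi_step i (by omega)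
  have a3 := C.hi_le (k := i) (by omega)
  obtain ⟨n1, n2⟩ := rectShape_no_co C S
  have hS := (Win.near_level' G (by omega)).2 t lo hi e ht C.toWin
  have hpen : ∀ a, lo i < a → a ≤ hi i → (Win.pen (e (i + 1) a)).card = 0 := by
    rcases hS with ⟨-, -, h8⟩ | ⟨h8, -⟩ | ⟨h8, -⟩
    · exact h8
    · exact absurd h8 n1
    · exact absurd h8 n2
  have h := Win.pen_join G (by omega) ht C.toWin hpen (by omega) (by omega) (by omega)
    (p := p) (p' := p') hpp (by rw [h0]; exact hp) (by rw [h0]; exact hp')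
    (by rw [h0]; exact ho) (by rw [h0]; exact ho')
  rw [h0, h1, Nat.sub_zero] at h
  exact h

/-- single-up elements of an early component are straight, `j` odd -/
lemma early_straight (H : Gr P r) (hg : ∀ l, l < j → Win.Good P l) (hj : 1 ≤ j) (hodd : Odd j)
    (C : Cp.Comp j (t : P) lo hi e) (S : RectShape j lo hi ∨ StairShape j lo hi) {y : P}
    (hy : y ≤ (t : P)) (hl : lev y = j) (hc : (Win.uc y).card = 1) :
    ∀ k, k ≤ j → nab k y = 1 := by
  have ht : lev (t : P) = 0 := t.2
  obtain ⟨i, rfl⟩ : ∃ i, j = i + 1 := ⟨j - 1, by omega⟩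
  obtain ⟨s, s1, s2, s3⟩ := C.surj y hy hl.le
  rw [hl] at s1 s2 s3
  subst s3
  have hpos := single_pos (j := i) C s1 s2 hc
  have hloS : lo (i + 1) = 0 ∨ lo (i + 1) = lo i + 1 := by
    rcases S with S | S
    · exact S.lo i (by omega)
    · exact S.lo i (by omega)
  have a1 := C.lo_step i (by omega)
  have a2 := C.hi_step i (by omega)
  have a3 := C.lo_le i (by omega)
  have hform : ∀ k, k ≤ i + 1 → nab k (e (i + 1) s) =
      min (hi k) s + 1 - max (lo k) (s - (i + 1 - k)) := by
    intro k hk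
    have := nab_e H hg C ht (k := k) (d := i + 1 - k) (s := s) (by omega)
      (by rw [show k + (i + 1 - k) = i + 1 by omega]; exact s1)
      (by rw [show k + (i + 1 - k) = i + 1 by omega]; exact s2)
    rw [show k + (i + 1 - k) = i + 1 by omega] at this
    exact this
  have hmono : ∀ k, k ≤ i + 1 → lo k ≤ lo (i + 1) ∧ hi (i + 1) ≤ hi k + (i + 1 - k) := by
    intro k hk
    have b1 := C.lo_mono (l := k) (d := i + 1 - k) (by omega)
    have b2 := C.hi_mono (l := k) (d := i + 1 - k) (by omega)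
    rw [show k + (i + 1 - k) = i + 1 by omega] at b1 b2
    omega
  rcases hpos with hs | hs
  · -- left end
    have hlo0 : lo (i + 1) = 0 := by omega
    have hs0 : s = 0 := by omega
    intro k hk
    have b1 := (hmono k hk).1
    rw [hform k hk, hs0]
    omega
  · -- right end
    have hrect : hi (i + 1) = i + 1 := by
      rcases S with S | S
      · have := S.hi i (by omega)
        omega
      · have b1 := S.hi i (by omega)
        have b2 := S.hi (i + 1) le_rfl
        obtain ⟨q, hq⟩ := hodd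
        omega
    intro k hk
    have b1 := (hmono k hk).2
    have b2 := C.hi_le (k := k) hk
    have b3 := C.lo_le k hk
    rw [hform k hk]
    have b4 : s = i + 1 := by omega
    omega

/-- two different straight elements of level `j` of an early component are the ends of a full
rectangle row -/
lemma two_straight (H : Gr P r) (hg : ∀ l, l < j → Win.Good P l) (hj : 4 ≤ j)
    (C : Cp.Comp j (t : P) lo hi e) (S : RectShape j lo hi ∨ StairShape j lo hi) {y y' : P}
    (hy : y ≤ (t : P)) (hy' : y' ≤ (t : P)) (hl : lev y = j) (hl' : lev y' = j)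
    (h1 : ∀ k, k ≤ j → nab k y = 1) (h1' : ∀ k, k ≤ j → nab k y' = 1) (hne : y ≠ y') :
    RectShape j lo hi ∧ lo j = 0 ∧ hi j = j ∧
      ((y = e j 0 ∧ y' = e j j) ∨ (y = e j j ∧ y' = e j 0)) := by
  have ht : lev (t : P) = 0 := t.2
  obtain ⟨i, rfl⟩ : ∃ i, j = i + 1 := ⟨j - 1, by omega⟩
  obtain ⟨s, s1, s2, s3⟩ := C.surj y hy hl.le
  rw [hl] at s1 s2 s3
  obtain ⟨s', s1', s2', s3'⟩ := C.surj y' hy' hl'.le
  rw [hl'] at s1' s2' s3'
  subst s3 s3'
  have hss : s ≠ s' := fun h => hne (by rw [h])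
  have hform : ∀ k s, k ≤ i + 1 → lo (i + 1) ≤ s → s ≤ hi (i + 1) → nab k (e (i + 1) s) =
      min (hi k) s + 1 - max (lo k) (s - (i + 1 - k)) := by
    intro k s hk s1 s2
    have := nab_e H hg C ht (k := k) (d := i + 1 - k) (s := s) (by omega)
      (by rw [show k + (i + 1 - k) = i + 1 by omega]; exact s1)
      (by rw [show k + (i + 1 - k) = i + 1 by omega]; exact s2)
    rw [show k + (i + 1 - k) = i + 1 by omega] at this
    exact this
  have f1 := h1 i (by omega)
  have f1' := h1' i (by omega)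
  rw [hform i s (by omega) s1 s2, show i + 1 - i = 1 by omega] at f1
  rw [hform i s' (by omega) s1' s2', show i + 1 - i = 1 by omega] at f1'
  have a1 := C.lo_step i (by omega)
  have a2 := C.hi_step i (by omega)
  have a3 := C.lo_le i (by omega)
  have hloS : lo (i + 1) = 0 ∨ lo (i + 1) = lo i + 1 := by
    rcases S with S | S
    · exact S.lo i (by omega)
    · exact S.lo i (by omega)
  have g1 : s = lo i ∨ s = hi i + 1 := by omega
  have g2 : s' = lo i ∨ s' = hi i + 1 := by omega
  have hlo0 : lo (i + 1) = 0 := by omega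
  have hlo1 : lo i = 0 := by omega
  have hhi1 : hi (i + 1) = hi i + 1 := by omega
  have hrect : RectShape (i + 1) lo hi := by
    rcases S with S | S
    · exact S
    · exfalso
      have b1 := S.hi i (by omega)
      have b2 := S.hi (i + 1) le_rfl
      have b3 := S.hi (i - 1) (by omega)
      have b4 := C.lo_mono (l := i - 1) (d := 2) (by omega)
      rw [show i - 1 + 2 = i + 1 by omega] at b4
      have b5 : lo (i - 1) = 0 := by omega
      rcases g1 with g1 | g1
      · have c1 := h1' (i - 1) (by omega)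
        rw [hform (i - 1) s' (by omega) s1' s2', show i + 1 - (i - 1) = 2 by omega] at c1
        omega
      · have c1 := h1 (i - 1) (by omega)
        rw [hform (i - 1) s (by omega) s1 s2, show i + 1 - (i - 1) = 2 by omega] at c1
        omega
  have hhij : hi (i + 1) = i + 1 := by
    have := hrect.hi i (by omega)
    omega
  refine ⟨hrect, hlo0, hhij, ?_⟩
  rcases g1 with g1 | g1
  · left
    exact ⟨by rw [show s = 0 by omega], by rw [show s' = i + 1 by omega]⟩
  · right
    exact ⟨by rw [show s = i + 1 by omega], by rw [show s' = 0 by omega]⟩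

end

/-- the cost of a join of two ends is small if one of them is straight -/
lemma cheap_join (H : Gr P r) (hj : 17 ≤ j) {Ea : Tops P → Prop} {z x x' : P}
    (h : Crs j Ea z x x') (hl : lev z = j + 1) (h1 : ∀ k, k ≤ j → nab k x = 1)
    (h2 : ∀ k, k ≤ 8 → nab k x' = 1) (hE : Bal.NEnd2 j (mX j x') (cX j x')) (hw : w ≤ 3) :
    ful w z ≤ (j + 1 - w) ^ 2 + 5 * (j - w) := by
  have hs := fun k (hk : k < lev z) => h.sum H hk
  have hline := ful_line (z := z) (w := w) (j := j) (by omega) (by omega) (fun k hk => by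
    rw [hs k (by omega), h1 k (by omega), h2 k (by omega)])
  obtain ⟨p1, p2, p3, p4, p5⟩ := h.parts H hl.ge
  obtain ⟨m1, m2⟩ := p5 hl
  obtain ⟨x1, x2⟩ := mX_zero h1
  have hz0 : (lev z : ℤ) - (j + 1) = 0 := by rw [hl]; push_cast; ring
  have hkg : kapZ j z * ((j : ℤ) - w) + gZ j z = mX j x' * ((j : ℤ) - w) - cX j x' := by
    unfold kapZ gZ
    rw [hz0, m1, m2, x1, x2]
    ring
  have hjw : (0 : ℤ) ≤ (j : ℤ) - w := by omega
  have hb : mX j x' * ((j : ℤ) - w) - cX j x' ≤ 5 * ((j : ℤ) - w) := by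
    rcases hE with ⟨b1, b2⟩ | ⟨b1, b2, _⟩ | ⟨b1, b2⟩ | ⟨b1, b2⟩ | ⟨b1, b2⟩
    · rw [b1, b2]; linarith
    · rw [b1]; linarith
    · rw [b1, b2]; linarith
    · rw [b1, b2]; linarith
    · rw [b1, b2]; linarith
  have hc1 : (((j + 1 - w) ^ 2 + 5 * (j - w) : ℕ) : ℤ) =
      ((j : ℤ) + 1 - w) ^ 2 + 5 * ((j : ℤ) - w) := by
    rw [Nat.cast_add, Nat.cast_pow, Nat.cast_mul, Nat.cast_sub (by omega : w ≤ j + 1),
      Nat.cast_sub (by omega : w ≤ j)]
    push_cast
    ring
  have : ((ful w z : ℕ) : ℤ) ≤ (((j + 1 - w) ^ 2 + 5 * (j - w) : ℕ) : ℤ) := by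
    rw [hc1, hline, hkg]
    linarith
  exact_mod_cast this

/-- one pendant below the straight ends of the rectangles, or a cheap join -/
theorem pen_or (G : Win.GoodTo P r j) (hj : 17 ≤ j)
    {lo hi : Tops P → ℕ → ℕ} {e : Tops P → ℕ → ℕ → P}
    (C : ∀ t : Tops P, Cp.Comp j (t : P) (lo t) (hi t) (e t)) (hS : ∀ t, Shape j (lo t) (hi t)) :
    OnePen P j (fun t => RectShape j (lo t) (hi t) ∨ StairShape j (lo t) (hi t)) ∨
      ∃ z : P, Hul.Jn z ∧ ∀ w, w ≤ 3 → ful w z ≤ (j + 1 - w) ^ 2 + 5 * (j - w) := by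
  have H := G.H
  by_cases hO : OnePen P j (fun t => RectShape j (lo t) (hi t) ∨ StairShape j (lo t) (hi t))
  · exact Or.inl hO
  right
  unfold OnePen at hO
  push Not at hO
  obtain ⟨y, y', p, p', hB, hl, hl', h1, h1', htt, hne, hp, hp', ho, ho', hpp⟩ := hO
  set t := topOf y with htdef
  have hy : y ≤ (t : P) := le_topOf y
  have hy' : y' ≤ (t : P) := by rw [htt]; exact le_topOf y'
  obtain ⟨hR, hlo, hhi, hcase⟩ := two_straight H G.good (by omega) (C t) hB hy hy' hl hl' h1 h1' hne
  have key : Odd j ∧ ∃ z u, z ⋖ y' ∧ z ⋖ u ∧ ¬ u ≤ (t : P) := by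
    rcases hcase with ⟨e1, e2⟩ | ⟨e1, e2⟩
    · rw [e1] at hp hp' ho ho'
      rw [e2]
      exact pen_left G (by omega) (C t) hR hlo hhi hpp hp hp' ho ho'
    · rw [e1] at hp hp' ho ho'
      rw [e2]
      have h := pen_left G (by omega) (comp_swap (C t)) (hR.swap (C t))
        (by show j - hi t j = 0; omega) (by show j - lo t j = j; omega) (p := p) (p' := p') hpp
        (by show p ⋖ e t j (j - 0); rw [Nat.sub_zero]; exact hp)
        (by show p' ⋖ e t j (j - 0); rw [Nat.sub_zero]; exact hp')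
        (by show ∀ y, p ⋖ y → y = e t j (j - 0); rw [Nat.sub_zero]; exact ho)
        (by show ∀ y, p' ⋖ y → y = e t j (j - 0); rw [Nat.sub_zero]; exact ho')
      obtain ⟨h2, z, u, h3, h4, h5⟩ := h
      refine ⟨h2, z, u, ?_, h4, h5⟩
      have h6 : z ⋖ e t j (j - j) := h3
      rw [Nat.sub_self] at h6
      exact h6
  obtain ⟨hodd, z, u, hz, hzu, hut⟩ := key
  have lz := (H.covBy_iff.mp hz).2
  have lu := (H.covBy_iff.mp hzu).2
  have hyu : y' ≠ u := by
    rintro rfl
    exact hut hy'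
  have hjn : Hul.Jn z := ⟨t, topOf u, t.2, (topOf u).2, fun hh => hut (by
    rw [hh]; exact le_topOf u), hz.1.le.trans hy', hzu.1.le.trans (le_topOf u)⟩
  have hty : topOf y' = t := htt.symm
  have htne : topOf y' ≠ topOf u := by
    rw [hty]
    intro hh
    exact hut (by rw [hh]; exact le_topOf u)
  have G' : Win.GoodTo P r ((j - 1) + 1) := by
    rw [show j - 1 + 1 = j by omega]
    exact G
  have hcu : (Win.uc u).card = 1 := by
    rcases (Win.near_level' G' (by omega)).1 z y' u (by omega) hz hzu hyu with h2 | ⟨-, h2, -⟩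
    · exfalso
      exact hut (G.top_of_ucv (by omega) (by omega) t.2 hy')
    · exact h2
  have hou : u ∈ onlyB (topOf u) := only_of_le H G.good (le_topOf u) (by omega)
  have hstr : (RectShape j (lo (topOf u)) (hi (topOf u)) ∨
      StairShape j (lo (topOf u)) (hi (topOf u))) → ∀ k, k ≤ j → nab k u = 1 := fun hB =>
    early_straight H G.good (by omega) hodd (C (topOf u)) hB (le_topOf u) (by omega) hcu
  have hcrs : Crs j (fun t => RectShape j (lo t) (hi t) ∨ StairShape j (lo t) (hi t)) z y' u :=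
    ⟨hz, hzu, only_of_le H G.good (le_topOf y') (by omega), hou, htne, fun _ => h1', hstr⟩
  have hfin : (∀ k, k ≤ 8 → nab k u = 1) ∧ Bal.NEnd2 j (mX j u) (cX j u) := by
    by_cases hB : RectShape j (lo (topOf u)) (hi (topOf u)) ∨
      StairShape j (lo (topOf u)) (hi (topOf u))
    · obtain ⟨a, b⟩ := mX_zero (hstr hB)
      exact ⟨fun k hk => hstr hB k (by omega), Or.inl ⟨a, b⟩⟩
    · obtain ⟨c1, c2, c3⟩ := late_of_shape H G.good hj (C (topOf u)) (hS (topOf u)) hB
      exact ⟨fun k hk => nab_one_le (C (topOf u)) hou (by omega) (by omega) (c1 k hk),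
        c3 u (le_topOf u) (by omega) hcu⟩
  exact ⟨z, hjn, fun w hw => cheap_join H hj hcrs (by omega) h1' hfin.1 hfin.2 hw⟩

end Pool.Agent.GaussPoset
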