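import Pool.Agent.W_448hul_h24.Hull

/-!
S7, window 0: the cheap joins of the first joining level.
-/

namespace Pool.Agent.GaussPoset.Sev

set_option linter.unusedSectionVars false

open Finset Hul

universe u

variable {P : Type u} [Fintype P] [PartialOrder P] [DecidableEq P] {r j : ℕ}

/-- If no element of level at most `j` is a join and the energy of a join of level `j + 1`, as far
as it is less than `M`, determines the parity of the number of elements above it, then all joins
have energy at least `M`. -/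
theorem window_zero (H : Gr P r) {M : ℕ} (hM : M ≤ (j + 2) ^ 2)
    (hno : ∀ u : P, lev u ≤ j → ¬ Jn u)
    (hpar : ∀ u u' : P, Jn u → Jn u' → lev u = j + 1 → lev u' = j + 1 → En 0 u = En 0 u' →
      En 0 u < M → ua u % 2 = ua u' % 2) : ∀ u : P, Jn u → M ≤ En 0 u := by
  classical
  by_contra hcon
  push Not at hcon
  obtain ⟨w0, hw0, hlt0⟩ := hcon
  -- a join of least energy
  obtain ⟨w, hw, hmin⟩ := Finset.exists_min_image (univ.filter fun u : P => Jn u)
    (fun u => En 0 u) ⟨w0, by simp [hw0]⟩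
  rw [mem_filter] at hw
  have hwlt : En 0 w < M := lt_of_le_of_lt (hmin w0 (by simp [hw0])) hlt0
  have hE : ∀ u : P, Jn u → En 0 w ≤ En 0 u := fun u hu => hmin u (by simp [hu])
  have hlev : ∀ u : P, Jn u → En 0 u = En 0 w → lev u = j + 1 := by
    intro u hu huE
    have h0 : j < lev u := by
      by_contra h
      exact hno u (not_lt.mp h) hu
    have hmax : ∀ t, u < t → ¬ Jn t := by
      intro t ht hJ
      have h1 := hE t hJ
      have h2 := En_lt (i := 0) (show 0 < lev u by omega) ht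
      omega
    have h1 := sq_le_En H.gauss hu hmax
    by_contra h2
    have h3 : (j + 2) ^ 2 ≤ lev u ^ 2 := Nat.pow_le_pow_left (by omega) 2
    omega
  have hsum := hull_zero H hE
  have hsame : ∀ u ∈ univ.filter (fun u : P => Jn u ∧ En 0 u = En 0 w),
      (-1 : ℤ) ^ ua u = (-1) ^ ua w := by
    intro u hu
    rw [mem_filter] at hu
    obtain ⟨-, huJ, huE⟩ := hu
    have h1 := hpar u w huJ hw.2 (hlev u huJ huE) (hlev w hw.2 rfl) huE (by rw [huE]; exact hwlt)
    rw [← Nat.div_add_mod (ua u) 2, h1, pow_add, pow_mul, ← Nat.div_add_mod (ua w) 2, pow_add,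
      pow_mul]
    norm_num
  rw [Finset.sum_congr rfl hsame, Finset.sum_const] at hsum
  have hcard : 0 < (univ.filter (fun u : P => Jn u ∧ En 0 u = En 0 w)).card :=
    Finset.card_pos.2 ⟨w, by simp [hw.2]⟩
  rw [smul_eq_zero] at hsum
  rcases hsum with h | h
  · omega
  · exact absurd h (pow_ne_zero _ (by norm_num))

/-- The form used in the proof: a join of level `j + 1` has `e` extra elements of total level `T`
(`e = 0`; `e = 1`, `j ≤ 2 T < 2 j`; `e = 2`, `j ≤ T ≤ 2 j - 2`) or it costs at least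
`(j + 1) ^ 2 + (2 j - 1)`.  Then it costs at least `(j + 1) ^ 2 + (2 j - 1)`. -/
theorem no_thin (H : Gr P r) (hj : 1 ≤ j) (hno : ∀ u : P, lev u ≤ j → ¬ Jn u)
    (hcl : ∀ u : P, Jn u → lev u = j + 1 → (j + 1) ^ 2 + (2 * j - 1) ≤ En 0 u ∨
      ∃ e T : ℕ, ua u = 2 * (j + 1) + e + 1 ∧ En 0 u = (j + 1) ^ 2 + T ∧
        ((e = 0 ∧ T = 0) ∨ (e = 1 ∧ j ≤ 2 * T ∧ T < j) ∨ (e = 2 ∧ j ≤ T ∧ T ≤ 2 * j - 2))) :
    ∀ u : P, Jn u → (j + 1) ^ 2 + (2 * j - 1) ≤ En 0 u := by
  refine window_zero H (j := j) ?_ hno ?_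
  · have : (j + 2) ^ 2 = (j + 1) ^ 2 + (2 * j + 3) := by ring
    omega
  · intro u u' hu hu' hl hl' hE hlt
    rcases hcl u hu hl with h | ⟨e, T, h1, h2, h3⟩
    · omega
    rcases hcl u' hu' hl' with h | ⟨e', T', h1', h2', h3'⟩
    · omega
    have hT : T = T' := by omega
    subst hT
    have he : e = e' := by omega
    rw [h1, h1', he]

end Pool.Agent.GaussPoset.Sev
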