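import Pool.Agent.W_448tw_h76.TwD

/-!
The twin lemma at the cost of the cheapest twin pairs: exact leading term.
-/

namespace Pool.Agent.GaussPoset

set_option linter.unusedSectionVars false

open Polynomial Finset

universe u

variable {P : Type u} [Fintype P] [PartialOrder P] [DecidableEq P]

open Classical in
/-- the cheapest excess function with two high labels at a twin pair -/
noncomputable def tez (i : ℕ) (θ : P → ℕ) (t : P × P) (y : P) : ℕ :=
  if y = t.1 then θ t.1 else if y = t.2 then θ t.1 + 1 else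
    if t.1 < y then min (θ t.1 + 1) (lev y - i) else 0

/-- cost of a twin pair -/
noncomputable def tcst (i : ℕ) (θ : P → ℕ) (t : P × P) : ℕ := ∑ y, tez i θ t y

open Classical in
/-- leading term of a twin pair -/
noncomputable def Tm (i : ℕ) (θ : P → ℕ) (t : P × P) : ℤ[X] :=
  ∑ F : Finset P, if Vd i (tez i θ t) F then (X : ℤ[X]) ^ F.card else 0

/-- a pair of twins -/
structure Twn (i : ℕ) (θ : P → ℕ) (t : P × P) : Prop where
  ne : t.1 ≠ t.2
  up : ∀ y, t.1 < y ↔ t.2 < y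
  one_le : 1 ≤ θ t.1
  eq : θ t.2 = θ t.1
  lt : θ t.1 + 1 ≤ lev t.1 - i
  mono : ∀ y, t.1 < y → θ y ≤ θ t.1 + 1

section Basic

variable {i : ℕ} {θ : P → ℕ} {t : P × P}

lemma tez_fst : tez i θ t t.1 = θ t.1 := by unfold tez; rw [if_pos rfl]

lemma tez_snd (h : t.1 ≠ t.2) : tez i θ t t.2 = θ t.1 + 1 := by
  unfold tez; rw [if_neg h.symm, if_pos rfl]

lemma tez_up {y : P} (H : Twn i θ t) (h : t.1 < y) :
    tez i θ t y = min (θ t.1 + 1) (lev y - i) := by
  unfold tez
  rw [if_neg h.ne', if_neg ((H.up y).mp h).ne', if_pos h]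

lemma tez_off {y : P} (h1 : y ≠ t.1) (h2 : y ≠ t.2) (h3 : ¬ t.1 < y) : tez i θ t y = 0 := by
  unfold tez; rw [if_neg h1, if_neg h2, if_neg h3]

/-- where the excess vanishes -/
lemma tez_eq_zero (H : Twn i θ t) {y : P} (hy : i < lev y) (h : tez i θ t y = 0) :
    ¬ t.1 ≤ y ∧ ¬ t.2 ≤ y := by
  have h1 : ¬ t.1 < y := by
    intro h1
    rw [tez_up H h1] at h
    omega
  have h2 : y ≠ t.1 := by
    rintro rfl
    rw [tez_fst] at h
    have := H.one_le
    omega
  have h3 : y ≠ t.2 := by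
    rintro rfl
    rw [tez_snd H.ne] at h
    omega
  exact ⟨fun h4 => h1 (lt_of_le_of_ne h4 h2.symm),
    fun h4 => h1 ((H.up y).mpr (lt_of_le_of_ne h4 h3.symm))⟩

lemma tez_zero_of {y : P} (h1 : ¬ t.1 ≤ y) (h2 : ¬ t.2 ≤ y) : tez i θ t y = 0 :=
  tez_off (fun h => h1 h.ge) (fun h => h2 h.ge) (fun h => h1 h.le)

/-- the excess is either zero or at least the threshold -/
lemma tez_ge (H : Twn i θ t) {y : P} (hle : θ y ≤ lev y - i) (h : tez i θ t y ≠ 0) :
    θ y ≤ tez i θ t y := by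
  by_cases h1 : y = t.1
  · subst h1; rw [tez_fst]
  · by_cases h2 : y = t.2
    · subst h2
      rw [tez_snd H.ne, H.eq]; omega
    · by_cases h3 : t.1 < y
      · rw [tez_up H h3]
        have := H.mono y h3
        omega
      · exact absurd (tez_off h1 h2 h3) h

/-- the cost of a twin pair -/
lemma tcst_eq (H : Twn i θ t) : tcst i θ t =
    ∑ y, (by classical exact if t.1 < y then min (θ t.1 + 1) (lev y - i) else 0) +
      (2 * θ t.1 + 1) := by
  classical
  have h1 : ∀ y, tez i θ t y = (if t.1 < y then min (θ t.1 + 1) (lev y - i) else 0) +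
      ((if y = t.1 then θ t.1 else 0) + (if y = t.2 then θ t.1 + 1 else 0)) := by
    intro y
    by_cases h3 : t.1 < y
    · rw [tez_up H h3, if_pos h3, if_neg h3.ne', if_neg ((H.up y).mp h3).ne', add_zero, add_zero]
    · rw [if_neg h3]
      by_cases h1 : y = t.1
      · subst h1
        rw [tez_fst, if_pos rfl, if_neg H.ne]
        omega
      · by_cases h2 : y = t.2
        · subst h2
          rw [tez_snd H.ne, if_neg h1, if_pos rfl]
          omega
        · rw [tez_off h1 h2 h3, if_neg h1, if_neg h2]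
  unfold tcst
  rw [Finset.sum_congr rfl (fun y _ => h1 y), Finset.sum_add_distrib, Finset.sum_add_distrib,
    Finset.sum_ite_eq' univ t.1, Finset.sum_ite_eq' univ t.2, if_pos (mem_univ _),
    if_pos (mem_univ _)]
  omega

/-- a pair of twins in the sense of the twin lemma -/
lemma Twn.pair (H : Twn i θ t) {n0 : ℕ} (hn : n0 ≤ tcst i θ t) : TwinPair i θ n0 t.1 t.2 where
  ne := H.ne
  up := H.up
  one_le := H.one_le
  eq := H.eq
  le := by have := H.lt; omega
  costT := by
    rw [← tcst_eq H]; exact hn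
  costF := by
    classical
    refine hn.trans ?_
    rw [tcst_eq H]
    have h1 : ∑ y, (if t.1 ≤ y then lev y - i else 0) =
        (lev t.1 - i) + ∑ y, (if t.1 < y then lev y - i else 0) := by
      rw [← Finset.add_sum_erase univ _ (mem_univ t.1), if_pos le_rfl,
        ← Finset.add_sum_erase univ (fun y => if t.1 < y then lev y - i else 0) (mem_univ t.1),
        if_neg (lt_irrefl _), zero_add]
      congr 1
      refine Finset.sum_congr rfl fun y hy => ?_
      have hne := (mem_erase.mp hy).1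
      by_cases h4 : t.1 < y
      · rw [if_pos h4, if_pos h4.le]
      · rw [if_neg h4, if_neg]
        intro h5
        exact h4 (lt_of_le_of_ne h5 (Ne.symm hne))
    have h2 : ∑ y, (if t.1 < y then min (θ t.1 + 1) (lev y - i) else 0) ≤
        ∑ y, (if t.1 < y then lev y - i else 0) := by
      refine Finset.sum_le_sum fun y _ => ?_
      split_ifs
      · exact min_le_right _ _
      · exact le_rfl
    have h3 := H.lt
    rw [h1]
    omega

end Basic

/-- Lemma A at `n0` for labels which are not all zero -/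
lemma dvd_ZB_shift_pos {i : ℕ} {D : Finset P} {g : P → ℕ} (β : P → ℕ)
    (hD : ∀ x y, x ≤ y → y ∈ D → x ∈ D) (hlev : ∀ x ∈ D, i < lev x)
    (hg : ∀ x, x ∉ D → g x = 0) (p : ℤ[X]) (n0 : ℕ)
    (h : ∀ n < n0, p ∣ ZB i D 0 (bg D g β) n) (hpos : g ≠ 0) :
    p ∣ ZB i D g β n0 := by
  have hs : ∑ x ∈ D, g x = ∑ x, g x :=
    Finset.sum_subset (subset_univ D) fun x _ hx => hg x hx
  have h1 : 1 ≤ ∑ x, g x := by
    by_contra hcon
    apply hpos
    funext x
    have h2 : g x ≤ ∑ y, g y := Finset.single_le_sum (fun y _ => Nat.zero_le _) (mem_univ x)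
    show g x = 0
    omega
  by_cases hc : ∀ x ∈ D, ∀ y ∈ D, x ≤ y → g x ≤ g y
  · by_cases hn : n0 < ∑ x ∈ D, g x
    · rw [ZB_zero_of_lt β n0 hn]; exact dvd_zero p
    · obtain ⟨m, hm⟩ : ∃ m, n0 = m + ∑ x, g x := ⟨n0 - ∑ x, g x, by omega⟩
      rw [hm, ZB_shift β hD hlev hg hc]
      exact h m (by omega)
  · rw [ZB_zero_of_not_compat β hlev hc]; exact dvd_zero p

section StepMod

variable {i : ℕ} {p : ℤ[X]} {n0 : ℕ} {D : Finset P} {β : P → ℕ} {x0 : P}

open Classical in
/-- raising a bound, modulo `p`, if all labels below `x0` which are not zero are clean -/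
lemma step_mod (hx0 : x0 ∉ D) (hlx : i < lev x0)
    (h : ∀ g', Gd D 0 β x0 g' → g' ≠ 0 → p ∣ ZB i (D ∪ dnf x0) g' β n0) :
    p ∣ ZB i D 0 β n0 - ZB i D 0 (Function.update β x0 (β x0 + 1)) n0 -
      (if β x0 = 0 ∧ ∀ y ≤ x0, y ∉ D → β y = 0 then ZB i (D ∪ dnf x0) 0 β n0 else 0) := by
  have key := ZB_step_eq (g := 0) β x0 hx0 hlx n0
  have h0 : (0 : P → ℕ) ∈ Fintype.piFinset (fun _ : P => range (n0 + 1)) := by
    rw [Fintype.mem_piFinset]
    intro x
    rw [mem_range]
    exact Nat.succ_pos _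
  have h1 : Gd D 0 β x0 0 ↔ β x0 = 0 ∧ ∀ y ≤ x0, y ∉ D → β y = 0 := by
    unfold Gd
    constructor
    · rintro ⟨-, h2, -, h4, -⟩
      exact ⟨h2.symm, fun y hy hyD => Nat.le_zero.mp (h4 y hy hyD)⟩
    · rintro ⟨h2, h3⟩
      refine ⟨fun _ _ => rfl, h2.symm, fun _ _ => Nat.zero_le _, fun y hy hyD => ?_, fun _ _ => rfl⟩
      rw [h3 y hy hyD]; exact Nat.zero_le _
  rw [← Finset.add_sum_erase _ _ h0] at key
  have h2 : (if Gd D 0 β x0 0 then ZB i (D ∪ dnf x0) 0 β n0 else 0) =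
      (if β x0 = 0 ∧ ∀ y ≤ x0, y ∉ D → β y = 0 then ZB i (D ∪ dnf x0) 0 β n0 else 0) := by
    by_cases hc : Gd D 0 β x0 0
    · rw [if_pos hc, if_pos (h1.mp hc)]
    · rw [if_neg hc, if_neg (fun h => hc (h1.mpr h))]
  rw [h2] at key
  rw [key]
  have h3 : ∀ a b c : ℤ[X], a + (b + c) - a - b = c := fun a b c => by ring
  rw [h3]
  refine Finset.dvd_sum fun g' hg' => ?_
  split_ifs with hG
  · exact h g' hG (ne_of_mem_erase hg')
  · exact dvd_zero p

end StepMod

section Sum

variable (i : ℕ) (θ : P → ℕ) (n0 : ℕ) (Tw : Finset (P × P))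

open Classical in
/-- the pairs which contribute -/
noncomputable def tws (D : Finset P) (β : P → ℕ) : Finset (P × P) :=
  Tw.filter (fun t => (t.1 ∉ D ∧ t.2 ∉ D) ∧ tcst i θ t = n0 ∧ ∀ y, y ∉ D → β y ≤ tez i θ t y)

/-- the sum of the leading terms of the pairs which contribute -/
noncomputable def tsum (D : Finset P) (β : P → ℕ) : ℤ[X] := ∑ t ∈ tws i θ n0 Tw D β, Tm i θ t

variable {i θ n0 Tw}

lemma mem_tws {D : Finset P} {β : P → ℕ} {t : P × P} : t ∈ tws i θ n0 Tw D β ↔
    t ∈ Tw ∧ (t.1 ∉ D ∧ t.2 ∉ D) ∧ tcst i θ t = n0 ∧ ∀ y, y ∉ D → β y ≤ tez i θ t y := by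
  classical
  unfold tws; rw [mem_filter]

lemma tws_congr {D : Finset P} {β β' : P → ℕ} (h : ∀ y, y ∉ D → β y = β' y) :
    tws i θ n0 Tw D β = tws i θ n0 Tw D β' := by
  ext t
  rw [mem_tws, mem_tws]
  refine and_congr_right fun _ => and_congr_right fun _ => and_congr_right fun _ =>
    forall_congr' fun y => ⟨fun h1 hy => ?_, fun h1 hy => ?_⟩
  · rw [← h y hy]; exact h1 hy
  · rw [h y hy]; exact h1 hy

open Classical in
/-- the recursion of the sum of the leading terms -/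
lemma tsum_step (hT : ∀ t ∈ Tw, Twn i θ t) {D : Finset P} {β : P → ℕ} {x0 : P} (hx0 : x0 ∉ D)
    (hlx : i < lev x0) (hle : θ x0 ≤ lev x0 - i)
    (hb : β x0 + 1 ≤ θ x0) : tsum i θ n0 Tw D β =
      tsum i θ n0 Tw D (Function.update β x0 (β x0 + 1)) +
      (if β x0 = 0 ∧ ∀ y ≤ x0, y ∉ D → β y = 0 then tsum i θ n0 Tw (D ∪ dnf x0) β else 0) := by
  have h1 : (tws i θ n0 Tw D β).filter (fun t => β x0 + 1 ≤ tez i θ t x0) =
      tws i θ n0 Tw D (Function.update β x0 (β x0 + 1)) := by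
    ext t
    rw [mem_filter, mem_tws, mem_tws]
    constructor
    · rintro ⟨⟨h1, h2, h3, h4⟩, h5⟩
      refine ⟨h1, h2, h3, fun y hy => ?_⟩
      by_cases hyx : y = x0
      · subst hyx; rw [Function.update_self]; exact h5
      · rw [Function.update_of_ne hyx]; exact h4 y hy
    · rintro ⟨h1, h2, h3, h4⟩
      have h5 := h4 x0 hx0
      rw [Function.update_self] at h5
      refine ⟨⟨h1, h2, h3, fun y hy => ?_⟩, h5⟩
      by_cases hyx : y = x0
      · subst hyx; omega
      · have := h4 y hy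
        rwa [Function.update_of_ne hyx] at this
  have h2 : ∑ t ∈ (tws i θ n0 Tw D β).filter (fun t => ¬ β x0 + 1 ≤ tez i θ t x0), Tm i θ t =
      (if β x0 = 0 ∧ ∀ y ≤ x0, y ∉ D → β y = 0 then tsum i θ n0 Tw (D ∪ dnf x0) β else 0) := by
    have hz : ∀ t ∈ (tws i θ n0 Tw D β).filter (fun t => ¬ β x0 + 1 ≤ tez i θ t x0),
        t ∈ Tw ∧ (t.1 ∉ D ∧ t.2 ∉ D) ∧ tcst i θ t = n0 ∧ (∀ y, y ∉ D → β y ≤ tez i θ t y) ∧
        tez i θ t x0 = 0 := by
      intro t ht
      rw [mem_filter, mem_tws] at ht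
      obtain ⟨⟨h1, h2, h3, h4⟩, h5⟩ := ht
      refine ⟨h1, h2, h3, h4, ?_⟩
      by_contra hne
      have := tez_ge (hT t h1) hle hne
      omega
    have hdn : ∀ t ∈ Tw, tez i θ t x0 = 0 → ∀ y ≤ x0, tez i θ t y = 0 := by
      intro t ht h y hy
      obtain ⟨h3, h4⟩ := tez_eq_zero (hT t ht) hlx h
      exact tez_zero_of (fun h5 => h3 (h5.trans hy)) (fun h5 => h4 (h5.trans hy))
    split_ifs with hc
    · unfold tsum
      refine Finset.sum_congr ?_ (fun _ _ => rfl)
      ext t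
      constructor
      · intro ht
        obtain ⟨h1, h2, h3, h4, h5⟩ := hz t ht
        obtain ⟨h6, h7⟩ := tez_eq_zero (hT t h1) hlx h5
        rw [mem_tws]
        refine ⟨h1, ⟨?_, ?_⟩, h3, fun y hy => ?_⟩
        · rw [mem_union, mem_dnf, not_or]; exact ⟨h2.1, h6⟩
        · rw [mem_union, mem_dnf, not_or]; exact ⟨h2.2, h7⟩
        · exact h4 y (fun h => hy (mem_union_left _ h))
      · intro ht
        rw [mem_tws] at ht
        obtain ⟨h1, ⟨h2, h2'⟩, h3, h4⟩ := ht
        rw [mem_union, mem_dnf, not_or] at h2 h2'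
        have h5 : tez i θ t x0 = 0 := tez_zero_of h2.2 h2'.2
        rw [mem_filter, mem_tws]
        refine ⟨⟨h1, ⟨h2.1, h2'.1⟩, h3, fun y hy => ?_⟩, by omega⟩
        by_cases hyx : y ≤ x0
        · rw [hc.2 y hyx hy]; exact Nat.zero_le _
        · refine h4 y ?_
          rw [mem_union, mem_dnf, not_or]
          exact ⟨hy, hyx⟩
    · rw [Finset.sum_eq_zero]
      intro t ht
      exfalso
      obtain ⟨h1, h2, h3, h4, h5⟩ := hz t ht
      refine hc ⟨?_, fun y hy hyD => ?_⟩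
      · have := h4 x0 hx0
        omega
      · have := h4 y hyD
        rw [hdn t h1 h5 y hy] at this
        omega
  rw [← h2]
  unfold tsum
  rw [← h1]
  exact (Finset.sum_filter_add_sum_filter_not _ _ _).symm

end Sum

end Pool.Agent.GaussPoset
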