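import Pool.Agent.W_448s7_h5.SevB

/-!
The twin step with exact leading term.
-/

namespace Pool.Agent.GaussPoset

set_option linter.unusedSectionVars false

open Polynomial Finset

universe u

variable {P : Type u} [Fintype P] [PartialOrder P] [DecidableEq P]

section Step

variable {i : ℕ} {p : ℤ[X]} {n0 : ℕ} {θ : P → ℕ} {x x' : P} {D : Finset P}

lemma tez_le_of (H : Twn i θ (x, x')) (hlx : i < lev x) (hx : x ∉ D) (hx' : x' ∉ D)
    {e : P → ℕ} {F : Finset P} (hC : Cst i D 0 (st2 x x' (θ x) (θ x + 1)) e F) (y : P) :
    tez i θ (x, x') y ≤ e y := by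
  have hll : lev x = lev x' := lev_eq_of_up H.up
  have hlt := H.lt
  have hne := H.ne
  simp only at hlt hne
  obtain ⟨hV, -, hβ⟩ := hC
  have h1 : θ x ≤ e x := by
    by_cases hxF : x ∈ F
    · have := sub_le_of_mem hV hxF
      omega
    · have h2 := hβ x hx hxF
      rw [rho_of_lt hlx] at h2
      unfold st2 at h2
      rw [if_pos rfl] at h2
      exact_mod_cast h2
  have h2 : θ x + 1 ≤ e x' := by
    by_cases hxF : x' ∈ F
    · have := sub_le_of_mem hV hxF
      omega
    · have h2 := hβ x' hx' hxF
      rw [rho_of_lt (by omega)] at h2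
      unfold st2 at h2
      rw [if_neg hne.symm, if_pos rfl] at h2
      exact_mod_cast h2
  by_cases hyx : y = x
  · subst hyx
    have := tez_fst (i := i) (θ := θ) (t := (y, x'))
    simp only at this
    rw [this]; exact h1
  · by_cases hyx' : y = x'
    · subst hyx'
      have := tez_snd (i := i) (θ := θ) (t := (x, y)) H.ne
      simp only at this
      rw [this]; exact h2
    · by_cases hxy : x < y
      · rw [tez_up H hxy]
        by_cases hyF : y ∈ F
        · exact (min_le_right _ _).trans (sub_le_of_mem hV hyF)
        · refine (min_le_left _ _).trans ?_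
          have hx'y := (H.up y).mp hxy
          simp only at hx'y
          have hx'F : x' ∉ F := fun h => hyF (hV.1 x' y hx'y.le h)
          have h3 := hV.2.2.1 x' y hx'y.le hx'F hyF
          rw [rho_of_lt (by omega)] at h3
          have h4 := rho_le i e y
          simp only
          omega
      · rw [tez_off hyx hyx' hxy]; exact Nat.zero_le _

open Classical in
/-- the sum over all configurations with two high labels, at the least energy -/
lemma ZB_st2_exact (H : Twn i θ (x, x')) (hlx : i < lev x) (hDl : ∀ d ∈ D, i < lev d)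
    (hx : x ∉ D) (hx' : x' ∉ D) (hup : ∀ y, x < y → y ∉ D) (hn : n0 ≤ tcst i θ (x, x')) :
    ZB i D 0 (st2 x x' (θ x) (θ x + 1)) n0 =
      if tcst i θ (x, x') = n0 then Tm i θ (x, x') else 0 := by
  have hll : lev x = lev x' := lev_eq_of_up H.up
  have heq : ∀ e F, e ∈ (univ : Finset P).piAntidiag n0 →
      Cst i D 0 (st2 x x' (θ x) (θ x + 1)) e F → tcst i θ (x, x') = n0 ∧ e = tez i θ (x, x') := by
    intro e F he hC
    rw [mem_piAntidiag] at he
    have h1 := tez_le_of H hlx hx hx' hC
    have h2 : tcst i θ (x, x') ≤ ∑ y, e y := Finset.sum_le_sum fun y _ => h1 y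
    have h3 : ∑ y, e y = n0 := he.1
    have h4 : tcst i θ (x, x') = n0 := by omega
    refine ⟨h4, ?_⟩
    funext y
    have h5 : ∑ y, tez i θ (x, x') y = ∑ y, e y := by rw [h3]; exact h4
    exact ((Finset.sum_eq_sum_iff_of_le (fun y _ => h1 y)).mp h5 y (mem_univ y)).symm
  unfold ZB Tm
  by_cases hc : tcst i θ (x, x') = n0
  · rw [if_pos hc]
    refine Finset.sum_congr rfl fun F _ => ?_
    by_cases hV : Vd i (tez i θ (x, x')) F
    · rw [if_pos hV]
      have h1 : ((univ : Finset P).piAntidiag n0).filter
          (fun e => Cst i D 0 (st2 x x' (θ x) (θ x + 1)) e F) = {tez i θ (x, x')} := by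
        ext e
        rw [mem_filter, mem_singleton]
        constructor
        · rintro ⟨h1, h2⟩
          exact (heq e F h1 h2).2
        · rintro rfl
          refine ⟨?_, hV, ?_, ?_⟩
          · rw [mem_piAntidiag]
            exact ⟨hc, fun _ _ => mem_univ _⟩
          · intro d hd
            have h2 : tez i θ (x, x') d = 0 :=
              tez_off (fun h => hx (by have h' : d = x := h; rw [← h']; exact hd))
                (fun h => hx' (by have h' : d = x' := h; rw [← h']; exact hd)) (fun h => hup d h hd)
            refine ⟨fun hF => ?_, h2⟩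
            have h3 := sub_le_of_mem hV hF
            have h4 := hDl d hd
            omega
          · intro y hy hyF
            by_cases hyx : y = x
            · subst hyx
              rw [rho_of_lt hlx]
              have := tez_fst (i := i) (θ := θ) (t := (y, x'))
              simp only at this
              rw [this]
              unfold st2
              rw [if_pos rfl]
            · by_cases hyx' : y = x'
              · subst hyx'
                rw [rho_of_lt (by omega)]
                have := tez_snd (i := i) (θ := θ) (t := (x, y)) H.ne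
                simp only at this
                rw [this]
                unfold st2
                rw [if_neg hyx, if_pos rfl]
              · unfold st2
                rw [if_neg hyx, if_neg hyx']
                simpa using hV.2.1 y hyF
      rw [h1, Finset.sum_singleton]
    · rw [if_neg hV, Finset.sum_eq_zero]
      intro e he
      exfalso
      rw [mem_filter] at he
      have h1 := (heq e F he.1 he.2).2
      exact hV (h1 ▸ he.2.1)
  · rw [if_neg hc]
    refine Finset.sum_eq_zero fun F _ => ?_
    rw [Finset.sum_eq_zero]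
    intro e he
    exfalso
    rw [mem_filter] at he
    exact hc (heq e F he.1 he.2).1

open Classical in
/-- the twin step, exact -/
theorem twin_step_exact (H : Twn i θ (x, x')) (hlx : i < lev x) (hDl : ∀ d ∈ D, i < lev d)
    (hDlow : ∀ a c, a ≤ c → c ∈ D → a ∈ D) (hx : x ∉ D) (hx' : x' ∉ D)
    (hmin : ∀ y < x', y ∈ D)
    (hlow : ∀ E : Finset P, E = D ∪ dnf x ∨ E = D ∪ dnf x' → ∀ a c, a ≤ c → c ∈ E → a ∈ E)
    (hlev : ∀ E : Finset P, E = D ∪ dnf x ∨ E = D ∪ dnf x' → ∀ a ∈ E, i < lev a)
    (hc2 : ∀ y ≤ x, y ∉ D → ∀ w, y ⋖ w → ¬ w ≤ x → θ x ≤ θ w + 1)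
    (hBC : ∀ E : Finset P, E = D ∪ dnf x ∨ E = D ∪ dnf x' →
      ∀ β : P → ℕ, (∀ y, y ∉ E → β y ≤ θ y) → ∀ n < n0, p ∣ ZB i E 0 β n)
    (hn : n0 ≤ tcst i θ (x, x')) :
    p ∣ ZB i D 0 0 n0 - ((if tcst i θ (x, x') = n0 then Tm i θ (x, x') else 0) +
      ZB i (D ∪ dnf x) 0 (st2 x x' 0 1) n0 + ZB i (D ∪ dnf x') 0 0 n0) := by
  have hll : lev x = lev x' := lev_eq_of_up H.up
  have hlx' : i < lev x' := by omega
  have hne := H.ne
  have hθ := H.one_le
  have heq := H.eq
  simp only at hne hθ heq
  have hs1 : ∀ a b, st2 x x' a b x = a := fun a b => by unfold st2; rw [if_pos rfl]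
  have hs2 : ∀ a b, st2 x x' a b x' = b := fun a b => by
    unfold st2; rw [if_neg hne.symm, if_pos rfl]
  have hs3 : ∀ a b y, y ≠ x → y ≠ x' → st2 x x' a b y = 0 := fun a b y h1 h2 => by
    unfold st2; rw [if_neg h1, if_neg h2]
  have hxx' : ¬ x ≤ x' := fun h => hx (hmin x (lt_of_le_of_ne h hne))
  have hx'x : ¬ x' ≤ x := fun h => by
    have h1 : x' < x := lt_of_le_of_ne h hne.symm
    exact lt_irrefl x ((H.up x).mpr h1)
  have stepA : ∀ k ≤ θ x, p ∣ ZB i D 0 (st2 x x' k k) n0 - ZB i D 0 (st2 x x' k (k + 1)) n0 -
      (if k = 0 then ZB i (D ∪ dnf x') 0 0 n0 else 0) := by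
    intro k hk
    have h1 := step_mod (i := i) (p := p) (n0 := n0) (β := st2 x x' k k) hx' hlx' (by
      intro g' hG hg0
      obtain ⟨g1, g2, g3, g4, g5⟩ := hG
      rw [hs2] at g2 g3
      have hE : D ∪ dnf x' = D ∪ dnf x ∨ D ∪ dnf x' = D ∪ dnf x' := Or.inr rfl
      refine dvd_ZB_shift_pos _ (hlow _ hE) (hlev _ hE) g5 p n0 (fun n hn => ?_) hg0
      rw [ZB_redundant (β := st2 x x' k 0)]
      · refine hBC _ hE _ ?_ n hn
        intro y hy
        rw [mem_union, mem_dnf, not_or] at hy
        by_cases hyx : y = x
        · subst hyx; rw [hs1]; exact hk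
        · rw [hs3 k 0 y hyx (fun h => hy.2 h.le)]
          exact Nat.zero_le _
      · intro y hy
        rw [mem_union, mem_dnf, not_or] at hy
        refine le_trans ?_ (le_bg _ _ _ y)
        by_cases hyx : y = x
        · subst hyx; rw [hs1, hs1]
        · rw [hs3 k 0 y hyx (fun h => hy.2 h.le)]
          exact Nat.zero_le _
      · intro y hy
        rw [mem_union, mem_dnf, not_or] at hy
        have hdall : ∀ d ∈ D ∪ dnf x', d ∈ D ∨ d = x' := by
          intro d hd
          rw [mem_union, mem_dnf] at hd
          rcases hd with hd | hd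
          · exact Or.inl hd
          · rcases eq_or_lt_of_le hd with h1 | h1
            · exact Or.inr h1
            · exact Or.inl (hmin d h1)
        by_cases hxy : x < y
        · right
          refine ⟨x, hxy.le, ?_, ?_⟩
          · rw [mem_union, mem_dnf]
            rintro (h1 | h1)
            · exact hx h1
            · exact hxx' h1
          · rw [hs1]
            refine bg_le ?_ ?_
            · rw [hs3 k k y hxy.ne' (fun h => hy.2 h.le)]
              exact Nat.zero_le _
            · intro d hd _
              rcases hdall d hd with h1 | h1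
              · rw [g1 d h1]; exact Nat.zero_le _
              · rw [h1, g2]
        · left
          refine bg_le ?_ ?_
          · by_cases hyx : y = x
            · subst hyx; rw [hs1, hs1]
            · rw [hs3 k k y hyx (fun h => hy.2 h.le)]
              exact Nat.zero_le _
          · intro d hd hdy
            rcases hdall d hd with h1 | h1
            · rw [g1 d h1]; exact Nat.zero_le _
            · exfalso
              rw [h1] at hdy
              exact hxy ((H.up y).mpr hdy.1))
    rw [hs2, st2_update_right hne] at h1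
    by_cases hk0 : k = 0
    · subst hk0
      rw [if_pos rfl]
      have hcond : (0 : ℕ) = 0 ∧ ∀ y ≤ x', y ∉ D → st2 x x' 0 0 y = 0 :=
        ⟨rfl, fun y _ _ => by unfold st2; split_ifs <;> rfl⟩
      rw [if_pos hcond] at h1
      have h2 : ZB i (D ∪ dnf x') 0 (st2 x x' 0 0) n0 = ZB i (D ∪ dnf x') 0 0 n0 := by
        refine ZB_congr (fun _ _ => rfl) (fun y _ => ?_) n0
        unfold st2
        split_ifs <;> rfl
      rw [h2] at h1
      exact h1
    · rw [if_neg hk0]
      rw [if_neg (fun h => hk0 h.1)] at h1
      exact h1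
  have stepB : ∀ k, k + 1 ≤ θ x → p ∣ ZB i D 0 (st2 x x' k (k + 1)) n0 -
      ZB i D 0 (st2 x x' (k + 1) (k + 1)) n0 -
      (if k = 0 then ZB i (D ∪ dnf x) 0 (st2 x x' 0 1) n0 else 0) := by
    intro k hk
    have h1 := step_mod (i := i) (p := p) (n0 := n0) (β := st2 x x' k (k + 1)) hx hlx (by
      intro g' hG hg0
      obtain ⟨g1, g2, g3, g4, g5⟩ := hG
      rw [hs1] at g2 g3
      have hE : D ∪ dnf x = D ∪ dnf x ∨ D ∪ dnf x = D ∪ dnf x' := Or.inl rfl
      refine dvd_ZB_shift_pos _ (hlow _ hE) (hlev _ hE) g5 p n0 (fun n hn => ?_) hg0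
      refine hBC _ hE _ ?_ n hn
      intro y hy
      rw [mem_union, mem_dnf, not_or] at hy
      have hyx : y ≠ x := fun h => hy.2 h.le
      by_cases hyx' : y = x'
      · subst hyx'
        refine bg_le ?_ ?_
        · rw [hs2, heq]; exact hk
        · intro d hd hdy
          have hdD := hmin d hdy.1
          rw [g1 d hdD]; exact Nat.zero_le _
      · refine bg_le ?_ ?_
        · rw [hs3 _ _ y hyx hyx']; exact Nat.zero_le _
        · intro d hd hdy
          by_cases hdD : d ∈ D
          · rw [g1 d hdD]; exact Nat.zero_le _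
          · have hdx : d ≤ x := by
              rcases mem_union.mp hd with h1 | h1
              · exact absurd h1 hdD
              · exact mem_dnf.mp h1
            have h1 := g3 d hdx
            have h2 := hc2 d hdx hdD y hdy hy.2
            omega)
    rw [hs1, st2_update_left] at h1
    by_cases hk0 : k = 0
    · subst hk0
      rw [if_pos rfl]
      have hcond : (0 : ℕ) = 0 ∧ ∀ y ≤ x, y ∉ D → st2 x x' 0 (0 + 1) y = 0 := by
        refine ⟨rfl, fun y hy _ => ?_⟩
        by_cases hyx : y = x
        · rw [hyx, hs1]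
        · exact hs3 _ _ y hyx (fun h => hx'x (h ▸ hy))
      rw [if_pos hcond] at h1
      exact h1
    · rw [if_neg hk0]
      rw [if_neg (fun h => hk0 h.1)] at h1
      exact h1
  have hup : ∀ y, x < y → y ∉ D := fun y hy hyD => hx (hDlow x y hy.le hyD)
  have hfin := ZB_st2_exact H hlx hDl hx hx' hup hn
  have main : ∀ s k, 1 ≤ k → k + s = θ x → p ∣ ZB i D 0 (st2 x x' k k) n0 -
      (if tcst i θ (x, x') = n0 then Tm i θ (x, x') else 0) := by
    intro s
    induction s with
    | zero =>
      intro k hk hks
      have h1 := stepA k (by omega)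
      have hk' : k = θ x := by omega
      rw [if_neg (by omega), hk', hfin, sub_zero] at h1
      rw [hk']
      exact h1
    | succ s ih =>
      intro k hk hks
      have h1 := stepA k (by omega)
      have h2 := stepB k (by omega)
      rw [if_neg (by omega), sub_zero] at h1 h2
      have h3 := ih (k + 1) (by omega) (by omega)
      have h4 := dvd_add (dvd_add h1 h2) h3
      refine h4.trans (dvd_of_eq ?_)
      ring
  have h1 := stepA 0 (Nat.zero_le _)
  have h2 := stepB 0 (by omega)
  have h3 := main (θ x - 1) 1 le_rfl (by omega)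
  rw [if_pos rfl] at h1 h2
  have h0 : ZB i D 0 (st2 x x' 0 0) n0 = ZB i D 0 0 n0 := by
    refine ZB_congr (fun _ _ => rfl) (fun y _ => ?_) n0
    unfold st2
    split_ifs <;> rfl
  rw [h0, zero_add] at h1
  rw [zero_add] at h2
  have h4 := dvd_add (dvd_add h1 h2) h3
  refine h4.trans (dvd_of_eq ?_)
  ring

end Step

end Pool.Agent.GaussPoset
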