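import Pool.Agent.W_448s7_h5.SevC

/-!
The twin lemma with exact leading term at the cost of the cheapest pairs.
-/

namespace Pool.Agent.GaussPoset

set_option linter.unusedSectionVars false

open Polynomial Finset

universe u

variable {P : Type u} [Fintype P] [PartialOrder P] [DecidableEq P]

open Classical in
/-- the sum over the pairs, at an unbroken pair -/
lemma tsum_twin {i : ℕ} {θ : P → ℕ} {n0 : ℕ} {Tw : Finset (P × P)} {D : Finset P} {x x' : P}
    (hT : ∀ t ∈ Tw, Twn i θ t) (ht : (x, x') ∈ Tw) (hanti : (x', x) ∉ Tw)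
    (hx : x ∉ D) (hx' : x' ∉ D) (hmin : ∀ y < x', y ∈ D) :
    tsum i θ n0 Tw D 0 = (if tcst i θ (x, x') = n0 then Tm i θ (x, x') else 0) +
      tsum i θ n0 Tw (D ∪ dnf x) (st2 x x' 0 1) + tsum i θ n0 Tw (D ∪ dnf x') 0 := by
  have H := hT _ ht
  have hne := H.ne
  simp only at hne
  have hll : lev x = lev x' := lev_eq_of_up H.up
  have hxx' : ¬ x ≤ x' := fun h => hx (hmin x (lt_of_le_of_ne h hne))
  have hx'x : ¬ x' ≤ x := fun h => by
    have h1 : x' < x := lt_of_le_of_ne h hne.symm
    exact lt_irrefl x ((H.up x).mpr h1)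
  have hsame : ∀ y, lev y = lev x → y ≤ x → y = x := by
    intro y hy hyx
    by_contra h
    have := lev_strictAnti (lt_of_le_of_ne hyx h)
    omega
  have h1 : (tws i θ n0 Tw D 0).filter (fun t => ¬ (t.1 = x' ∨ t.2 = x')) =
      tws i θ n0 Tw (D ∪ dnf x') 0 := by
    ext t
    rw [mem_filter, mem_tws, mem_tws]
    constructor
    · rintro ⟨⟨h1, h2, h3, -⟩, h5⟩
      push Not at h5
      refine ⟨h1, ⟨?_, ?_⟩, h3, fun _ _ => Nat.zero_le _⟩
      · rw [mem_union, mem_dnf, not_or]
        exact ⟨h2.1, fun h => h2.1 (hmin _ (lt_of_le_of_ne h h5.1))⟩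
      · rw [mem_union, mem_dnf, not_or]
        exact ⟨h2.2, fun h => h2.2 (hmin _ (lt_of_le_of_ne h h5.2))⟩
    · rintro ⟨h1, ⟨h2, h2'⟩, h3, -⟩
      rw [mem_union, mem_dnf, not_or] at h2 h2'
      refine ⟨⟨h1, ⟨h2.1, h2'.1⟩, h3, fun _ _ => Nat.zero_le _⟩, ?_⟩
      rintro (h | h)
      · exact h2.2 h.le
      · exact h2'.2 h.le
  have hnot : (x, x') ∉ tws i θ n0 Tw (D ∪ dnf x) (st2 x x' 0 1) := by
    rw [mem_tws]
    rintro ⟨-, ⟨h, -⟩, -⟩
    exact h (mem_union_right _ (mem_dnf.mpr le_rfl))
  have h2 : (tws i θ n0 Tw D 0).filter (fun t => t.1 = x' ∨ t.2 = x') =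
      (if tcst i θ (x, x') = n0 then {(x, x')} else ∅) ∪
        tws i θ n0 Tw (D ∪ dnf x) (st2 x x' 0 1) := by
    ext t
    rw [mem_filter, mem_tws, mem_union, mem_tws]
    constructor
    · rintro ⟨⟨h1, h2, h3, -⟩, h5⟩
      by_cases h6 : t = (x, x')
      · left
        rw [if_pos (by rw [← h6]; exact h3), mem_singleton]
        exact h6
      · right
        have Ht := hT t h1
        have hl : lev t.1 = lev t.2 := lev_eq_of_up Ht.up
        have hn1 : ¬ t.1 ≤ x := by
          intro h
          rcases h5 with h5 | h5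
          · rw [h5] at h; exact hx'x h
          · have := hsame t.1 (by rw [hl, h5]; exact hll.symm) h
            exact h6 (Prod.ext this h5)
        have hn2 : ¬ t.2 ≤ x := by
          intro h
          rcases h5 with h5 | h5
          · have h7 := hsame t.2 (by rw [← hl, h5]; exact hll.symm) h
            apply hanti
            have : t = (x', x) := Prod.ext h5 h7
            rw [← this]; exact h1
          · rw [h5] at h; exact hx'x h
        refine ⟨h1, ⟨?_, ?_⟩, h3, fun y _ => ?_⟩
        · rw [mem_union, mem_dnf, not_or]; exact ⟨h2.1, hn1⟩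
        · rw [mem_union, mem_dnf, not_or]; exact ⟨h2.2, hn2⟩
        · unfold st2
          split_ifs with h8 h9
          · exact Nat.zero_le _
          · have h10 := Ht.one_le
            rcases h5 with h5 | h5
            · rw [h9, ← h5, tez_fst]; exact h10
            · rw [h9, ← h5, tez_snd Ht.ne]; omega
          · exact Nat.zero_le _
    · intro h
      rcases h with h | ⟨h1, ⟨h2, h2'⟩, h3, h4⟩
      · split_ifs at h with hc
        · rw [mem_singleton] at h
          rw [h]
          exact ⟨⟨ht, ⟨hx, hx'⟩, hc, fun _ _ => Nat.zero_le _⟩, Or.inr rfl⟩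
        · exact absurd h (Finset.notMem_empty _)
      · rw [mem_union, mem_dnf, not_or] at h2 h2'
        refine ⟨⟨h1, ⟨h2.1, h2'.1⟩, h3, fun _ _ => Nat.zero_le _⟩, ?_⟩
        by_contra hcon
        push Not at hcon
        have h5 := h4 x' (by
          rw [mem_union, mem_dnf, not_or]
          exact ⟨hx', hx'x⟩)
        unfold st2 at h5
        rw [if_neg hne.symm, if_pos rfl] at h5
        rw [tez_off hcon.1.symm hcon.2.symm (fun h => h2.1 (hmin _ h))] at h5
        omega
  have h3 : ∑ t ∈ (tws i θ n0 Tw D 0).filter (fun t => t.1 = x' ∨ t.2 = x'), Tm i θ t =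
      (if tcst i θ (x, x') = n0 then Tm i θ (x, x') else 0) +
      ∑ t ∈ tws i θ n0 Tw (D ∪ dnf x) (st2 x x' 0 1), Tm i θ t := by
    rw [h2, Finset.sum_union]
    · congr 1
      split_ifs with hc
      · rw [Finset.sum_singleton]
      · rw [Finset.sum_empty]
    · split_ifs with hc
      · rw [Finset.disjoint_singleton_left]; exact hnot
      · exact Finset.disjoint_empty_left _
  unfold tsum
  rw [← h3, ← h1]
  exact (Finset.sum_filter_add_sum_filter_not _ _ _).symm

/-- the twin lemma, exact form -/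
theorem dvd_ZB_exact (i : ℕ) (p : ℤ[X]) (n0 : ℕ) (DD : Set (Finset P)) (θ : P → ℕ)
    (Tw : Finset (P × P))
    (hlow : ∀ D ∈ DD, ∀ x y, x ≤ y → y ∈ D → x ∈ D) (hlev : ∀ D ∈ DD, ∀ x ∈ D, i < lev x)
    (hθ : ∀ x, 1 ≤ θ x → i < lev x) (hle : ∀ x, θ x ≤ lev x - i)
    (c0 : ∀ D ∈ DD, (∀ t ∈ Tw, t.1 ∈ D ∨ t.2 ∈ D) → ∀ n, p ∣ ZB i D 0 0 n)
    (c1 : ∀ D ∈ DD, ∀ x, x ∉ D → 1 ≤ θ x → D ∪ dnf x ∈ DD)
    (c2 : ∀ D ∈ DD, ∀ x, x ∉ D → 1 ≤ θ x → ∀ y ≤ x, y ∉ D → ∀ x', y ⋖ x' → ¬ x' ≤ x →
      θ x ≤ θ x' + 1)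
    (hT : ∀ t ∈ Tw, Twn i θ t) (hanti : ∀ x x', (x, x') ∈ Tw → (x', x) ∉ Tw)
    (hcost : ∀ t ∈ Tw, n0 ≤ tcst i θ t)
    (hmin : ∀ t ∈ Tw, ∀ D ∈ DD, ∀ y < t.2, y ∈ D) :
    ∀ D ∈ DD, ∀ β : P → ℕ, (∀ x, x ∉ D → β x ≤ θ x) →
      p ∣ ZB i D 0 β n0 - tsum i θ n0 Tw D β := by
  classical
  have hlt := dvd_ZB_bounds_twins i p n0 DD θ Tw hlow hlev hθ (fun D hD hb n _ => c0 D hD hb n)
    c1 c2 (fun t ht => (hT t ht).pair (hcost t ht)) hmin
  have outer : ∀ N : ℕ, ∀ D ∈ DD, (Dᶜ).card = N → ∀ β : P → ℕ, (∀ x, x ∉ D → β x ≤ θ x) →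
      p ∣ ZB i D 0 β n0 - tsum i θ n0 Tw D β := by
    intro N
    induction N using Nat.strong_induction_on with
    | _ N ihN =>
    intro D hDD hN
    have hsmall : ∀ x, x ∉ D → 1 ≤ θ x → ∀ β : P → ℕ, (∀ y, y ∉ D ∪ dnf x → β y ≤ θ y) →
        p ∣ ZB i (D ∪ dnf x) 0 β n0 - tsum i θ n0 Tw (D ∪ dnf x) β := by
      intro x hx hθx β hβ
      refine ihN _ ?_ _ (c1 D hDD x hx hθx) rfl β hβ
      rw [← hN]
      apply Finset.card_lt_card
      rw [Finset.compl_ssubset_compl]
      rw [Finset.ssubset_iff_of_subset subset_union_left]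
      exact ⟨x, mem_union_right _ (mem_dnf.mpr le_rfl), hx⟩
    have base : p ∣ ZB i D 0 0 n0 - tsum i θ n0 Tw D 0 := by
      by_cases hall : ∀ t ∈ Tw, t.1 ∈ D ∨ t.2 ∈ D
      · have h1 : tsum i θ n0 Tw D 0 = 0 := by
          unfold tsum
          rw [Finset.sum_eq_zero]
          intro t ht
          exfalso
          rw [mem_tws] at ht
          rcases hall t ht.1 with h | h
          · exact ht.2.1.1 h
          · exact ht.2.1.2 h
        rw [h1, sub_zero]
        exact c0 D hDD hall n0
      · push Not at hall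
        obtain ⟨⟨x, x'⟩, ht, hx, hx'⟩ := hall
        have H := hT _ ht
        have hθx := H.one_le
        have heq := H.eq
        simp only at hθx heq hx hx'
        have hθx' : 1 ≤ θ x' := by omega
        have hDx := c1 D hDD x hx hθx
        have hDx' := c1 D hDD x' hx' hθx'
        have hin : ∀ E : Finset P, E = D ∪ dnf x ∨ E = D ∪ dnf x' → E ∈ DD := by
          rintro E (rfl | rfl)
          · exact hDx
          · exact hDx'
        have hm : ∀ y < x', y ∈ D := hmin _ ht D hDD
        have h1 := twin_step_exact (p := p) (n0 := n0) H (hθ x hθx) (hlev D hDD) (hlow D hDD) hx hx'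
          hm (fun E hE => hlow E (hin E hE)) (fun E hE => hlev E (hin E hE))
          (c2 D hDD x hx hθx) (fun E hE => hlt E (hin E hE)) (hcost _ ht)
        have hx'x : ¬ x' ≤ x := fun h => by
          have h1 : x' < x := lt_of_le_of_ne h (fun h => H.ne h.symm)
          exact lt_irrefl x ((H.up x).mpr h1)
        have h2 := hsmall x hx hθx (st2 x x' 0 1) (by
          intro y hy
          unfold st2
          split_ifs with h8 h9
          · exact Nat.zero_le _
          · rw [h9]; exact hθx'
          · exact Nat.zero_le _)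
        have h3 := hsmall x' hx' hθx' 0 (fun _ _ => Nat.zero_le _)
        rw [tsum_twin hT ht (hanti _ _ ht) hx hx' hm]
        have h4 := dvd_add (dvd_add h1 h2) h3
        refine h4.trans (dvd_of_eq ?_)
        ring
    have inner : ∀ s : ℕ, ∀ β : P → ℕ, (∑ x ∈ Dᶜ, β x = s) → (∀ x, x ∉ D → β x ≤ θ x) →
        p ∣ ZB i D 0 β n0 - tsum i θ n0 Tw D β := by
      intro s
      induction s with
      | zero =>
        intro β hβ _
        have h0 : ∀ x, x ∉ D → β x = 0 := by
          intro x hx
          rw [Finset.sum_eq_zero_iff] at hβ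
          exact hβ x (by simpa using hx)
        rw [ZB_congr (g' := 0) (β' := 0) (fun _ _ => rfl) (fun x hx => by simpa using h0 x hx)]
        have h1 : tsum i θ n0 Tw D β = tsum i θ n0 Tw D 0 := by
          unfold tsum
          rw [tws_congr (β' := 0) (fun x hx => by simpa using h0 x hx)]
        rw [h1]
        exact base
      | succ s ihs =>
        intro β hβ hbd
        obtain ⟨x0, hx0, hx0b⟩ : ∃ x0, x0 ∉ D ∧ 1 ≤ β x0 := by
          by_contra hcon
          push Not at hcon
          have : ∑ x ∈ Dᶜ, β x = 0 := Finset.sum_eq_zero fun x hx => by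
            have := hcon x (by simpa using hx)
            omega
          omega
        let β' : P → ℕ := Function.update β x0 (β x0 - 1)
        have hβ'x : β' x0 = β x0 - 1 := Function.update_self _ _ _
        have hβ'n : ∀ x, x ≠ x0 → β' x = β x := fun x hx => Function.update_of_ne hx _ _
        have hββ : β = Function.update β' x0 (β' x0 + 1) := by
          funext x
          by_cases hx : x = x0
          · subst hx
            rw [Function.update_self, hβ'x]; omega
          · rw [Function.update_of_ne hx, hβ'n x hx]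
        have hle' : ∀ x, β' x ≤ β x := by
          intro x
          by_cases hx : x = x0
          · subst hx; rw [hβ'x]; omega
          · rw [hβ'n x hx]
        have hθx0 : 1 ≤ θ x0 := hx0b.trans (hbd x0 hx0)
        have hsum : ∑ x ∈ Dᶜ, β' x = s := by
          have h1 : ∑ x ∈ Dᶜ, β x = ∑ x ∈ Dᶜ, β' x + 1 := by
            rw [← Finset.add_sum_erase Dᶜ β (by simpa using hx0 : x0 ∈ Dᶜ),
              ← Finset.add_sum_erase Dᶜ β' (by simpa using hx0 : x0 ∈ Dᶜ), hβ'x]
            have h2 : ∑ x ∈ Dᶜ.erase x0, β x = ∑ x ∈ Dᶜ.erase x0, β' x :=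
              Finset.sum_congr rfl fun x hx => (hβ'n x (ne_of_mem_erase hx)).symm
            omega
          omega
        have hD' := c1 D hDD x0 hx0 hθx0
        have hbx := hbd x0 hx0
        have h1 := step_mod (p := p) (n0 := n0) (β := β') hx0 (hθ x0 hθx0) (by
          intro g' hG hg0
          obtain ⟨g1, g2, g3, g4, g5⟩ := hG
          refine dvd_ZB_shift_pos β' (hlow _ hD') (hlev _ hD') g5 p n0 (fun n hn => ?_) hg0
          refine hlt _ hD' _ ?_ n hn
          intro x hx
          rw [mem_union, mem_dnf, not_or] at hx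
          refine bg_le ((hle' x).trans (hbd x hx.1)) ?_
          intro y hy hyx
          by_cases hyD : y ∈ D
          · rw [g1 y hyD]; exact Nat.zero_le _
          · have hyx0 : y ≤ x0 := by
              rcases mem_union.mp hy with h | h
              · exact absurd h hyD
              · exact mem_dnf.mp h
            have h1 := g3 y hyx0
            rw [hβ'x] at h1
            have h2 := c2 D hDD x0 hx0 hθx0 y hyx0 hyD x hyx hx.2
            omega)
        have h2 := tsum_step (n0 := n0) hT (D := D) (β := β') hx0 (hθ x0 hθx0) (hle x0)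
          (by omega)
        have h3 := ihs β' hsum (fun x hx => (hle' x).trans (hbd x hx))
        rw [← hββ] at h1 h2
        rw [h2] at h3
        by_cases hc : β' x0 = 0 ∧ ∀ y ≤ x0, y ∉ D → β' y = 0
        · rw [if_pos hc] at h1 h3
          have h4 := hsmall x0 hx0 hθx0 β' (fun y hy => by
            rw [mem_union, not_or] at hy
            exact (hle' y).trans (hbd y hy.1))
          have h5 := dvd_sub (dvd_sub h3 h1) h4
          refine h5.trans (dvd_of_eq ?_)
          ring
        · rw [if_neg hc, sub_zero] at h1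
          rw [if_neg hc, add_zero] at h3
          have h5 := dvd_sub h3 h1
          refine h5.trans (dvd_of_eq ?_)
          ring
    intro β hbd
    exact inner _ β rfl hbd
  intro D hDD β hbd
  exact outer _ D hDD rfl β hbd

end Pool.Agent.GaussPoset
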