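import Pool.Agent.W_448s7_h5.SevD

/-!
The leading term of the far window theorem with twins; the term of a twin pair.
-/

namespace Pool.Agent.GaussPoset

set_option linter.unusedSectionVars false

open Polynomial Finset

universe u

variable {P : Type u} [Fintype P] [PartialOrder P] [DecidableEq P]
variable {ι : Type*}

section Term

variable {i : ℕ} {θ : P → ℕ} {t : P × P}

lemma rho_tez_up (H : Twn i θ t) (hδ : θ t.1 + 1 = lev t.1 - i) {y : P} (h : t.1 < y) :
    rho i (tez i θ t) y = (lev y : ℤ) - i := by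
  have h1 := lev_strictAnti h
  unfold rho
  rw [tez_up H h]
  have h2 : min (θ t.1 + 1) (lev y - i) = lev y - i := Nat.min_eq_right (by omega)
  rw [h2]
  omega

lemma rho_tez_snd (H : Twn i θ t) (hδ : θ t.1 + 1 = lev t.1 - i) :
    rho i (tez i θ t) t.2 = (lev t.2 : ℤ) - i := by
  have hl : lev t.1 = lev t.2 := lev_eq_of_up H.up
  have h1 := H.one_le
  unfold rho
  rw [tez_snd H.ne]
  omega

lemma rho_tez_fst (H : Twn i θ t) (hδ : θ t.1 + 1 = lev t.1 - i) :
    rho i (tez i θ t) t.1 = (lev t.1 : ℤ) - i - 1 := by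
  have h1 := H.one_le
  unfold rho
  rw [tez_fst]
  omega

lemma rho_tez_off {y : P} (h1 : y ≠ t.1) (h2 : y ≠ t.2) (h3 : ¬ t.1 < y) :
    rho i (tez i θ t) y = -((i - lev y : ℕ) : ℤ) := by
  unfold rho
  rw [tez_off h1 h2 h3]
  simp

lemma FI_tez (H : Twn i θ t) (hδ : θ t.1 + 1 = lev t.1 - i) (y : P) :
    FI i (tez i θ t) y ↔ lev y < i ∨ (t.2 ≤ y ∧ lev y < lev t.2) := by
  have hl : lev t.1 = lev t.2 := lev_eq_of_up H.up
  have hθ := H.one_le
  have hnl : ¬ t.1 < t.2 := fun h => by have := lev_strictAnti h; omega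
  have hbd : ∀ w, rho i (tez i θ t) w ≤ (lev w : ℤ) - i ∨ rho i (tez i θ t) w ≤ 0 := by
    intro w
    by_cases h3 : t.1 < w
    · left; rw [rho_tez_up H hδ h3]
    · by_cases h1 : w = t.1
      · left; rw [h1, rho_tez_fst H hδ]; omega
      · by_cases h2 : w = t.2
        · left; rw [h2, rho_tez_snd H hδ]
        · right; rw [rho_tez_off h1 h2 h3]; omega
  unfold FI
  constructor
  · rintro (h | ⟨w, hw, h⟩)
    · left
      by_cases h3 : t.1 < y
      · rw [rho_tez_up H hδ h3] at h; omega
      · by_cases h1 : y = t.1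
        · rw [h1, rho_tez_fst H hδ] at h; omega
        · by_cases h2 : y = t.2
          · rw [h2, rho_tez_snd H hδ] at h; omega
          · rw [rho_tez_off h1 h2 h3] at h; omega
    · have hlw := lev_strictAnti hw
      by_cases h3 : t.1 < y
      · right
        have h4 := (H.up y).mp h3
        exact ⟨h4.le, lev_strictAnti h4⟩
      · left
        have hw1 : w ≠ t.1 := fun h5 => h3 (h5 ▸ hw)
        have hw2 : w ≠ t.2 := fun h5 => h3 ((H.up y).mpr (h5 ▸ hw))
        have hw3 : ¬ t.1 < w := fun h5 => h3 (h5.trans hw)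
        rw [rho_tez_off hw1 hw2 hw3] at h
        by_cases h1 : y = t.1
        · rw [h1, rho_tez_fst H hδ] at h; omega
        · by_cases h2 : y = t.2
          · rw [h2, rho_tez_snd H hδ] at h; omega
          · rw [rho_tez_off h1 h2 h3] at h; omega
  · rintro (h | ⟨h, h4⟩)
    · left
      by_cases h3 : t.1 < y
      · rw [rho_tez_up H hδ h3]; omega
      · have h1 : y ≠ t.1 := by rintro rfl; omega
        have h2 : y ≠ t.2 := by rintro rfl; omega
        rw [rho_tez_off h1 h2 h3]; omega
    · right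
      have hne : t.2 ≠ y := by rintro rfl; omega
      have hlt := lt_of_le_of_ne h hne
      refine ⟨t.2, hlt, ?_⟩
      rw [rho_tez_snd H hδ, rho_tez_up H hδ ((H.up y).mpr hlt)]
      omega

lemma FA_tez (H : Twn i θ t) (hδ : θ t.1 + 1 = lev t.1 - i) (y : P) :
    FA i (tez i θ t) y ↔ i < lev y ∧ ¬ t.2 ≤ y := by
  have hl : lev t.1 = lev t.2 := lev_eq_of_up H.up
  have hθ := H.one_le
  have hnl : ¬ t.1 < t.2 := fun h => by have := lev_strictAnti h; omega
  unfold FA
  constructor
  · rintro ⟨w, hw, h⟩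
    have hlw := lev_strictAnti hw
    by_cases h3 : t.1 < y
    · rw [rho_tez_up H hδ h3, rho_tez_up H hδ (h3.trans hw)] at h
      omega
    · by_cases h2 : y = t.2
      · have h4 : t.1 < w := (H.up w).mpr (h2 ▸ hw)
        rw [h2, rho_tez_snd H hδ, rho_tez_up H hδ h4] at h
        rw [h2] at hlw
        omega
      · refine ⟨?_, fun h4 => h3 ((H.up y).mpr (lt_of_le_of_ne h4 (Ne.symm h2)))⟩
        by_cases h1 : y = t.1
        · rw [h1]; omega
        · by_contra hcon
          rw [rho_tez_off h1 h2 h3] at h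
          by_cases h5 : t.1 < w
          · rw [rho_tez_up H hδ h5] at h; omega
          · have h6 : w ≠ t.1 := by rintro rfl; omega
            have h7 : w ≠ t.2 := by rintro rfl; omega
            rw [rho_tez_off h6 h7 h5] at h; omega
  · rintro ⟨h1, h2⟩
    have h3 : ¬ t.1 < y := fun h => h2 ((H.up y).mp h).le
    have h2' : y ≠ t.2 := fun h => h2 h.ge
    by_cases h4 : y = t.1
    · obtain ⟨w0, hw0, -⟩ := exists_lev_succ (x := y) (k := lev y - 1) (by omega)
      obtain ⟨w, hw1, hw2⟩ := exists_above' (x := y) (j := lev y - 1) (by omega)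
      have hne : y ≠ w := by rintro rfl; omega
      have hlt := lt_of_le_of_ne hw1 hne
      refine ⟨w, hlt, ?_⟩
      have h5 := rho_tez_up H hδ (h4 ▸ hlt)
      rw [h5]
      rw [h4, rho_tez_fst H hδ]
      rw [h4] at hw2
      omega
    · obtain ⟨w, hw1, hw2⟩ := exists_above' (x := y) (j := i) h1.le
      have hne : y ≠ w := by rintro rfl; omega
      have hlt := lt_of_le_of_ne hw1 hne
      refine ⟨w, hlt, ?_⟩
      rw [rho_tez_off h4 h2' h3]
      by_cases h5 : t.1 < w
      · rw [rho_tez_up H hδ h5]; omega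
      · have h6 : w ≠ t.1 := by rintro rfl; omega
        have h7 : w ≠ t.2 := by rintro rfl; omega
        rw [rho_tez_off h6 h7 h5]; omega

/-- a twin pair whose threshold is one less than the full label contributes as if the second
element had the full label -/
theorem Tm_eq (hgr : GradedBelow P) (H : Twn i θ t) (hδ : θ t.1 + 1 = lev t.1 - i) :
    Tm i θ t = Lt i (fun _ => lev t.2 - i) t.2 := by
  classical
  have hl : lev t.1 = lev t.2 := lev_eq_of_up H.up
  have hθ := H.one_le
  have h1 : ∀ F : Finset P, Vd i (tez i θ t) F ↔ Vd i (ez i (fun _ => lev t.2 - i) t.2) F := by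
    intro F
    rw [vd_iff, vd_iff]
    have h2 : ∀ y, FI i (tez i θ t) y ↔ FI i (ez i (fun _ => lev t.2 - i) t.2) y := by
      intro y
      rw [FI_tez H hδ, FI_ez hgr le_rfl (by omega)]
      rw [show i + (lev t.2 - i) = lev t.2 by omega]
    have h3 : ∀ y, FA i (tez i θ t) y ↔ FA i (ez i (fun _ => lev t.2 - i) t.2) y := by
      intro y
      rw [FA_tez H hδ, FA_ez]
      rw [show i + (lev t.2 - i) = lev t.2 by omega]
      constructor
      · exact fun h => Or.inl h
      · rintro (h | ⟨h4, h5⟩)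
        · exact h
        · exfalso
          rcases eq_or_lt_of_le h4 with h6 | h6
          · rw [h6] at h5; omega
          · have := lev_strictAnti h6; omega
    simp only [h2, h3]
  unfold Tm
  rw [Finset.sum_congr rfl (g := fun F => if Vd i (ez i (fun _ => lev t.2 - i) t.2) F then
    (X : ℤ[X]) ^ F.card else 0) (fun F _ => by simp only [h1 F]), sum_vd]
  have h2 := lead_eq (h := fun _ => lev t.2 - i) (z := t.2) hgr (by omega) le_rfl
  exact h2

end Term

section Lead

/-- far data with twins at the energy `n0` -/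
structure FarX (P : Type u) [Fintype P] [PartialOrder P] [DecidableEq P] (i : ℕ)
    (R : Finset P) (b : ℕ) (h θ : P → ℕ) (Tw : Finset (P × P)) (n0 : ℕ) : Prop where
  graded : GradedBelow P
  hlev : ∀ x ∈ R, i < lev x
  clean : ∀ g : P → ℕ, (∀ x, x ∉ R → g x = 0) → (∀ z ∈ bdR R, g z < h z) → g ≠ 0 →
    (1 + X : ℤ[X]) ^ b ∣ ZB i R g 0 n0
  zero : (1 + X : ℤ[X]) ^ b ∣ ZB i R 0 0 n0 -
    ∑ t ∈ Tw.filter (fun t => tcst i θ t = n0), Tm i θ t
  one_le : ∀ z ∈ bdR R, 1 ≤ h z
  le_lev : ∀ z ∈ bdR R, h z ≤ lev z - i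

lemma RB_or_zero {i : ℕ} {R : Finset P} {bad : (P → ℕ) → Prop} (hb : ¬ bad 0) (n : ℕ) :
    RB i R (fun g => bad g ∨ g = 0) n = RB i R bad n + ZB i R 0 0 n := by
  classical
  unfold RB ZB
  rw [← Finset.sum_add_distrib]
  refine Finset.sum_congr rfl fun F _ => ?_
  rw [← Finset.sum_union]
  · refine Finset.sum_congr ?_ (fun _ _ => rfl)
    ext e
    simp only [mem_union, mem_filter]
    constructor
    · rintro ⟨h1, hV, h2⟩
      by_cases h3 : (∃ x ∈ R, x ∈ F) ∨ bad (lbl R e)
      · exact Or.inl ⟨h1, hV, h3⟩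
      · push Not at h3
        right
        refine ⟨h1, hV, fun x hx => ⟨h3.1 x hx, ?_⟩, fun x _ hxF => ?_⟩
        · rcases h2 with ⟨y, hy, hyF⟩ | h2 | h2
          · exact absurd hyF (h3.1 y hy)
          · exact absurd h2 h3.2
          · have := congrFun h2 x
            rw [lbl_of hx] at this
            exact this
        · simpa using hV.2.1 x hxF
    · rintro (⟨h1, hV, h2⟩ | ⟨h1, hV, h2, -⟩)
      · refine ⟨h1, hV, ?_⟩
        rcases h2 with h2 | h2
        · exact Or.inl h2
        · exact Or.inr (Or.inl h2)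
      · refine ⟨h1, hV, Or.inr (Or.inr ?_)⟩
        funext x
        by_cases hx : x ∈ R
        · rw [lbl_of hx, (h2 x hx).2]
        · rw [lbl_off hx]; rfl
  · rw [Finset.disjoint_left]
    intro e h1 h2
    simp only [mem_filter] at h1 h2
    obtain ⟨-, -, h1⟩ := h1
    obtain ⟨-, hV, h2, -⟩ := h2
    rcases h1 with ⟨x, hx, hxF⟩ | h1
    · exact (h2 x hx).1 hxF
    · apply hb
      have h3 : lbl R e = 0 := by
        funext x
        by_cases hx : x ∈ R
        · rw [lbl_of hx, (h2 x hx).2]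
        · rw [lbl_off hx]; rfl
      rwa [h3] at h1

/-- the far window theorem with twins: exact leading term -/
theorem FarX.lead {i : ℕ} {R : Finset P} {b : ℕ} {h θ : P → ℕ} {Tw : Finset (P × P)} {n0 : ℕ}
    (H : FarX P i R b h θ Tw n0) (hn : ∀ z ∈ bdR R, n0 ≤ cst i h z) :
    (1 + X : ℤ[X]) ^ b ∣ Z P i n0 -
      (∑ z ∈ (bdR R).filter (fun z => cst i h z = n0), Lt i h z +
        ∑ t ∈ Tw.filter (fun t => tcst i θ t = n0), Tm i θ t) := by
  classical
  have hb : ¬ (fun g : P → ℕ => ∃ z ∈ bdR R, h z ≤ g z) 0 := by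
    rintro ⟨z, hz, h1⟩
    have := H.one_le z hz
    have h2 : h z ≤ 0 := h1
    omega
  have h1 := dvd_Z_sub_RB (i := i) (R := R)
    (fun g => (fun g : P → ℕ => ∃ z ∈ bdR R, h z ≤ g z) g ∨ g = 0) ((1 + X : ℤ[X]) ^ b) n0 (by
      intro g hg0 hg
      simp only [not_or] at hg
      refine H.clean g hg0 (fun z hz => ?_) hg.2
      by_contra hcon
      exact hg.1 ⟨z, hz, not_lt.mp hcon⟩)
  rw [RB_or_zero hb] at h1
  have hev := RB_eval (i := i) (R := R) (bad := fun g => ∃ z ∈ bdR R, h z ≤ g z) (n := n0) h ∅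
    (bdR R) (fun z hz => absurd hz (Finset.notMem_empty z))
    (fun z hz => ⟨H.one_le z hz, H.le_lev z hz⟩)
    (fun z hz => absurd hz (Finset.notMem_empty z))
    (fun z hz _ => ⟨z, hz, by rw [lbl_of (mem_filter.mp hz).1, ez_self (H.le_lev z hz)]⟩) (by
      intro e F hV hs hb
      have hd : ∃ z ∈ bdR R, Dgz h e F z := by
        by_contra hcon
        push Not at hcon
        have h2 := not_mem_of_not_dg H.hlev hV hcon
        rcases hb with ⟨x, hx, hxF⟩ | ⟨z, hz, hz2⟩
        · exact h2 x hx hxF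
        · refine hcon z hz (Or.inr ?_)
          rwa [lbl_of (mem_filter.mp hz).1] at hz2
      obtain ⟨z, hz, hd⟩ := hd
      right
      refine ⟨z, hz, ?_⟩
      have h4 : ∀ x, ez i h z x ≤ e x := ez_le hV (H.hlev z (mem_filter.mp hz).1) hd
      have h6 : cst i h z ≤ n0 := by
        rw [← hs]; exact Finset.sum_le_sum fun x _ => h4 x
      have h7 : cst i h z = n0 := le_antisymm h6 (hn z hz)
      funext x
      have h9 : ∑ x, ez i h z x = ∑ x, e x := by
        rw [hs]; exact h7
      exact ((Finset.sum_eq_sum_iff_of_le (fun x _ => h4 x)).mp h9 x (mem_univ x)).symm)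
    (fun z hz => absurd hz (Finset.notMem_empty z)) (fun z hz => absurd hz (Finset.notMem_empty z))
  have h6 : ∑ z ∈ (bdR R).filter (fun z => cst i h z = n0), Lt i h z =
      ∑ z ∈ (bdR R).filter (fun z => cst i h z = n0),
      (if Adm i (ez i h z) then
      (X : ℤ[X]) ^ (nf i (ez i h z)) * (1 + X) ^ (Pk i (ez i h z)).card else 0) := by
    refine Finset.sum_congr rfl fun z hz => ?_
    rw [mem_filter] at hz
    exact (lead_eq H.graded (H.one_le z hz.1) (H.le_lev z hz.1)).symm
  rw [hev, Finset.sum_empty, zero_add] at h1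
  rw [h6]
  have h7 := dvd_add h1 H.zero
  refine h7.trans (dvd_of_eq ?_)
  ring

end Lead

end Pool.Agent.GaussPoset
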