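import Pool.Agent.W_448s7_h5.SevZb
import Pool.Agent.W_448wd_h84.WdE
import Pool.Agent.W_448cp_h96.CC

/-!
# The late components for S7, `j ≥ 17`: widths and single-up ends (MP_448cb3_co)
-/

namespace Pool.Agent.GaussPoset

set_option linter.unusedSectionVars false

open Finset Wd

universe u

variable {P : Type u} [Fintype P] [PartialOrder P] [DecidableEq P] {r j w : ℕ}

/-- number of elements above `e (k + d) s` on level `k` -/
theorem nab_e {t : P} {lo hi : ℕ → ℕ} {e : ℕ → ℕ → P} (H : Gr P r)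
    (hg : ∀ l, l < j → Win.Good P l) (C : Cp.Comp j t lo hi e) (ht : lev t = 0) {k d s : ℕ}
    (hk : k + d ≤ j) (h1 : lo (k + d) ≤ s) (h2 : s ≤ hi (k + d)) :
    nab k (e (k + d) s) = min (hi k) s + 1 - max (lo k) (s - d) := by
  classical
  have hl := C.lev_e (k + d) s hk h1 h2
  have hle := C.le_t (k + d) s hk h1 h2
  unfold nab
  have : (lv P k).filter (e (k + d) s ≤ ·) =
      (Finset.Icc (max (lo k) (s - d)) (min (hi k) s)).image (e k) := by
    ext y
    rw [mem_filter, mem_lv, mem_image]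
    constructor
    · rintro ⟨hy, hy2⟩
      obtain ⟨s', a1, a2, a3⟩ := C.surj y (Cp.up_le H hg ht hle (by omega) hy2) (by omega)
      rw [hy] at a1 a2 a3
      rw [← a3] at hy2
      have := (C.le_iff H hg ht a1 a2 hk h1 h2).mp hy2
      exact ⟨s', by rw [mem_Icc]; omega, a3⟩
    · rintro ⟨s', hs, rfl⟩
      rw [mem_Icc] at hs
      have a1 : lo k ≤ s' := by omega
      have a2 : s' ≤ hi k := by omega
      exact ⟨C.lev_e k s' (by omega) a1 a2, (C.le_iff H hg ht a1 a2 hk h1 h2).mpr (by omega)⟩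
  rw [this, Finset.card_image_of_injOn, Nat.card_Icc]
  intro a ha b hb hab
  rw [Finset.mem_coe, mem_Icc] at ha hb
  exact C.inj k a b (by omega) (by omega) (by omega) (by omega) (by omega) hab

/-- extra elements above `e j s` on the level `a + n` -/
def fW (w : List Ltr) (s n : ℕ) : ℕ :=
  min (Hw w (n + 3)) s - max (Lw w (n + 3)) (s - (w.length - n))

def eM (w : List Ltr) (s : ℕ) : ℕ := ∑ n ∈ range w.length, fW w s n

def eC (w : List Ltr) (s : ℕ) : ℕ := ∑ n ∈ range w.length, fW w s n * (w.length - n)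

/-- the list of the ends -/
def okE (a d : ℕ) : Prop :=
  (a = 0 ∧ d = 0) ∨ (a = 1 ∧ 1 ≤ d ∧ d ≤ 7) ∨ (a = 3 ∧ d = 9) ∨ (a = 5 ∧ d = 20) ∨ (a = 5 ∧ d = 25)

instance (a d : ℕ) : Decidable (okE a d) := by unfold okE; infer_instance

instance (w : List Ltr) (s n : ℕ) : Decidable (s = Lw w n ∨ s = Hw w n + 1) := by infer_instance

lemma chkW : ∀ w ∈ lateW 9, (∀ n, n < w.length → Hw w (n + 3) - Lw w (n + 3) ≤ pool (w.length - n)) ∧
    ∀ s, s < 9 → Lw w (w.length + 3) ≤ s → s ≤ Hw w (w.length + 3) →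
      (w.length = 0 ∨ s = Lw w (w.length + 2) ∨ s = Hw w (w.length + 2) + 1) →
        okE (eM w s) (eC w s) := by
  decide +kernel

lemma chkH : ∀ w ∈ lateW 9, Hw w (w.length + 3) < 9 := by
  decide +kernel

lemma chkA : ∀ a, a < 9 → 3 ≤ a → ∀ w ∈ lateW a, a + w.length ≤ 16 := by
  decide +kernel

lemma lateW_big {a : ℕ} (h : 9 ≤ a) : lateW a = lateW 9 := by
  unfold lateW
  rw [if_neg (by omega : ¬ a = 3), if_neg (by omega : ¬ a = 4), if_pos (by omega : 5 ≤ a),
    if_neg (by omega : ¬ a = 5), if_pos (by omega : 6 ≤ a), if_neg (by omega : ¬ a = 6),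
    if_pos (by omega : 7 ≤ a)]
  rfl

section

variable {lo hi : ℕ → ℕ} {a : ℕ}

lemma lo_word (hs : ∀ k, k < j → lo (k + 1) = lo k ∨ lo (k + 1) = lo k + 1) (h0 : lo a = 0) {d : ℕ}
    (hd : a + d ≤ j) : ∀ n, n ≤ d → Lw (word lo hi a d) (n + 3) = lo (a + n) := by
  intro n hn
  unfold Lw
  rw [show n + 3 - 3 = n by omega, word_take hn]
  induction n with
  | zero => simpa [word] using h0.symm
  | succ m ih =>
    rw [word_succ, List.countP_append, ih (by omega)]
    rcases hs (a + m) (by omega) with e3 | e3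
    · simp [e3, ← Nat.add_assoc]
    · simp [e3, ← Nat.add_assoc]

lemma hi_word (hs : ∀ k, k < j → hi (k + 1) = hi k ∨ hi (k + 1) = hi k + 1) (h0 : hi a = 1) {d : ℕ}
    (hd : a + d ≤ j) : ∀ n, n ≤ d → Hw (word lo hi a d) (n + 3) = hi (a + n) := by
  intro n hn
  unfold Hw
  rw [if_neg (by omega), show n + 3 - 3 = n by omega, word_take hn]
  induction n with
  | zero => simpa [word] using h0.symm
  | succ m ih =>
    rw [word_succ, List.countP_append, ← Nat.add_assoc, ih (by omega)]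
    rcases hs (a + m) (by omega) with e3 | e3
    · simp [e3, ← Nat.add_assoc]
    · simp [e3, ← Nat.add_assoc]

lemma Qw_take {d n : ℕ} : (Qw d).take (n + 1) = CC :: List.replicate (min n (d - 1)) OC := by
  unfold Qw
  rw [List.take_succ_cons, List.take_replicate]

lemma Lw_Qw {d n : ℕ} : Lw (Qw d) (n + 1 + 3) = 1 := by
  unfold Lw
  rw [show n + 1 + 3 - 3 = n + 1 by omega, Qw_take, List.countP_cons, List.countP_replicate]
  simp [OC, CC]

lemma Hw_Qw {d n : ℕ} : Hw (Qw d) (n + 1 + 3) = 1 := by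
  unfold Hw
  rw [if_neg (by omega), show n + 1 + 3 - 3 = n + 1 by omega, Qw_take, List.countP_cons,
    List.countP_replicate]
  simp [OC, CC]

end

end Pool.Agent.GaussPoset
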