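import Pool.Agent.W_448s7_h5.SevEn

/-!
# S7 for `j ≥ 17` from the shapes of the components (MP_448cb3_co)
-/

namespace Pool.Agent.GaussPoset

set_option linter.unusedSectionVars false

open Finset Wd

universe u

variable {P : Type u} [Fintype P] [PartialOrder P] [DecidableEq P] {r j w : ℕ}

section

variable {t : Tops P} {lo hi : ℕ → ℕ} {e : ℕ → ℕ → P} {a : ℕ}

lemma nab_one_le {t : Tops P} {lo hi : ℕ → ℕ} {e : ℕ → ℕ → P} (C : Cp.Comp j (t : P) lo hi e)
    {x : P} (hx : x ∈ onlyB t) {k : ℕ} (hk : k ≤ j) (hkx : k ≤ lev x) (h : lo k = hi k) :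
    nab k x = 1 := nab_one_of_eq C hx hk hkx h

/-- the sums over the levels of a late component -/
lemma mX_word (H : Gr P r) (hg : ∀ l, l < j → Win.Good P l) (C : Cp.Comp j (t : P) lo hi e)
    (haj : a ≤ j) (h2 : ∀ k, k < a → lo k = 0 ∧ hi k = 0) (h3 : lo a = 0 ∧ hi a = 1) {s : ℕ}
    (hs1 : lo j ≤ s) (hs2 : s ≤ hi j) (hx : e j s ∈ onlyB t) :
    mX j (e j s) = eM (word lo hi a (j - a)) s ∧ cX j (e j s) = eC (word lo hi a (j - a)) s := by
  have ht : lev (t : P) = 0 := t.2
  have hl := C.lev_e j s le_rfl hs1 hs2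
  obtain ⟨d, rfl⟩ : ∃ d, j = a + d := ⟨j - a, by omega⟩
  rw [Nat.add_sub_cancel_left]
  have hL := lo_word (a := a) (d := d) C.lo_step h3.1 (hi := hi) le_rfl
  have hH := hi_word (a := a) (d := d) C.hi_step h3.2 (lo := lo) le_rfl
  have hone : ∀ k, k < a → (nab k (e (a + d) s) : ℤ) - 1 = 0 := by
    intro k hk
    have h := h2 k hk
    rw [nab_one_le C hx (by omega) (by omega) (by rw [h.1, h.2])]
    norm_num
  have hfw : ∀ n, n < d → (nab (a + n) (e (a + d) s) : ℤ) - 1 = fW (word lo hi a d) s n := by
    intro n hn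
    have h1 : nab (a + n) (e (a + d) s) = min (hi (a + n)) s + 1 - max (lo (a + n)) (s - (d - n)) := by
      have := nab_e H hg C ht (k := a + n) (d := d - n) (s := s) (by omega)
        (by rw [show a + n + (d - n) = a + d by omega]; exact hs1)
        (by rw [show a + n + (d - n) = a + d by omega]; exact hs2)
      rw [show a + n + (d - n) = a + d by omega] at this
      exact this
    have h2 := one_le_nab (l := a + n) (z := e (a + d) s) (by omega)
    unfold fW
    rw [hL n hn.le, hH n hn.le, word_length]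
    omega
  constructor
  · unfold mX eM
    rw [Finset.sum_range_add, Finset.sum_eq_zero fun k hk => hone k (mem_range.mp hk), zero_add,
      word_length, Nat.cast_sum]
    exact Finset.sum_congr rfl fun n hn => hfw n (mem_range.mp hn)
  · unfold cX eC
    rw [Finset.sum_range_add, Finset.sum_eq_zero fun k hk => by
      rw [hone k (mem_range.mp hk), zero_mul], zero_add, word_length, Nat.cast_sum]
    refine Finset.sum_congr rfl fun n hn => ?_
    rw [hfw n (mem_range.mp hn), Nat.cast_mul]
    rw [mem_range] at hn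
    congr 1
    omega

/-- the position of a single-up element -/
lemma single_pos (C : Cp.Comp (j + 1) (t : P) lo hi e) {s : ℕ}
    (hs1 : lo (j + 1) ≤ s) (hs2 : s ≤ hi (j + 1)) (h1 : (Win.uc (e (j + 1) s)).card = 1) :
    s = lo j ∨ s = hi j + 1 := by
  classical
  by_contra hcon
  push Not at hcon
  have e1 := C.lo_step j (by omega)
  have e2 := C.hi_step j (by omega)
  have e3 := C.lo_le j (by omega)
  have a1 : lo j ≤ s := by omega
  have a2 : s ≤ hi j := by omega
  have c1 := (C.cov j s s (by omega) hs1 hs2 a1 a2).mpr (Or.inl rfl)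
  have c2 := (C.cov j s (s - 1) (by omega) hs1 hs2 (by omega) (by omega)).mpr (by omega)
  rw [Finset.card_eq_one] at h1
  obtain ⟨y, hy⟩ := h1
  have d1 : e j s ∈ Win.uc (e (j + 1) s) := Win.mem_uc.mpr c1
  have d2 : e j (s - 1) ∈ Win.uc (e (j + 1) s) := Win.mem_uc.mpr c2
  rw [hy, mem_singleton] at d1 d2
  have := C.inj j s (s - 1) (by omega) a1 a2 (by omega) (by omega) (d1.trans d2.symm)
  omega

/-- an element of level `j` of a component is private -/
lemma only_of_le (H : Gr P r) (hg : ∀ l, l < j → Win.Good P l) {x : P} (hx : x ≤ (t : P))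
    (hl : lev x ≤ j) : x ∈ onlyB t := by
  rw [mem_onlyB]
  intro s hs hxs
  exact Hul.top_unique (Cp.no_join H hg x hl) hs t.2 hxs hx

end

/-- a light or late component, `j ≥ 17` -/
theorem late_of_shape {t : Tops P} {lo hi : ℕ → ℕ} {e : ℕ → ℕ → P} (H : Gr P r)
    (hg : ∀ l, l < j → Win.Good P l) (hj : 17 ≤ j) (C : Cp.Comp j (t : P) lo hi e)
    (S : Shape j lo hi) (hE : ¬ (RectShape j lo hi ∨ StairShape j lo hi)) :
    (∀ k, k ≤ 8 → lo k = hi k) ∧ LateWd j lo hi ∧
      ∀ x : P, x ≤ (t : P) → lev x = j → (Win.uc x).card = 1 → Bal.NEnd2 j (mX j x) (cX j x) := by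
  rcases S with h | ⟨h1, h2⟩ | ⟨h0, h2⟩ | ⟨h0, _, _⟩ | ⟨h0, _⟩ | ⟨a, h0, h1, h2, h3, hN, h4⟩
  · refine ⟨fun k hk => by rw [(h k (by omega)).1, (h k (by omega)).2], Or.inl fun d hd1 hd2 => ?_,
      fun x hx hl h1 => Or.inl ?_⟩
    · have := h (j - d) (by omega)
      rw [this.1, this.2]
      exact Nat.zero_le _
    · have hxo := only_of_le H hg hx hl.le
      exact mX_zero fun k hk => nab_one_le C hxo hk (by omega) (by rw [(h k hk).1, (h k hk).2])
  · exact absurd (Or.inl h2) hE
  · exact absurd (Or.inr h2) hE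
  · omega
  · omega
  · obtain ⟨d, rfl⟩ : ∃ d, j = a + d := ⟨j - a, by omega⟩
    rw [Nat.add_sub_cancel_left] at h4
    have hL := lo_word (a := a) (d := d) C.lo_step h3.1 (hi := hi) le_rfl
    have hH := hi_word (a := a) (d := d) C.hi_step h3.2 (lo := lo) le_rfl
    have ha9 : 9 ≤ a := by
      rcases h4 with h4 | h4
      · omega
      · by_contra hcon
        have := chkA a (by omega) h0 _ h4
        rw [word_length] at this
        omega
    refine ⟨fun k hk => by rw [(h2 k (by omega)).1, (h2 k (by omega)).2], ?_, ?_⟩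
    · rcases h4 with ⟨⟨g1, g2⟩, g3⟩ | h4
      · right
        refine ⟨a, by omega, by omega, fun k hk => ?_⟩
        rcases Nat.lt_trichotomy k a with hka | hka | hka
        · rw [(h2 k hka).1, (h2 k hka).2]
          exact Nat.zero_le _
        · subst hka
          rw [h3.1, h3.2, if_pos rfl]
        · rw [if_neg (by omega)]
          obtain ⟨n, rfl⟩ : ∃ n, k = a + (n + 1) := ⟨k - a - 1, by omega⟩
          rw [← hL (n + 1) (by omega), ← hH (n + 1) (by omega), g3, Lw_Qw, Hw_Qw]
      · left
        rw [lateW_big ha9] at h4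
        intro m hm1 hm2
        rcases Nat.lt_or_ge (a + d - m) a with hlt | hge
        · rw [(h2 _ hlt).1, (h2 _ hlt).2]
          exact Nat.zero_le _
        · obtain ⟨n, hn⟩ : ∃ n, a + d - m = a + n := ⟨a + d - m - a, by omega⟩
          have h5 := (chkW _ h4).1 n (by rw [word_length]; omega)
          rw [hn, ← hL n (by omega), ← hH n (by omega)]
          rw [word_length, show d - n = m by omega] at h5
          exact h5
    · intro x hx hl hc
      have hxo := only_of_le H hg hx hl.le
      obtain ⟨s, s1, s2, s3⟩ := C.surj x hx hl.le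
      rw [hl] at s1 s2 s3
      subst s3
      obtain ⟨m1, m2⟩ := mX_word H hg C h1 h2 h3 s1 s2 hxo
      rw [Nat.add_sub_cancel_left] at m1 m2
      rcases h4 with ⟨⟨g1, g2⟩, g3⟩ | h4
      · -- a quadric
        right; left
        have hLd : lo (a + d) = 1 := by
          rw [← hL d le_rfl, g3, show d = d - 1 + 1 by omega, Lw_Qw]
        have hHd : hi (a + d) = 1 := by
          rw [← hH d le_rfl, g3, show d = d - 1 + 1 by omega, Hw_Qw]
        have hs : s = 1 := by omega
        subst hs
        have hf0 : fW (word lo hi a d) 1 0 = 1 := by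
          unfold fW
          rw [hL 0 (by omega), hH 0 (by omega), word_length, Nat.add_zero, h3.1, h3.2]
          omega
        have hfn : ∀ n, n ≠ 0 → n < d → fW (word lo hi a d) 1 n = 0 := by
          intro n hn0 hn
          unfold fW
          obtain ⟨n', rfl⟩ : ∃ n', n = n' + 1 := ⟨n - 1, by omega⟩
          rw [g3, Hw_Qw, Lw_Qw]
          omega
        have em : eM (word lo hi a d) 1 = 1 := by
          unfold eM
          rw [word_length, Finset.sum_eq_single_of_mem 0 (mem_range.mpr (by omega))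
            (fun n hn hn0 => hfn n hn0 (mem_range.mp hn)), hf0]
        have ec : eC (word lo hi a d) 1 = d := by
          unfold eC
          rw [word_length, Finset.sum_eq_single_of_mem 0 (mem_range.mpr (by omega))
            (fun n hn hn0 => by rw [hfn n hn0 (mem_range.mp hn), zero_mul]), hf0]
          omega
        rw [m1, m2, em, ec]
        refine ⟨by norm_num, by exact_mod_cast g1, Or.inr ?_⟩
        push_cast
        have : (d : ℤ) ≤ a := by exact_mod_cast g2
        linarith
      · rw [lateW_big ha9] at h4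
        have h9 := chkH _ h4
        have hcase : (word lo hi a d).length = 0 ∨ s = Lw (word lo hi a d) ((word lo hi a d).length + 2) ∨
            s = Hw (word lo hi a d) ((word lo hi a d).length + 2) + 1 := by
          rw [word_length]
          rcases Nat.eq_zero_or_pos d with hd0 | hd0
          · exact Or.inl hd0
          · right
            obtain ⟨d', rfl⟩ : ∃ d', d = d' + 1 := ⟨d - 1, by omega⟩
            rw [show d' + 1 + 2 = d' + 3 by omega, hL d' (by omega), hH d' (by omega)]
            exact single_pos (j := a + d') C s1 s2 hc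
        rw [word_length] at h9
        rw [hH d le_rfl] at h9
        have h5 := (chkW _ h4).2 s (by omega) (by rw [word_length, hL d le_rfl]; exact s1)
          (by rw [word_length, hH d le_rfl]; exact s2) hcase
        rw [m1, m2]
        rcases h5 with ⟨b1, b2⟩ | ⟨b1, b2, b3⟩ | ⟨b1, b2⟩ | ⟨b1, b2⟩ | ⟨b1, b2⟩
        · rw [b1, b2]; exact Or.inl ⟨rfl, rfl⟩
        · rw [b1]
          exact Or.inr (Or.inl ⟨rfl, by exact_mod_cast b2, Or.inl (by exact_mod_cast b3)⟩)
        · rw [b1, b2]; exact Or.inr (Or.inr (Or.inl ⟨rfl, rfl⟩))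
        · rw [b1, b2]; exact Or.inr (Or.inr (Or.inr (Or.inl ⟨rfl, rfl⟩)))
        · rw [b1, b2]; exact Or.inr (Or.inr (Or.inr (Or.inr ⟨rfl, rfl⟩)))

end Pool.Agent.GaussPoset
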