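import Pool.Agent.W_448s7_h5.SevF
import Pool.Agent.W_448rr_h67.RrG

/-!
# Full costs, maximal elements of the far set, minimality (MP_448cb3_co, S7)
-/

namespace Pool.Agent.GaussPoset

set_option linter.unusedSectionVars false

open Polynomial Finset

universe u

variable {P : Type u} [Fintype P] [PartialOrder P] [DecidableEq P] {r : ℕ}

/-- the full cost of an element at window `i`: the sum of the excesses above it -/
noncomputable def ful (i : ℕ) (z : P) : ℕ := ∑ k ∈ range (lev z + 1), (k - i) * nab k z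

lemma Sev_lev_le_of_le {z x : P} (h : z ≤ x) : lev x ≤ lev z := by
  rcases eq_or_lt_of_le h with h | h
  · rw [h]
  · exact (lev_strictAnti h).le

lemma cst_le_ful (i : ℕ) (h : P → ℕ) (z : P) : cst i h z ≤ ful i z := by
  rw [cst_eq]
  exact Finset.sum_le_sum fun k _ => Nat.mul_le_mul_right _ (min_le_right _ _)

lemma cst_eq_ful {i : ℕ} {h : P → ℕ} {z : P} (hh : lev z - i ≤ h z) : cst i h z = ful i z := by
  rw [cst_eq]
  refine Finset.sum_congr rfl fun k hk => ?_
  rw [mem_range] at hk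
  rw [Nat.min_eq_right (by omega)]

lemma ful_anti (i : ℕ) {z x : P} (h : z ≤ x) : ful i x ≤ ful i z := by
  have h1 := Sev_lev_le_of_le h
  unfold ful
  calc ∑ k ∈ range (lev x + 1), (k - i) * nab k x
      ≤ ∑ k ∈ range (lev x + 1), (k - i) * nab k z :=
        Finset.sum_le_sum fun k _ => Nat.mul_le_mul_left _ (nab_mono h)
    _ ≤ ∑ k ∈ range (lev z + 1), (k - i) * nab k z :=
        Finset.sum_le_sum_of_subset (Finset.range_mono (by omega))

/-- the full cost of `z` is at least the full cost of a cover plus the excess of `z` -/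
lemma ful_step {i : ℕ} {z x : P} (H : GradedBelow P) (h : z ⋖ x) :
    ful i x + (lev z - i) ≤ ful i z := by
  have h1 := H.lev_covBy h
  unfold ful
  rw [Finset.sum_range_succ _ (lev z), nab_self, mul_one, h1]
  refine Nat.add_le_add_right ?_ _
  exact Finset.sum_le_sum fun k _ => Nat.mul_le_mul_left _ (nab_mono h.1.le)

lemma cst_step {i : ℕ} {h : P → ℕ} {z x : P} (H : GradedBelow P) (hzx : z ⋖ x)
    (hh : lev z - i ≤ h z + 1) : ful i x + min (h z) (lev z - i) ≤ cst i h z := by
  have h1 := H.lev_covBy hzx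
  rw [cst_eq, Finset.sum_range_succ _ (lev z), nab_self, mul_one]
  refine Nat.add_le_add_right ?_ _
  unfold ful
  rw [h1]
  refine Finset.sum_le_sum fun k hk => ?_
  rw [mem_range] at hk
  rw [Nat.min_eq_right (by omega)]
  exact Nat.mul_le_mul_left _ (nab_mono hzx.1.le)

lemma mem_bdR {R : Finset P} {z : P} : z ∈ bdR R ↔ z ∈ R ∧ ∃ x, x ∉ R ∧ z ⋖ x := by
  classical
  unfold bdR
  rw [mem_filter]

/-- above an element of `R` (all of positive level) there is a boundary element -/
lemma exists_bd_above {R : Finset P} (hR : ∀ x ∈ R, 0 < lev x) {z : P} (hz : z ∈ R) :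
    ∃ z' ∈ bdR R, z ≤ z' ∧ ∀ x, z' < x → x ∉ R := by
  classical
  obtain ⟨z', hz'⟩ := (R.filter (fun x => z ≤ x)).exists_maximal ⟨z, mem_filter.mpr ⟨hz, le_rfl⟩⟩
  have h1 := mem_filter.mp hz'.1
  have h2 : ∀ x, z' < x → x ∉ R := by
    intro x hx hxR
    have := hz'.2 (mem_filter.mpr ⟨hxR, h1.2.trans hx.le⟩) hx.le
    exact absurd (lt_of_lt_of_le hx this) (lt_irrefl _)
  have h3 : z' < (topOf z' : P) := lt_of_le_of_ne (le_topOf z') (by
    intro h
    have := (topOf z').2
    rw [← h] at this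
    have := hR z' h1.1
    omega)
  obtain ⟨u, hu, -⟩ := Hul.exists_cov h3
  exact ⟨z', mem_bdR.mpr ⟨h1.1, u, h2 u hu.1, hu⟩, h1.2, h2⟩

/-- the minimal cost is at most the full cost of every element of `R` -/
lemma min_le_ful {i : ℕ} {R : Finset P} {h : P → ℕ} {v : ℕ} (hR : ∀ x ∈ R, 0 < lev x)
    (hv : ∀ z ∈ bdR R, v ≤ cst i h z) {z : P} (hz : z ∈ R) : v ≤ ful i z := by
  obtain ⟨z', hz', hle, -⟩ := exists_bd_above hR hz
  exact (hv z' hz').trans ((cst_le_ful i h z').trans (ful_anti i hle))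

/-- a cheapest element of the boundary with a large label has no cover in `R` -/
lemma no_cover_of_min {i : ℕ} {R : Finset P} {h : P → ℕ} {v : ℕ} (H : GradedBelow P)
    (hR : ∀ x ∈ R, i < lev x) (hv : ∀ z ∈ bdR R, v ≤ cst i h z) (h1 : ∀ z ∈ bdR R, 1 ≤ h z)
    {z : P} (hz : z ∈ bdR R) (hc : cst i h z = v) (hh : lev z - i ≤ h z + 1) {x : P}
    (hzx : z ⋖ x) : x ∉ R := by
  intro hx
  have h2 := min_le_ful (fun x hx => Nat.zero_lt_of_lt (hR x hx)) hv hx
  have h3 := cst_step H hzx hh
  have h4 := h1 z hz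
  have h5 := hR z (mem_bdR.mp hz).1
  have h6 : 1 ≤ min (h z) (lev z - i) := by
    rw [Nat.le_min]
    omega
  omega

/-- the full cost without the element itself -/
lemma ful_eq_above (i : ℕ) (z : P) :
    ful i z = ∑ k ∈ range (lev z), (k - i) * nab k z + (lev z - i) := by
  unfold ful
  rw [Finset.sum_range_succ, nab_self, mul_one]

end Pool.Agent.GaussPoset
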