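import Pool.Agent.W_448s7_h5.PenB

/-!
# S7 for `j ≥ 17` (MP_448cb3_co): final form
-/

namespace Pool.Agent.GaussPoset

set_option linter.unusedSectionVars false

open Finset Wd

universe u

variable {P : Type u} [Fintype P] [PartialOrder P] [DecidableEq P] {r j w : ℕ}

/-- the context of S7, `j ≥ 17`, from the shapes -/
theorem strips_of_shape (G : Win.GoodTo P r j) (hj : 17 ≤ j)
    {lo hi : Tops P → ℕ → ℕ} {e : Tops P → ℕ → ℕ → P}
    (C : ∀ t : Tops P, Cp.Comp j (t : P) (lo t) (hi t) (e t)) (hS : ∀ t, Shape j (lo t) (hi t)) :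
    Strips P r j lo hi e (fun t => RectShape j (lo t) (hi t) ∨ StairShape j (lo t) (hi t)) ∧
      Lates j lo hi (fun t => RectShape j (lo t) (hi t) ∨ StairShape j (lo t) (hi t)) := by
  have h := fun t => late_of_shape G.H G.good hj (C t) (hS t)
  exact ⟨⟨G, hj, C, fun t ht => ht.elim Or.inl fun h => Or.inr (Or.inl h),
    fun t ht => (h t ht).1, pen_or G hj C hS⟩, ⟨fun t ht => (h t ht).2.1, fun t ht => (h t ht).2.2⟩⟩

/-- S7, `j ≥ 17`: an element of level `j + 1` below two maximal elements has a cover which is not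
straight and belongs to an early component -/
theorem no_end_join (G : Win.GoodTo P r j) (hj : 17 ≤ j)
    {lo hi : Tops P → ℕ → ℕ} {e : Tops P → ℕ → ℕ → P}
    (C : ∀ t : Tops P, Cp.Comp j (t : P) (lo t) (hi t) (e t)) (hS : ∀ t, Shape j (lo t) (hi t))
    {z x x' : P} (hl : lev z = j + 1) (hzx : z ⋖ x) (hzx' : z ⋖ x') (hne : topOf x ≠ topOf x')
    (hx : (RectShape j (lo (topOf x)) (hi (topOf x)) ∨ StairShape j (lo (topOf x)) (hi (topOf x))) →
      ∀ k, k ≤ j → nab k x = 1)
    (hx' : (RectShape j (lo (topOf x')) (hi (topOf x')) ∨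
      StairShape j (lo (topOf x')) (hi (topOf x'))) → ∀ k, k ≤ j → nab k x' = 1) : False := by
  obtain ⟨S, L⟩ := strips_of_shape G hj C hS
  have l1 := (G.H.covBy_iff.mp hzx).2
  have l2 := (G.H.covBy_iff.mp hzx').2
  exact S.no_end_join L ⟨hzx, hzx', only_of_le G.H G.good (le_topOf x) (by omega),
    only_of_le G.H G.good (le_topOf x') (by omega), hne, hx, hx'⟩ hl

end Pool.Agent.GaussPoset
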