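import Pool.Agent.W_448s7_h5.SevG

/-!
# Types of the strips with the positions of the pendants (MP_448cb3_co, S7)
-/

namespace Pool.Agent.GaussPoset

set_option linter.unusedSectionVars false

open Polynomial Finset

universe u

variable {P : Type u} [Fintype P] [PartialOrder P] [DecidableEq P] {r j : ℕ}

section Shape

open Cp

variable {i : ℕ} {t : P} {lo hi : ℕ → ℕ} {e : ℕ → ℕ → P}

/-- the pendants below the doubles of the last good level of a stair-like strip -/
theorem stairShape_pendant (h : Win.GoodTo P r (i + 1)) (hi1 : 1 ≤ i) (ht : lev t = 0)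
    (C : Comp (i + 1) t lo hi e) (S : StairShape (i + 1) lo hi) {x z : P} (hx : lev x = i + 1)
    (hxt : x ≤ t) (hx2 : (Win.uc x).card = 2) (hzx : z ⋖ x) (honly : ∀ y, z ⋖ y → y = x) :
    (ccoord lo hi e x).2 = (ccoord lo hi e x).1 + 1 ∨
      (ccoord lo hi e x).2 = (ccoord lo hi e x).1 + 3 := by
  classical
  obtain ⟨n1, n2⟩ := stairShape_co C S
  obtain ⟨s, h1, h2, h3⟩ := C.surj x hxt (by omega)
  rw [hx] at h1 h2 h3
  have hS := (Win.near_level' h hi1).2 t lo hi e ht C.toWin
  have h4 := C.toWin.uc_two h ht (k := i) (by omega) h1 h2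
  rw [h3] at h4
  have h5 := h4.mp hx2
  have h6 : (Win.uc z).card = 1 := by
    rw [Finset.card_eq_one]
    refine ⟨x, ?_⟩
    ext y
    rw [Win.mem_uc, mem_singleton]
    exact ⟨honly y, fun h => h ▸ hzx⟩
  have h7 : z ∈ Win.pen (e (i + 1) s) := by
    rw [Win.mem_pen, h3]
    exact ⟨hzx, h6⟩
  have hne : (Win.pen (e (i + 1) s)).card ≠ 0 := by
    intro h0
    rw [Finset.card_eq_zero] at h0
    rw [h0] at h7
    exact absurd h7 (Finset.notMem_empty _)
  have hs : scoord lo hi e x = s := by
    have := scoord_e C (k := i + 1) (s := s) le_rfl h1 h2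
    rw [h3] at this
    exact this
  have hcc : ccoord lo hi e x = (s, i + 1 - s) := by
    unfold ccoord
    rw [hs, hx]
  have hRs : Win.RCO lo hi i → (s = hi i ∨ s + 1 = hi i) → (ccoord lo hi e x).2 =
      (ccoord lo hi e x).1 + 1 ∨ (ccoord lo hi e x).2 = (ccoord lo hi e x).1 + 3 := by
    intro hR hs'
    have e1 := n2 hR
    have e2 := S.hi (i + 1) le_rfl
    have e3 := S.hi i (by omega)
    rw [hcc]
    show i + 1 - s = s + 1 ∨ i + 1 - s = s + 3
    omega
  rcases hS with ⟨-, -, h8⟩ | ⟨h8, -⟩ | ⟨h8, -, b, hb, h9⟩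
  · exact absurd (h8 s h5.1 h5.2) hne
  · exact absurd h8 n1
  · have h10 := h9 s h5.1 h5.2
    have h11 : s = b := by
      by_contra hcon
      rw [if_neg hcon] at h10
      exact hne h10
    exact hRs h8 (by omega)

end Shape

/-- the types of strips, with the positions of the pendants below the doubles of level `j` -/
inductive TypeX (j i : ℕ) (t : Tops P) (b : ℕ) (N : Finset P) (θ : P → ℕ) : Prop
  | light (h1 : N = onlyB t) (h2 : θ = fun x => lev x - i) (h3 : b = 1)
      (h5 : ∀ x, x ≤ (t : P) → lev x ≤ j → x ∈ onlyB t)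
  | rect (Nc : Finset P) (co : P → ℕ × ℕ) (h0 : RectNat j i t b Nc co) (h1 : N = natR Nc co)
      (h2 : θ = thR i b Nc co)
      (pen : ∀ x z, x ≤ (t : P) → lev x = j → (Win.uc x).card = 2 → z ⋖ x →
        ¬ ∀ y, z ⋖ y → y = x)
  | stair (Nc : Finset P) (co : P → ℕ × ℕ) (h0 : StairNat j i t Nc co) (h1 : N = natS Nc co)
      (h2 : θ = thS i Nc co) (h3 : b = i / 2 + 1) (h5 : 2 ≤ i)
      (pen : ∀ x z, x ≤ (t : P) → lev x = j → (Win.uc x).card = 2 → z ⋖ x →
        (∀ y, z ⋖ y → y = x) → (co x).2 = (co x).1 + 1 ∨ (co x).2 = (co x).1 + 3)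

section Exists

open Cp

/-- every strip which is light at level `i` or has a natural shape has a type -/
theorem exists_typeX (h : Win.GoodTo P r j) (hj2 : 2 ≤ j) {t : Tops P}
    {lo hi : ℕ → ℕ} {e : ℕ → ℕ → P} (C : Comp j (t : P) lo hi e) {i : ℕ} (hij : 2 * i ≤ j)
    (hT : lo i = hi i ∨ RectShape j lo hi ∨ StairShape j lo hi ∨
      StairShape j (fun k => k - hi k) (fun k => k - lo k)) :
    ∃ N θ, TypeX j i t (hi i - lo i + 1) N θ ∧ TopType j i t (hi i - lo i + 1) N θ := by
  have H := h.H
  have hg := h.good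
  have hlo := C.lo_le i (by omega)
  obtain ⟨j', rfl⟩ : ∃ j', j = j' + 1 := ⟨j - 1, by omega⟩
  by_cases hl : lo i = hi i
  · rw [hl, Nat.sub_self]
    refine ⟨_, _, TypeX.light rfl rfl rfl ?_, type_light H hg C (by omega)⟩
    intro x hx hxi
    rw [mem_onlyB]
    intro s hs hxs
    exact top_eq H hg hxi hs t.2 hxs hx
  · have hlt : lo i < hi i := by omega
    have hii : hi i ≤ i := C.hi_le (by omega)
    rcases hT with hT | hT | hT | hT
    · exact absurd hT hl
    · obtain ⟨N, co, h1, -⟩ := exists_rect C H hg H.gradedBelow hT hij hlt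
      refine ⟨_, _, TypeX.rect N co h1 rfl rfl ?_, TopType.rect N co h1 rfl rfl (by omega)⟩
      intro x z hxt hlx hx2 hzx honly
      exact rectShape_no_pendant h (by omega) t.2 C hT hlx hxt hx2 hzx honly
    · have h2 := hT.hi i (by omega)
      have h0 : lo i = 0 := by
        by_contra hcon
        have e1 := shape_lo C hT.lo (l := i) (by omega) i (by omega)
        have e2 := hT.hi (i + i) (by omega)
        have e3 := C.lo_le (i + i) (by omega)
        omega
      obtain ⟨N, co, h1, h1'⟩ := exists_stair C H hg H.gradedBelow hT hij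
      refine ⟨_, _, TypeX.stair N co h1 rfl rfl (by rw [h0, h2]; omega) (by omega) ?_,
        TopType.stair N co h1 rfl rfl (by rw [h0, h2]; omega) (by omega) (by omega)⟩
      intro x z hxt hlx hx2 hzx honly
      rw [h1' x (mem_lowPart.mpr ⟨hxt, by omega⟩)]
      exact stairShape_pendant h (by omega) t.2 C hT hlx hxt hx2 hzx honly
    · have C' := comp_swap C
      have h2 : i - lo i = i / 2 := hT.hi i (by omega)
      have h0 : i - hi i = 0 := by
        by_contra hcon
        have e1 := shape_lo C' hT.lo (l := i) (by show 1 ≤ i - hi i; omega) i (by omega)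
        have e2 := hT.hi (i + i) (by omega)
        have e3 := C'.lo_le (i + i) (by omega)
        omega
      obtain ⟨N, co, h1, h1'⟩ := exists_stair C' H hg H.gradedBelow hT hij
      refine ⟨_, _, TypeX.stair N co h1 rfl rfl (by omega) (by omega) ?_,
        TopType.stair N co h1 rfl rfl (by omega) (by omega) (by omega)⟩
      intro x z hxt hlx hx2 hzx honly
      rw [h1' x (mem_lowPart.mpr ⟨hxt, by omega⟩)]
      exact stairShape_pendant h (by omega) t.2 C' hT hlx hxt hx2 hzx honly

end Exists

end Pool.Agent.GaussPoset
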