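import Pool.Agent.W_448s7_h5.SevH

/-!
# Costs of deep cells (MP_448cb3_co, S7)
-/

namespace Pool.Agent.GaussPoset

set_option linter.unusedSectionVars false

open Polynomial Finset

universe u

variable {P : Type u} [Fintype P] [PartialOrder P] [DecidableEq P] {r j : ℕ}

lemma cst_const (i : ℕ) (h : P → ℕ) (z : P) : cst i h z = cst i (fun _ => h z) z := rfl

/-- the cost, summed over the excesses -/
lemma cst_shift {i a : ℕ} {h : P → ℕ} {x : P} (hl : lev x = i + a) :
    cst i h x = ∑ n ∈ range (a + 1), min (h x) n * nab (i + n) x := by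
  rw [cst_eq, hl, show i + a + 1 = i + (a + 1) by omega, Finset.sum_range_add]
  have h1 : ∑ k ∈ range i, min (h x) (k - i) * nab k x = 0 := by
    refine Finset.sum_eq_zero fun k hk => ?_
    rw [mem_range] at hk
    rw [Nat.sub_eq_zero_of_le hk.le, Nat.min_zero, zero_mul]
  rw [h1, zero_add]
  refine Finset.sum_congr rfl fun n _ => ?_
  rw [Nat.add_sub_cancel_left]

/-- lower bound of the cost -/
lemma cst_ge_shift {i a : ℕ} {h : P → ℕ} {x : P} (F : ℕ → ℕ) (hl : lev x = i + a)
    (hh : a ≤ h x + 1) (hF : ∀ n, 1 ≤ n → n < a → F n ≤ nab (i + n) x) :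
    ∑ n ∈ range a, n * F n + min (h x) a ≤ cst i h x := by
  rw [cst_shift hl, Finset.sum_range_succ, ← hl, nab_self, mul_one]
  refine Nat.add_le_add_right ?_ _
  refine Finset.sum_le_sum fun n hn => ?_
  rw [mem_range] at hn
  rw [Nat.min_eq_right (by omega)]
  rcases Nat.eq_zero_or_pos n with h0 | h0
  · subst h0; simp
  · exact Nat.mul_le_mul_left _ (hF n h0 hn)

/-- lower bound of the cost, threshold two less -/
lemma cst_ge_shift' {i a : ℕ} {h : P → ℕ} {x : P} (F : ℕ → ℕ) (hl : lev x = i + (a + 2))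
    (hh : h x = a) (hF : ∀ n, 1 ≤ n → n < a + 2 → F n ≤ nab (i + n) x) :
    ∑ n ∈ range (a + 1), n * F n + a * F (a + 1) + a ≤ cst i h x := by
  rw [cst_shift hl, Finset.sum_range_succ (fun n => min (h x) n * nab (i + n) x), ← hl, nab_self,
    mul_one, Finset.sum_range_succ (fun n => min (h x) n * nab (i + n) x), hh]
  refine Nat.add_le_add (Nat.add_le_add ?_ ?_) ?_
  · refine Finset.sum_le_sum fun n hn => ?_
    rw [mem_range] at hn
    rw [Nat.min_eq_right (by omega)]
    rcases Nat.eq_zero_or_pos n with h0 | h0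
    · subst h0; simp
    · exact Nat.mul_le_mul_left _ (hF n h0 (by omega))
  · rw [Nat.min_eq_left (by omega)]
    exact Nat.mul_le_mul_left _ (hF (a + 1) (by omega) (by omega))
  · rw [Nat.min_eq_left (by omega)]

/-- indicator of an interval -/
def ind (s a n : ℕ) : ℕ := if s ≤ n ∧ n < a then 1 else 0

lemma sum_ind {s a m : ℕ} (ha : a ≤ m) :
    a * (a - 1) ≤ 2 * ∑ n ∈ range m, n * ind s a n + s * (s - 1) := by
  have h1 : ∑ n ∈ range a, n ≤ ∑ n ∈ range m, n * ind s a n + ∑ n ∈ range s, n := by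
    have h2 : ∀ n ∈ range a, n ≤ n * ind s a n + (if n < s then n else 0) := by
      intro n hn
      rw [mem_range] at hn
      unfold ind
      by_cases h : n < s
      · rw [if_pos h]
        omega
      · rw [if_pos ⟨by omega, hn⟩]
        omega
    refine (Finset.sum_le_sum h2).trans ?_
    rw [Finset.sum_add_distrib]
    refine Nat.add_le_add (Finset.sum_le_sum_of_subset (Finset.range_mono ha)) ?_
    rw [← Finset.sum_filter]
    exact Finset.sum_le_sum_of_subset fun n hn => by
      rw [mem_filter] at hn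
      exact mem_range.mpr hn.2
  have h2 := Finset.sum_range_id_mul_two a
  have h3 := Finset.sum_range_id_mul_two s
  omega

lemma sum_split4 (m : ℕ) (f1 f2 f3 f4 : ℕ → ℕ) :
    ∑ n ∈ range m, n * (f1 n + f2 n + f3 n + f4 n) =
      ∑ n ∈ range m, n * f1 n + ∑ n ∈ range m, n * f2 n + ∑ n ∈ range m, n * f3 n +
        ∑ n ∈ range m, n * f4 n := by
  simp only [mul_add, Finset.sum_add_distrib]

/-- the number which a cost must exceed -/
def cap (j w : ℕ) : ℕ := (j + 1 - w) ^ 2 + (10 * (j - w) - 40)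

lemma cap_eq {j w y : ℕ} (hy : j + 1 = w + y) (h6 : 6 ≤ y) : cap j w + 50 = y ^ 2 + 10 * y := by
  unfold cap
  have e1 : j + 1 - w = y := by omega
  have e2 : j - w = y - 1 := by omega
  rw [e1, e2]
  omega

section Rect

variable {t : P} {N : Finset P} {co : P → ℕ × ℕ}

lemma rect_nab (C : Chart t (fun _ => True) N co) {x : P} (hx : x ∈ N) {k : ℕ}
    (hk : k ≤ lev x) : nab k x + (k - (co x).2) = min k (co x).1 + 1 := by
  have hl := C.lev x hx
  rw [nab_chart C hx k]
  exact card_cellsAt_true (by omega)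

lemma stair_nab (C : Chart t (fun c => c.1 ≤ c.2) N co) {x : P} (hx : x ∈ N) {k : ℕ}
    (hk : k ≤ lev x) : nab k x + (k - (co x).2) = min (k / 2) (co x).1 + 1 := by
  have hl := C.lev x hx
  rw [nab_chart C hx k]
  exact card_cellsAt_shift (C.mem x hx) (by omega)

/-- a deep cell of a rectangle-like chart is expensive -/
theorem rect_deep (C : Chart t (fun _ => True) N co) {x : P} (hx : x ∈ N) {w h : ℕ}
    (hj : 17 ≤ j) (hw : 1 ≤ w) (hw3 : w ≤ 3) (h1 : 2 ≤ (co x).1) (h2 : 2 ≤ (co x).2)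
    (hlx : j + 1 ≤ lev x) (hh : h + min (min (co x).1 (co x).2) w = lev x - w + 1) :
    cap j w + 1 < cst w (fun _ => h) x + h := by
  have hl := C.lev x hx
  obtain ⟨y, hy⟩ : ∃ y, j + 1 = w + y := ⟨j + 1 - w, by omega⟩
  have hcap := cap_eq hy (by omega)
  obtain ⟨a, ha⟩ : ∃ a, lev x = w + (a + 2) := ⟨lev x - w - 2, by omega⟩
  have hn : ∀ n, 1 ≤ n → n < a + 2 → 1 + ind 1 (a + 2) n + ind 1 (a + 1) n + 0 ≤ nab (w + n) x := by
    intro n hn1 hn2
    have h3 := rect_nab C hx (k := w + n) (by omega)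
    unfold ind
    split_ifs <;> omega
  by_cases hd : 3 ≤ min (min (co x).1 (co x).2) w
  · have hn' : ∀ n, 1 ≤ n → n < a + 2 →
        1 + ind 1 (a + 2) n + ind 1 (a + 1) n + ind 1 a n ≤ nab (w + n) x := by
      intro n hn1 hn2
      have h3 := rect_nab C hx (k := w + n) (by omega)
      unfold ind
      split_ifs <;> omega
    have hha : h = a := by omega
    have h4 := cst_ge_shift' (h := fun _ => h) (fun n => 1 + ind 1 (a + 2) n + ind 1 (a + 1) n +
      ind 1 a n) ha hha hn'
    rw [sum_split4] at h4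
    have g1 := Finset.sum_range_id_mul_two (a + 1)
    have g2 := sum_ind (s := 1) (a := a + 1) (m := a + 1) le_rfl
    have g2' : ∑ n ∈ range (a + 1), n * ind 1 (a + 1) n ≤
        ∑ n ∈ range (a + 1), n * ind 1 (a + 2) n := by
      refine Finset.sum_le_sum fun n hn => Nat.mul_le_mul_left _ ?_
      rw [mem_range] at hn
      unfold ind
      split_ifs <;> omega
    have g3 := sum_ind (s := 1) (a := a) (m := a + 1) (by omega)
    have g4 : 1 + ind 1 (a + 2) (a + 1) + ind 1 (a + 1) (a + 1) + ind 1 a (a + 1) = 2 := by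
      unfold ind
      rw [if_pos (by omega), if_neg (by omega), if_neg (by omega)]
    rw [g4] at h4
    simp only [mul_one, Nat.add_sub_cancel, Nat.sub_self, mul_zero, add_zero] at h4 g1 g2 g3
    obtain ⟨d, hd'⟩ : ∃ d, a + 2 = y + d := ⟨a + 2 - y, by omega⟩
    obtain ⟨c, rfl⟩ : ∃ c, a = c + 13 := ⟨a - 13, by omega⟩
    have e1 : (c + 13) * (c + 13 - 1) = c * c + 25 * c + 156 := by
      rw [show c + 13 - 1 = c + 12 by omega]; ring
    have e2 : (c + 13 + 1) * (c + 13) = c * c + 27 * c + 182 := by ring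
    have e3 : (c + 13) * 2 = 2 * c + 26 := by ring
    have e4 : y ^ 2 + 10 * y ≤ (c + 15) ^ 2 + 10 * (c + 15) := by
      have : y ≤ c + 15 := by omega
      nlinarith
    have e5 : (c + 15) ^ 2 = c * c + 30 * c + 225 := by ring
    rw [e1] at g3
    rw [e2] at g1 g2
    rw [e3] at h4
    rw [e5] at e4
    omega
  · have hh2 : h = a + 1 ∨ h = a + 2 := by omega
    have h4 := cst_ge_shift (h := fun _ => h) (fun n => 1 + ind 1 (a + 2) n + ind 1 (a + 1) n +
      0) ha (by omega) hn
    rw [sum_split4] at h4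
    have g1 := Finset.sum_range_id_mul_two (a + 2)
    have g2 := sum_ind (s := 1) (a := a + 2) (m := a + 2) le_rfl
    have g3 := sum_ind (s := 1) (a := a + 1) (m := a + 2) (by omega)
    rw [show a + 2 - 1 = a + 1 by omega] at g1 g2
    simp only [mul_one, Nat.add_sub_cancel, Nat.sub_self, mul_zero, add_zero] at h4 g1 g2 g3
    obtain ⟨c, rfl⟩ : ∃ c, a = c + 13 := ⟨a - 13, by omega⟩
    have e1 : (c + 13 + 1) * (c + 13) = c * c + 27 * c + 182 := by ring
    have e2 : (c + 13 + 2) * (c + 13 + 1) = c * c + 29 * c + 210 := by ring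
    have e4 : y ^ 2 + 10 * y ≤ (c + 15) ^ 2 + 10 * (c + 15) := by
      have : y ≤ c + 15 := by omega
      nlinarith
    have e5 : (c + 15) ^ 2 = c * c + 30 * c + 225 := by ring
    rw [e1] at g3
    rw [e2] at g1 g2
    rw [e5] at e4
    omega

end Rect

end Pool.Agent.GaussPoset
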