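import Pool.Agent.W_448s7_h5.SevI

/-!
# Costs of deep cells of stair-like strips (MP_448cb3_co, S7)
-/

namespace Pool.Agent.GaussPoset

set_option linter.unusedSectionVars false

open Polynomial Finset

universe u

variable {P : Type u} [Fintype P] [PartialOrder P] [DecidableEq P] {r j : ℕ}

section Stair

variable {t : P} {N : Finset P} {co : P → ℕ × ℕ}

/-- a deep cell of a stair-like chart is expensive -/
theorem stair_deep (C : Chart t (fun c => c.1 ≤ c.2) N co) {x : P} (hx : x ∈ N) {w h : ℕ}
    (hj : 17 ≤ j) (hw : w = 2 ∨ w = 3) (h1 : 2 ≤ (co x).1)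
    (hlx : j + 1 ≤ lev x) (hh : h + 1 = lev x - w) :
    cap j w + 1 < cst w (fun _ => h) x + h := by
  have hl := C.lev x hx
  have hm := C.mem x hx
  obtain ⟨y, hy⟩ : ∃ y, j + 1 = w + y := ⟨j + 1 - w, by omega⟩
  have hcap := cap_eq hy (by omega)
  obtain ⟨c, hc⟩ : ∃ c, lev x = w + (c + 15) := ⟨lev x - w - 15, by omega⟩
  have hha : h = c + 14 := by omega
  have e4 : y ^ 2 + 10 * y ≤ (c + 15) ^ 2 + 10 * (c + 15) := by
    have : y ≤ c + 15 := by omega
    nlinarith
  have e5 : (c + 15) ^ 2 = c * c + 30 * c + 225 := by ring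
  rw [e5] at e4
  have g1 := Finset.sum_range_id_mul_two (c + 15)
  rw [show c + 15 - 1 = c + 14 by omega, show (c + 15) * (c + 14) = c * c + 29 * c + 210 by ring]
    at g1
  by_cases hr : (co x).1 = 2
  · have hn : ∀ n, 1 ≤ n → n < c + 15 →
        1 + ind 1 (c + 15) n + ind (4 - w) (c + 14) n + 0 ≤ nab (w + n) x := by
      intro n hn1 hn2
      have h3 := stair_nab C hx (k := w + n) (by omega)
      unfold ind
      split_ifs <;> omega
    have h4 := cst_ge_shift (h := fun _ => h) (fun n => 1 + ind 1 (c + 15) n +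
      ind (4 - w) (c + 14) n + 0) hc (by omega) hn
    rw [sum_split4] at h4
    have g2 := sum_ind (s := 1) (a := c + 15) (m := c + 15) le_rfl
    have g3 := sum_ind (s := 4 - w) (a := c + 14) (m := c + 15) (by omega)
    rw [show c + 15 - 1 = c + 14 by omega, show (c + 15) * (c + 14) = c * c + 29 * c + 210 by ring]
      at g2
    rw [show c + 14 - 1 = c + 13 by omega, show (c + 14) * (c + 13) = c * c + 27 * c + 182 by ring]
      at g3
    simp only [mul_one, Nat.sub_self, mul_zero, add_zero] at h4 g1 g2 g3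
    rcases hw with rfl | rfl
    · norm_num at g3 h4
      omega
    · norm_num at g3 h4
      omega
  · have hn : ∀ n, 1 ≤ n → n < c + 15 →
        1 + ind 1 (c + 14) n + ind (4 - w) (c + 12) n + ind (6 - w) (c + 10) n ≤
          nab (w + n) x := by
      intro n hn1 hn2
      have h3 := stair_nab C hx (k := w + n) (by omega)
      unfold ind
      split_ifs <;> omega
    have h4 := cst_ge_shift (h := fun _ => h) (fun n => 1 + ind 1 (c + 14) n +
      ind (4 - w) (c + 12) n + ind (6 - w) (c + 10) n) hc (by omega) hn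
    rw [sum_split4] at h4
    have g2 := sum_ind (s := 1) (a := c + 14) (m := c + 15) (by omega)
    have g3 := sum_ind (s := 4 - w) (a := c + 12) (m := c + 15) (by omega)
    have g4 := sum_ind (s := 6 - w) (a := c + 10) (m := c + 15) (by omega)
    rw [show c + 14 - 1 = c + 13 by omega, show (c + 14) * (c + 13) = c * c + 27 * c + 182 by ring]
      at g2
    rw [show c + 12 - 1 = c + 11 by omega, show (c + 12) * (c + 11) = c * c + 23 * c + 132 by ring]
      at g3
    rw [show c + 10 - 1 = c + 9 by omega, show (c + 10) * (c + 9) = c * c + 19 * c + 90 by ring]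
      at g4
    simp only [mul_one, Nat.sub_self, mul_zero, add_zero] at h4 g1 g2 g3 g4
    rcases hw with rfl | rfl
    · norm_num at g3 g4 h4
      have : 1 ≤ c := by omega
      omega
    · norm_num at g3 g4 h4
      omega

lemma sum_split5 (m : ℕ) (f1 f2 f3 f4 f5 : ℕ → ℕ) :
    ∑ n ∈ range m, n * (f1 n + f2 n + f3 n + f4 n + f5 n) =
      ∑ n ∈ range m, n * f1 n + ∑ n ∈ range m, n * f2 n + ∑ n ∈ range m, n * f3 n +
        ∑ n ∈ range m, n * f4 n + ∑ n ∈ range m, n * f5 n := by
  simp only [mul_add, Finset.sum_add_distrib]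

/-- the flip position of level `j` is expensive -/
theorem flip_deep (C : Chart t (fun c => c.1 ≤ c.2) N co) {x : P} (hx : x ∈ N) {w h : ℕ}
    (hj : 17 ≤ j) (hw : w = 2 ∨ w = 3) (h1 : (co x).2 = (co x).1 + 3)
    (hlx : lev x = j) (hh : h + 1 = lev x - w) :
    cap j w < cst w (fun _ => h) x + h := by
  have hl := C.lev x hx
  obtain ⟨c, hc⟩ : ∃ c, lev x = w + (c + 14) := ⟨lev x - w - 14, by omega⟩
  have hcap := cap_eq (j := j) (w := w) (y := c + 15) (by omega) (by omega)
  have hha : h = c + 13 := by omega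
  have e5 : (c + 15) ^ 2 = c * c + 30 * c + 225 := by ring
  rw [e5] at hcap
  have hn : ∀ n, 1 ≤ n → n < c + 14 →
      1 + ind 1 (c + 14) n + ind (4 - w) (c + 13) n + ind (6 - w) (c + 12) n ≤
        nab (w + n) x := by
    intro n hn1 hn2
    have h3 := stair_nab C hx (k := w + n) (by omega)
    unfold ind
    split_ifs <;> omega
  have h4 := cst_ge_shift (h := fun _ => h) (fun n => 1 + ind 1 (c + 14) n +
    ind (4 - w) (c + 13) n + ind (6 - w) (c + 12) n) hc (by omega) hn
  rw [sum_split4] at h4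
  have g1 := Finset.sum_range_id_mul_two (c + 14)
  have g2 := sum_ind (s := 1) (a := c + 14) (m := c + 14) le_rfl
  have g3 := sum_ind (s := 4 - w) (a := c + 13) (m := c + 14) (by omega)
  have g4 := sum_ind (s := 6 - w) (a := c + 12) (m := c + 14) (by omega)
  rw [show c + 14 - 1 = c + 13 by omega, show (c + 14) * (c + 13) = c * c + 27 * c + 182 by ring]
    at g1 g2
  rw [show c + 13 - 1 = c + 12 by omega, show (c + 13) * (c + 12) = c * c + 25 * c + 156 by ring]
    at g3
  rw [show c + 12 - 1 = c + 11 by omega, show (c + 12) * (c + 11) = c * c + 23 * c + 132 by ring]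
    at g4
  simp only [mul_one, Nat.sub_self, mul_zero, add_zero] at h4 g1 g2 g3 g4
  rcases hw with rfl | rfl
  · norm_num at g3 g4 h4
    have : 1 ≤ c := by omega
    omega
  · norm_num at g3 g4 h4
    omega

/-- the fold end of level `j ≥ 20` is expensive -/
theorem fold_deep (C : Chart t (fun c => c.1 ≤ c.2) N co) {x : P} (hx : x ∈ N) {w h : ℕ}
    (hj : 20 ≤ j) (hw : w = 2 ∨ w = 3) (h1 : (co x).2 = (co x).1)
    (hlx : lev x = j) (hh : h + 1 = lev x - w) :
    cap j w < cst w (fun _ => h) x + h := by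
  have hl := C.lev x hx
  obtain ⟨c, hc⟩ : ∃ c, lev x = w + (c + 17) := ⟨lev x - w - 17, by omega⟩
  have hcap := cap_eq (j := j) (w := w) (y := c + 18) (by omega) (by omega)
  have hha : h = c + 16 := by omega
  have e5 : (c + 18) ^ 2 = c * c + 36 * c + 324 := by ring
  rw [e5] at hcap
  have hn : ∀ n, 1 ≤ n → n < c + 17 →
      1 + ind 1 (c + 16) n + ind (4 - w) (c + 14) n + ind (6 - w) (c + 12) n +
        ind (8 - w) (c + 10) n ≤ nab (w + n) x := by
    intro n hn1 hn2
    have h3 := stair_nab C hx (k := w + n) (by omega)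
    unfold ind
    split_ifs <;> omega
  have h4 := cst_ge_shift (h := fun _ => h) (fun n => 1 + ind 1 (c + 16) n +
    ind (4 - w) (c + 14) n + ind (6 - w) (c + 12) n + ind (8 - w) (c + 10) n) hc (by omega) hn
  rw [sum_split5] at h4
  have g1 := Finset.sum_range_id_mul_two (c + 17)
  have g2 := sum_ind (s := 1) (a := c + 16) (m := c + 17) (by omega)
  have g3 := sum_ind (s := 4 - w) (a := c + 14) (m := c + 17) (by omega)
  have g4 := sum_ind (s := 6 - w) (a := c + 12) (m := c + 17) (by omega)
  have g5 := sum_ind (s := 8 - w) (a := c + 10) (m := c + 17) (by omega)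
  rw [show c + 17 - 1 = c + 16 by omega, show (c + 17) * (c + 16) = c * c + 33 * c + 272 by ring]
    at g1
  rw [show c + 16 - 1 = c + 15 by omega, show (c + 16) * (c + 15) = c * c + 31 * c + 240 by ring]
    at g2
  rw [show c + 14 - 1 = c + 13 by omega, show (c + 14) * (c + 13) = c * c + 27 * c + 182 by ring]
    at g3
  rw [show c + 12 - 1 = c + 11 by omega, show (c + 12) * (c + 11) = c * c + 23 * c + 132 by ring]
    at g4
  rw [show c + 10 - 1 = c + 9 by omega, show (c + 10) * (c + 9) = c * c + 19 * c + 90 by ring]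
    at g5
  simp only [mul_one, Nat.sub_self, mul_zero, add_zero] at h4 g1 g2 g3 g4 g5
  rcases hw with rfl | rfl
  · norm_num at g3 g4 g5 h4
    have : 1 ≤ c := by omega
    omega
  · norm_num at g3 g4 g5 h4
    omega

/-- the fold end of level `18` -/
theorem fold_18 (C : Chart t (fun c => c.1 ≤ c.2) N co) {x : P} (hx : x ∈ N)
    (h1 : (co x).1 = 9) (h2 : (co x).2 = 9) :
    (∀ k, k ≤ 18 → nab k x + (k - 9) = min (k / 2) 9 + 1) ∧
      cst 3 (fun _ => 14) x + 14 = 16 ^ 2 + 94 ∧ cst 2 (fun _ => 15) x + 15 = 17 ^ 2 + 113 := by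
  have hl := C.lev x hx
  have hn : ∀ k, k ≤ 18 → nab k x + (k - 9) = min (k / 2) 9 + 1 := by
    intro k hk
    have h3 := stair_nab C hx (k := k) (by omega)
    omega
  have hv : ∀ k, k ≤ 18 → nab k x = min (k / 2) 9 + 1 - (k - 9) := fun k hk => by
    have := hn k hk
    omega
  refine ⟨hn, ?_, ?_⟩
  · rw [cst_shift (i := 3) (a := 15) (by omega)]
    simp only [Finset.sum_range_succ, Finset.sum_range_zero]
    rw [hv (3 + 1) (by omega), hv (3 + 2) (by omega), hv (3 + 3) (by omega), hv (3 + 4) (by omega),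
      hv (3 + 5) (by omega), hv (3 + 6) (by omega), hv (3 + 7) (by omega), hv (3 + 8) (by omega),
      hv (3 + 9) (by omega), hv (3 + 10) (by omega), hv (3 + 11) (by omega),
      hv (3 + 12) (by omega), hv (3 + 13) (by omega), hv (3 + 14) (by omega),
      hv (3 + 15) (by omega)]
    norm_num
  · rw [cst_shift (i := 2) (a := 16) (by omega)]
    simp only [Finset.sum_range_succ, Finset.sum_range_zero]
    rw [hv (2 + 1) (by omega), hv (2 + 2) (by omega), hv (2 + 3) (by omega), hv (2 + 4) (by omega),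
      hv (2 + 5) (by omega), hv (2 + 6) (by omega), hv (2 + 7) (by omega), hv (2 + 8) (by omega),
      hv (2 + 9) (by omega), hv (2 + 10) (by omega), hv (2 + 11) (by omega),
      hv (2 + 12) (by omega), hv (2 + 13) (by omega), hv (2 + 14) (by omega),
      hv (2 + 15) (by omega), hv (2 + 16) (by omega)]
    norm_num

end Stair

end Pool.Agent.GaussPoset
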