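import Pool.Agent.W_448s7_h5.SevJ

/-!
# The sides of a chart: straight cells and junk (MP_448cb3_co, S7)
-/

namespace Pool.Agent.GaussPoset

set_option linter.unusedSectionVars false

open Polynomial Finset

universe u

variable {P : Type u} [Fintype P] [PartialOrder P] [DecidableEq P] {r j : ℕ}

/-- straight cells and straight junk -/
def Side (S : ℕ × ℕ → Prop) (N : Finset P) (co : P → ℕ × ℕ) (x : P) : Prop :=
  x ∈ junk S N co ∨ (x ∈ N ∧ (co x).1 = 0)

/-- the sets of cells which are used -/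
structure RowT (S : ℕ × ℕ → Prop) : Prop extends RowS S where
  down : ∀ a c, 1 ≤ a → S (a, c) → S (1, c)

lemma rowT_true : RowT (fun _ => True) := ⟨rowS_true, fun _ _ _ _ => trivial⟩

lemma rowT_shift : RowT (fun c => c.1 ≤ c.2) := ⟨rowS_shift, fun _ _ h1 h2 => h1.trans h2⟩

section

variable {t : P} {S : ℕ × ℕ → Prop} {N : Finset P} {co : P → ℕ × ℕ}

lemma Side.up (C : Chart t S N co) {x y : P} (hx : Side S N co x) (hxy : x ≤ y) :
    Side S N co y := by
  rcases hx with hx | ⟨hx, h0⟩
  · obtain ⟨x1, H1, hj⟩ := mem_junk.mp hx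
    rcases jset_anc hj hxy with h | h
    · exact Or.inl (mem_junk.mpr ⟨x1, H1, h⟩)
    · have hy := C.up x1 H1.mem y h
      have h2 := (C.le_iff x1 H1.mem y hy).mp h
      have h3 : (co y).1 ≤ (co x1).1 := h2.1
      rw [H1.fst] at h3
      exact Or.inr ⟨hy, by omega⟩
  · have hy := C.up x hx y hxy
    have h2 := (C.le_iff x hx y hy).mp hxy
    have h3 : (co y).1 ≤ (co x).1 := h2.1
    exact Or.inr ⟨hy, by omega⟩

/-- a side element of the level of a cell of row `1` is a cell -/
lemma Side.cell (C : Chart t S N co) {x y : P} (hx : Side S N co x) (hy : y ∈ N)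
    (h1 : (co y).1 = 1) (hl : lev y = lev x) : x ∈ N ∧ co x = (0, (co y).2 + 1) := by
  have hly := C.lev y hy
  have hN : x ∈ N ∧ (co x).1 = 0 := by
    rcases hx with hx | hx
    · exfalso
      obtain ⟨x1, H1, hj⟩ := mem_junk.mp hx
      have h2 := lev_strictAnti (mem_jset.mp hj).1
      have h3 := H1.lt y hy (by omega)
      have h4 := C.lev x1 H1.mem
      have h5 := H1.fst
      omega
    · exact hx
  have hlx := C.lev x hN.1
  exact ⟨hN.1, Prod.ext hN.2 (by simp only; omega)⟩

/-- an element whose covers are two side elements is junk -/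
theorem junk_of_sides (hS : RowT S) (C : Chart t S N co) (h1 : ∃ y ∈ N, 1 ≤ (co y).1)
    {z x x' : P} (hx : Side S N co x) (hx' : Side S N co x') (hne : x ≠ x') (hl : lev x = lev x')
    (huni : ∀ y, z ⋖ y → y = x ∨ y = x') (hzx : z ⋖ x) : z ∈ junk S N co := by
  -- both are below the end
  have key : ∃ x1, IsEnd S N co x1 ∧ x ∈ jset x1 ∧ x' ∈ jset x1 := by
    have aux : ∀ (a b : P), a ∈ junk S N co → Side S N co b → lev a = lev b →
        ∃ x1, IsEnd S N co x1 ∧ a ∈ jset x1 ∧ b ∈ jset x1 := by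
      intro a b ha hb hab
      obtain ⟨x1, H1, hj⟩ := mem_junk.mp ha
      refine ⟨x1, H1, hj, ?_⟩
      rcases hb with hb | hb
      · obtain ⟨x2, H2, hj2⟩ := mem_junk.mp hb
        rw [H1.unique C hS.one h1 H2]
        exact hj2
      · have h2 := lev_strictAnti (mem_jset.mp hj).1
        have h3 := C.lev x1 H1.mem
        have h4 := H1.fst
        have h5 := C.lev b hb.1
        have h6 : b ≤ x1 := by
          rw [C.le_iff b hb.1 x1 H1.mem]
          refine ⟨?_, ?_⟩
          · rw [h4]; exact Nat.zero_le _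
          · have := hb.2
            show (co x1).2 ≤ (co b).2
            omega
        exact (H1.tail C hb.1 (lt_of_le_of_ne h6 (by rintro rfl; omega))).2
    rcases hx with hx | hx
    · exact aux x x' hx hx' hl
    · rcases hx' with hx' | hx'
      · obtain ⟨x1, H1, h2, h3⟩ := aux x' x hx' (Or.inr hx) hl.symm
        exact ⟨x1, H1, h3, h2⟩
      · exfalso
        have e1 := C.lev x hx.1
        have e2 := C.lev x' hx'.1
        exact hne (C.inj x hx.1 x' hx'.1 (Prod.ext (by omega) (by omega)))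
  obtain ⟨x1, H1, h2, h3⟩ := key
  refine mem_junk.mpr ⟨x1, H1, mem_jset.mpr ⟨hzx.1.trans (mem_jset.mp h2).1, fun y hy => ?_⟩⟩
  rcases eq_or_lt_of_le hy with h4 | h4
  · left
    rw [← h4]
    exact (hzx.1.trans (mem_jset.mp h2).1).le
  · obtain ⟨v, hv, hvy⟩ := Hul.exists_cov h4
    rcases huni v hv with h5 | h5
    · rw [h5] at hvy
      exact (mem_jset.mp h2).2 y hvy
    · rw [h5] at hvy
      exact (mem_jset.mp h3).2 y hvy

/-- the end of a strip of good levels is not above level `j` -/
theorem end_lev (hS : RowT S) (C : Chart t S N co) (H : Gr P r) (hg : ∀ l, l < j → Win.Good P l)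
    (hstrip : lowPart j t ⊆ N) (h1 : ∃ y ∈ N, 1 ≤ (co y).1) {x1 : P} (H1 : IsEnd S N co x1) :
    j ≤ lev x1 := by
  by_contra hcon
  have hl := C.lev x1 H1.mem
  have h0 := H1.fst
  obtain ⟨y, hy, hy1⟩ := h1
  have h2 := H1.lt y hy hy1
  have hS1 : S (1, (co y).2) := hS.down (co y).1 _ hy1 (C.mem y hy)
  have hS2 : S (1, (co x1).2 - 1) := by
    rcases Nat.eq_zero_or_pos ((co x1).2 - 1) with h3 | h3
    · have : (co y).2 = (co x1).2 - 1 := by omega
      rw [← this]
      exact hS1
    · exact hS.one _ h3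
  obtain ⟨y1, hy1N, hc1⟩ := H1.ex ((co x1).2 - 1) (by omega) hS2
  obtain ⟨p, hp, hcp⟩ := C.low x1 H1.mem (0, (co x1).2 - 1) ⟨Nat.zero_le _, Nat.sub_le _ _⟩
    (hS.zero _)
  have hly1 := C.lev y1 hy1N
  rw [hc1] at hly1
  simp only at hly1
  have e1 : x1 ⋖ p := by
    rw [chart_cov C H H1.mem hp, hcp]
    exact Or.inr ⟨h0, by simp only; omega⟩
  have e2 : y1 ⋖ p := by
    rw [chart_cov C H hy1N hp, hcp, hc1]
    exact Or.inl ⟨rfl, rfl⟩
  have hne : x1 ≠ y1 := by
    rintro rfl
    rw [hc1] at h0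
    simp at h0
  have hu : 1 ≤ ucv x1 y1 := by
    unfold ucv
    rw [Nat.one_le_iff_ne_zero, ← Nat.pos_iff_ne_zero, Finset.card_pos]
    exact ⟨p, by simp [e1, e2]⟩
  have hG := hg (lev x1) (by omega) x1 y1 rfl (by omega) hne
  rw [hG] at hu
  obtain ⟨z, hz, hz1⟩ := Win.StA_of_dcv hu
  have hlz := (H.covBy_iff.mp hz).2
  have hzN : z ∈ N := hstrip (mem_lowPart.mpr ⟨hz.1.le.trans (C.le_t x1 H1.mem), by omega⟩)
  have f1 := (chart_cov C H hzN H1.mem).mp hz
  have f2 := (chart_cov C H hzN hy1N).mp hz1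
  rw [hc1] at f2
  have f3 : co z = (1, (co x1).2) := by
    rcases f1 with f1 | f1 <;> rcases f2 with f2 | f2 <;>
      · have g1 := f1.1
        have g2 := f1.2
        have g3 := f2.1
        have g4 := f2.2
        simp only at g1 g2 g3 g4
        first
          | exact Prod.ext (by simp only; omega) (by simp only; omega)
          | omega
  have := H1.lt z hzN (by rw [f3])
  rw [f3] at this
  simp only at this
  omega

/-- a side element has one ancestor on every level `k ≤ j` -/
theorem Side.nab_one (hS : RowT S) (C : Chart t S N co) (H : Gr P r)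
    (hg : ∀ l, l < j → Win.Good P l) (hstrip : lowPart j t ⊆ N) (h1 : ∃ y ∈ N, 1 ≤ (co y).1)
    {x : P} (hx : Side S N co x) {k : ℕ} (hk : k ≤ j) (hkx : k ≤ lev x) : nab k x = 1 := by
  have hcell : ∀ y ∈ N, (co y).1 = 0 → k ≤ lev y → nab k y = 1 := by
    intro y hy hy0 hky
    have hly := C.lev y hy
    have h2 : cellsAt S k (co y) = {0} := by
      ext a
      rw [mem_cellsAt, mem_singleton]
      constructor
      · rintro ⟨h3, -⟩
        omega
      · rintro rfl
        exact ⟨Nat.zero_le _, Nat.zero_le _, by omega, hS.zero _⟩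
    rw [nab_chart C hy k, h2, Finset.card_singleton]
  rcases hx with hx | hx
  · obtain ⟨x1, H1, hj⟩ := mem_junk.mp hx
    have h2 := end_lev hS C H hg hstrip h1 H1
    rw [← hcell x1 H1.mem H1.fst (by omega)]
    classical
    unfold nab
    congr 1
    ext y
    rw [mem_filter, mem_filter, mem_lv]
    refine and_congr_right fun hy => ⟨fun hxy => ?_, fun hy1 => (mem_jset.mp hj).1.le.trans hy1⟩
    rcases (mem_jset.mp hj).2 y hxy with h3 | h3
    · rcases eq_or_lt_of_le h3 with h4 | h4
      · rw [h4]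
      · have := lev_strictAnti h4
        omega
    · exact h3
  · exact hcell x hx.1 hx.2 hkx

end

end Pool.Agent.GaussPoset
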