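import Pool.Agent.W_448s7_h5.SevK

/-!
# The windows of S7: natural elements and twins (MP_448cb3_co)
-/

namespace Pool.Agent.GaussPoset

set_option linter.unusedSectionVars false

open Polynomial Finset

universe u

variable {P : Type u} [Fintype P] [PartialOrder P] [DecidableEq P] {r j w : ℕ}
  {N : Tops P → Finset P} {b : Tops P → ℕ} {θ : Tops P → P → ℕ}

/-- window `w ≤ 3` of S7 -/
structure Wn (r j w : ℕ) (N : Tops P → Finset P) (b : Tops P → ℕ) (θ : Tops P → P → ℕ) :
    Prop where
  gt : Win.GoodTo P r j
  hj : 17 ≤ j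
  hw : w ≤ 3
  typ : ∀ t, TypeX j w t (b t) (N t) (θ t)
  top : ∀ t, TopType j w t (b t) (N t) (θ t)
  sum_b : ∑ t, b t = (lv P w).card

lemma Wn.natSys (W : Wn r j w N b θ) : NatSys N :=
  (farData_of_types (jt := fun _ => j) W.gt.H.gradedBelow W.top).1

lemma Wn.low (W : Wn r j w N b θ) {x : P} (hx : lev x ≤ j) : x ∉ unnat N := by
  intro h
  refine mem_unnat.mp h (topOf x) ?_
  rcases W.typ (topOf x) with ⟨h1, h2, h3, h5⟩ | ⟨Nc, co, h0, h1, h2, h4⟩ |
    ⟨Nc, co, h0, h1, h2, h3, h4, h5⟩
  · rw [h1]; exact h5 x (le_topOf x) hx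
  · rw [h1]; exact mem_natR.mpr (Or.inl (h0.strip (mem_lowPart.mpr ⟨le_topOf x, hx⟩)))
  · rw [h1]; exact mem_natS.mpr (Or.inl (h0.strip (mem_lowPart.mpr ⟨le_topOf x, hx⟩)))

lemma Wn.lt_lev (W : Wn r j w N b θ) {x : P} (hx : x ∈ unnat N) : j < lev x := by
  by_contra hcon
  exact W.low (not_lt.mp hcon) hx

lemma Wn.up (W : Wn r j w N b θ) {x y : P} (hx : x ∉ unnat N) (hxy : x ≤ y) :
    y ∉ unnat N ∧ topOf y = topOf x := by
  have HN := W.natSys
  exact ⟨fun h => hx (HN.lower x y hxy h), (HN.cp x y hxy hx).symm⟩

/-- straight natural elements -/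
structure Str (w : ℕ) (N : Tops P → Finset P) (θ : Tops P → P → ℕ) (x : P) : Prop where
  th : θ (topOf x) x = lev x - w
  tw : ∀ z ∈ unnat N, ¬ ∀ y, x < y ↔ z < y

/-- cells of row `1` -/
structure Row1 (j w : ℕ) (N : Tops P → Finset P) (θ : Tops P → P → ℕ) (x : P) : Prop where
  one_le : 1 ≤ w
  dbl : (Win.uc x).card = 2
  nopen : lev x = j → ∀ z, z ⋖ x → ¬ ∀ y, z ⋖ y → y = x
  th : θ (topOf x) x + 1 = lev x - w
  nab : ∀ k, w ≤ k → k < lev x → nab k x = 2
  mono : ∀ y, x < y → θ (topOf y) y ≤ θ (topOf x) x + 1

/-- deep cells -/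
structure Dp (j w : ℕ) (N : Tops P → Finset P) (θ : Tops P → P → ℕ) (x : P) : Prop where
  one_le : 1 ≤ w
  th : θ (topOf x) x + 1 ≤ lev x - w
  th3 : lev x - w ≤ θ (topOf x) x + 3
  mono : ∀ y, x < y → θ (topOf y) y ≤ θ (topOf x) x + 1
  cost : j + 1 ≤ lev x → cap j w + 1 < cst w (fun _ => θ (topOf x) x + 1) x +
    (θ (topOf x) x + 1)

/-- the threshold of a cell of a rectangle-like chart -/
lemma rect_th {t : Tops P} {c : ℕ} {Nc : Finset P} {co : P → ℕ × ℕ} (R : RectNat j w t c Nc co)
    (hw : w ≤ 3) {x : P} (hx : x ∈ Nc)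
    (hJ : ¬ (x ∈ junk (fun _ => True) Nc co ∨ x ∈ junk (fun _ => True) Nc (swp co)))
    (hl : 17 ≤ lev x) :
    thR w c Nc co x + min (min (co x).1 (co x).2) w = lev x - w := by
  have h1 := R.chart.lev x hx
  have h2 := R.b_two
  have h3 := R.b_le
  have h4 : c = w + 1 ∨ (co x).1 ≤ c - 1 := R.rows.imp id fun h => h x hx
  unfold thR
  rw [if_neg hJ]
  omega

/-- the threshold of a cell of a stair-like chart -/
lemma stair_th {t : Tops P} {Nc : Finset P} {co : P → ℕ × ℕ} (R : StairNat j w t Nc co)
    (hw : w ≤ 3) (hw2 : 2 ≤ w) {x : P} (hx : x ∈ Nc)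
    (hJ : x ∉ junk (fun c => c.1 ≤ c.2) Nc co) (hl : 17 ≤ lev x) :
    thS w Nc co x + min (co x).1 2 = lev x - w := by
  have h1 := R.chart.lev x hx
  have h2 : (co x).1 ≤ (co x).2 := R.chart.mem x hx
  unfold thS
  rw [if_neg hJ]
  omega

/-- ancestors of an inner cell are not junk -/
lemma not_junk_above {t : P} {S : ℕ × ℕ → Prop} {Nc : Finset P} {co : P → ℕ × ℕ}
    (C : Chart t S Nc co) {x y : P} (hx : x ∈ Nc) (h1 : 1 ≤ (co x).1) (hxy : x ≤ y) :
    y ∉ junk S Nc co := by
  intro hy
  obtain ⟨x1, H1, hj⟩ := mem_junk.mp hy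
  have h2 := (C.le_iff x hx x1 H1.mem).mp (hxy.trans (mem_jset.mp hj).1.le)
  have h3 := H1.lt x hx h1
  have h4 : (co x1).2 ≤ (co x).2 := h2.2
  omega

/-- the four kinds of data of a rectangle-like component -/
lemma RectNat.one1 {t : Tops P} {c : ℕ} {Nc : Finset P} {co : P → ℕ × ℕ}
    (R : RectNat j w t c Nc co) : ∃ y ∈ Nc, 1 ≤ (co y).1 := by
  obtain ⟨y, hy, hc⟩ := R.cell
  have := R.b_two
  exact ⟨y, hy, by rw [hc]; simp only; omega⟩

lemma RectNat.one2 {t : Tops P} {c : ℕ} {Nc : Finset P} {co : P → ℕ × ℕ}
    (R : RectNat j w t c Nc co) : ∃ y ∈ Nc, 1 ≤ (swp co y).1 := by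
  obtain ⟨y, hy, hc⟩ := R.cell
  have := R.b_two
  have := R.b_le
  exact ⟨y, hy, by rw [swp_fst, hc]; simp only; omega⟩

lemma StairNat.one1 {t : Tops P} {Nc : Finset P} {co : P → ℕ × ℕ}
    (R : StairNat j w t Nc co) (hw : 2 ≤ w) : ∃ y ∈ Nc, 1 ≤ (co y).1 := by
  obtain ⟨y, hy, hc⟩ := R.cell
  exact ⟨y, hy, by rw [hc]; simp only; omega⟩

/-- a cell of a stair-like chart between row `0` and the diagonal has two covers -/
lemma stair_inner_uc {t : P} {Nc : Finset P} {co : P → ℕ × ℕ}
    (C : Chart t (fun c => c.1 ≤ c.2) Nc co) (H : Gr P r) {x : P} (hx : x ∈ Nc)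
    (h1 : 1 ≤ (co x).1) (h2 : (co x).1 < (co x).2) : (Win.uc x).card = 2 := by
  classical
  obtain ⟨y1, hy1, hc1⟩ := C.low x hx ((co x).1 - 1, (co x).2)
    ⟨Nat.sub_le _ _, le_rfl⟩ (show (co x).1 - 1 ≤ (co x).2 by omega)
  obtain ⟨y2, hy2, hc2⟩ := C.low x hx ((co x).1, (co x).2 - 1)
    ⟨le_rfl, Nat.sub_le _ _⟩ (show (co x).1 ≤ (co x).2 - 1 by omega)
  have e1 : x ⋖ y1 := by
    rw [chart_cov C H hx hy1, hc1]
    exact Or.inl ⟨by simp only; omega, rfl⟩
  have e2 : x ⋖ y2 := by
    rw [chart_cov C H hx hy2, hc2]
    exact Or.inr ⟨rfl, by simp only; omega⟩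
  have hne : y1 ≠ y2 := by
    rintro rfl
    rw [hc1] at hc2
    simp only [Prod.mk.injEq] at hc2
    omega
  have h3 : ({y1, y2} : Finset P) ⊆ Win.uc x := by
    intro y hy
    rw [mem_insert, mem_singleton] at hy
    rcases hy with rfl | rfl
    · exact Win.mem_uc.mpr e1
    · exact Win.mem_uc.mpr e2
  have h4 := Finset.card_le_card h3
  rw [Finset.card_pair hne] at h4
  have := Win.uc_card_le H x
  omega

/-- the kinds of natural elements of level at least `j` -/
theorem Wn.cases (W : Wn r j w N b θ) {x : P} (hx : x ∉ unnat N) (hlx : j ≤ lev x) :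
    Str w N θ x ∨ Row1 j w N θ x ∨ Dp j w N θ x := by
  have H := W.gt.H
  have HN := W.natSys
  have hxt : x ∈ N (topOf x) := HN.mem_iff.mpr ⟨hx, rfl⟩
  have hj := W.hj
  have hw := W.hw
  have hT := W.typ (topOf x)
  generalize ht : topOf x = t at hxt hT
  rcases hT with ⟨h1, h2, h3, h5⟩ | ⟨Nc, co, h0, h1, h2, h4⟩ |
    ⟨Nc, co, h0, h1, h2, h3, h4, h5'⟩
  · left
    refine ⟨by rw [ht, h2], ?_⟩
    intro z hz h
    have h7 : z ∉ onlyB t := by
      rw [← h1]
      exact mem_unnat.mp hz t
    rw [mem_onlyB] at h7
    push Not at h7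
    obtain ⟨s, hs1, hs2, hs3⟩ := h7
    have h7 := W.lt_lev hz
    have h8 : z < s := lt_of_le_of_ne hs2 (by rintro rfl; omega)
    exact hs3 (HN.top_eq hxt hs1 ((h s).mpr h8).le)
  · have e1 := h0.b_two
    have e2 := h0.b_le
    have hxN' : x ∈ natR Nc co := by rw [← h1]; exact hxt
    by_cases hJ : x ∈ junk (fun _ => True) Nc co ∨ x ∈ junk (fun _ => True) Nc (swp co)
    · left
      refine ⟨?_, ?_⟩
      · rw [ht, h2]
        unfold thR
        rw [if_pos hJ]
      · intro z hz h
        refine mem_unnat.mp hz t ?_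
        rw [h1, mem_natR]
        rcases hJ with h' | h'
        · exact Or.inr (Or.inl (junk_twin h' h))
        · exact Or.inr (Or.inr (junk_twin h' h))
    · have hxN : x ∈ Nc := by
        rw [mem_natR] at hxN'
        rcases hxN' with h | h | h
        · exact h
        · exact absurd (Or.inl h) hJ
        · exact absurd (Or.inr h) hJ
      have hl := h0.chart.lev x hxN
      have hth := rect_th h0 hw hxN hJ (by omega)
      -- thresholds above `x`
      have hmono : 1 ≤ (co x).1 → 1 ≤ (co x).2 → ∀ y, x < y → θ (topOf y) y ≤ θ t x + 1 := by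
        intro g1 g2 y hxy
        have hy := h0.chart.up x hxN y hxy.le
        have hyt : topOf y = t := by
          have := (W.up hx hxy.le).2
          rw [this, ht]
        have hy1 := not_junk_above h0.chart hxN g1 hxy.le
        have hy2 := not_junk_above h0.chart.swap hxN g2 hxy.le
        have hle := (h0.chart.le_iff x hxN y hy).mp hxy.le
        have hle1 : (co y).1 ≤ (co x).1 := hle.1
        have hle2 : (co y).2 ≤ (co x).2 := hle.2
        rw [hyt, h2]
        unfold thR
        rw [if_neg (by rintro (h | h); exacts [hy1 h, hy2 h]), if_neg hJ]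
        omega
      by_cases h7 : (co x).1 = 0 ∨ (co x).2 = 0
      · left
        refine ⟨?_, ?_⟩
        · rw [ht, h2]
          omega
        · intro z hz h
          rcases h7 with h7 | h7
          · obtain ⟨u, hu, hcu⟩ := h0.chart.low x hxN (0, (co x).2 - 1)
              ⟨Nat.zero_le _, Nat.sub_le _ _⟩ trivial
            refine straight_twin H h0 h1 hxN hu ?_ ?_ ?_ hz h
            · rw [hcu]
              exact Or.inr ⟨by simp only; omega, by simp only; omega⟩
            · intro y hy hp
              rw [hcu]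
              rcases hp with hp | hp
              · omega
              · exact Prod.ext (by simp only; omega) (by simp only; omega)
            · rw [hcu]
              exact Or.inl rfl
          · obtain ⟨u, hu, hcu⟩ := h0.chart.low x hxN ((co x).1 - 1, 0)
              ⟨Nat.sub_le _ _, Nat.zero_le _⟩ trivial
            refine straight_twin H h0 h1 hxN hu ?_ ?_ ?_ hz h
            · rw [hcu]
              exact Or.inl ⟨by simp only; omega, by simp only; omega⟩
            · intro y hy hp
              rw [hcu]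
              rcases hp with hp | hp
              · exact Prod.ext (by simp only; omega) (by simp only; omega)
              · omega
            · rw [hcu]
              exact Or.inr rfl
      · by_cases h8 : (co x).1 = 1 ∨ (co x).2 = 1
        · right; left
          refine ⟨by omega, chart_inner_uc h0.chart H hxN (by omega) (by omega), ?_, ?_, ?_, ?_⟩
          · intro hlx z hz
            exact h4 x z (h0.chart.le_t x hxN) hlx
              (chart_inner_uc h0.chart H hxN (by omega) (by omega)) hz
          · rw [ht, h2]; omega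
          · intro k hk hkx
            have := rect_nab h0.chart hxN (k := k) (by omega)
            omega
          · rw [ht]
            exact hmono (by omega) (by omega)
        · right; right
          refine ⟨by omega, ?_, ?_, ?_, ?_⟩
          · rw [ht, h2]; omega
          · rw [ht, h2]; omega
          · rw [ht]
            exact hmono (by omega) (by omega)
          · intro hlj
            rw [ht, h2]
            exact rect_deep h0.chart hxN hj (by omega) hw (by omega) (by omega) hlj (by omega)
  · have hxN' : x ∈ natS Nc co := by rw [← h1]; exact hxt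
    by_cases hJ : x ∈ junk (fun c => c.1 ≤ c.2) Nc co
    · left
      refine ⟨?_, ?_⟩
      · rw [ht, h2]
        unfold thS
        rw [if_pos hJ]
      · intro z hz h
        refine mem_unnat.mp hz t ?_
        rw [h1, mem_natS]
        exact Or.inr (junk_twin hJ h)
    · have hxN : x ∈ Nc := by
        rw [mem_natS] at hxN'
        rcases hxN' with h | h
        · exact h
        · exact absurd h hJ
      have hl := h0.chart.lev x hxN
      have hm : (co x).1 ≤ (co x).2 := h0.chart.mem x hxN
      have hth := stair_th h0 hw h4 hxN hJ (by omega)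
      have hmono : 1 ≤ (co x).1 → ∀ y, x < y → θ (topOf y) y ≤ θ t x + 1 := by
        intro g1 y hxy
        have hy := h0.chart.up x hxN y hxy.le
        have hyt : topOf y = t := by
          have := (W.up hx hxy.le).2
          rw [this, ht]
        have hy1 := not_junk_above h0.chart hxN g1 hxy.le
        have hle := (h0.chart.le_iff x hxN y hy).mp hxy.le
        have hle1 : (co y).1 ≤ (co x).1 := hle.1
        have hle2 : (co y).2 ≤ (co x).2 := hle.2
        rw [hyt, h2]
        unfold thS
        rw [if_neg hy1, if_neg hJ]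
        omega
      rcases Nat.lt_or_ge (co x).1 1 with h7 | h7
      · left
        refine ⟨?_, ?_⟩
        · rw [ht, h2]
          omega
        · intro z hz h
          obtain ⟨u, hu, hcu⟩ := h0.chart.low x hxN (0, (co x).2 - 1)
            ⟨Nat.zero_le _, Nat.sub_le _ _⟩ (Nat.zero_le _)
          have g1 : x ⋖ u := by
            rw [chart_cov h0.chart H hxN hu, hcu]
            exact Or.inr ⟨by simp only; omega, by simp only; omega⟩
          have g2 : z ⋖ u := (cov_of_up h).mp g1
          have g3 := stair_pendant H h0 (by omega) h1 hz (x := u)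
            (by rw [h1]; exact mem_natS.mpr (Or.inl hu)) g2 (by
            intro y hy
            have hy1 : x ⋖ y := (cov_of_up h).mpr hy
            have hyN := h0.chart.up x hxN y hy1.le
            refine h0.chart.inj y hyN u hu ?_
            rw [hcu]
            rcases (chart_cov h0.chart H hxN hyN).mp hy1 with hp | hp
            · omega
            · exact Prod.ext (by simp only; omega) (by simp only; omega))
          have g4 := g3.2.2
          rw [hcu] at g4
          simp only at g4
          omega
      · rcases Nat.lt_or_ge (co x).1 2 with h8 | h8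
        · right; left
          have hd := stair_inner_uc h0.chart H hxN h7 (by omega)
          refine ⟨by omega, hd, ?_, ?_, ?_, ?_⟩
          · intro hlx z hz hon
            have := h5' x z (h0.chart.le_t x hxN) hlx hd hz hon
            omega
          · rw [ht, h2]; omega
          · intro k hk hkx
            have := stair_nab h0.chart hxN (k := k) (by omega)
            omega
          · rw [ht]
            exact hmono h7
        · right; right
          refine ⟨by omega, ?_, ?_, ?_, ?_⟩
          · rw [ht, h2]; omega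
          · rw [ht, h2]; omega
          · rw [ht]
            exact hmono h7
          · intro hlj
            rw [ht, h2]
            exact stair_deep h0.chart hxN hj (by omega) h8 hlj (by omega)

end Pool.Agent.GaussPoset
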