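import Pool.Agent.W_448s7_h5.SevN

/-!
# The windows of S7: neighbouring covers, pendants of row `1` (MP_448cb3_co)
-/

namespace Pool.Agent.GaussPoset

set_option linter.unusedSectionVars false

open Polynomial Finset

universe u

variable {P : Type u} [Fintype P] [PartialOrder P] [DecidableEq P] {r j w : ℕ}
  {N : Tops P → Finset P} {b : Tops P → ℕ} {θ : Tops P → P → ℕ}

section Chart

variable {t : P} {S : ℕ × ℕ → Prop} {Nc : Finset P} {co : P → ℕ × ℕ}

/-- the exact covers of an element with two covers -/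
lemma uc_two_of (H : Gr P r) {z x x' : P} (hzx : z ⋖ x) (hzx' : z ⋖ x') (hne : x ≠ x') :
    ∀ y, z ⋖ y → y = x ∨ y = x' := by
  intro y hy
  by_contra hcon
  push Not at hcon
  exact Win.uc_three H hy hzx hzx' hcon.1 hcon.2 hne

/-- twins from equal pairs of covers -/
lemma twin_of_pair (H : Gr P r) {y z x x' : P} (hyx : y ⋖ x) (hyx' : y ⋖ x') (hzx : z ⋖ x)
    (hzx' : z ⋖ x') (hne : x ≠ x') : ∀ v, y < v ↔ z < v := by
  refine up_of_cov fun v => ?_
  constructor
  · intro h
    rcases uc_two_of H hyx hyx' hne v h with h1 | h1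
    · rw [h1]; exact hzx
    · rw [h1]; exact hzx'
  · intro h
    rcases uc_two_of H hzx hzx' hne v h with h1 | h1
    · rw [h1]; exact hyx
    · rw [h1]; exact hyx'

/-- an element below two neighbours of a maximal chart (or its junk) has a twin in the chart or is
junk -/
theorem adj_core (hS : RowT S) (hSq : ∀ s c, S (s, c) → S (s + 1, c + 1)) (C : Chart t S Nc co)
    (Mx : MaxChart S Nc co) (H : Gr P r) (h1 : ∃ y ∈ Nc, 1 ≤ (co y).1) {z x x' p : P}
    (hzN : z ∉ Nc) (hx : x ∈ Nc ∨ x ∈ junk S Nc co) (hx' : x' ∈ Nc ∨ x' ∈ junk S Nc co)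
    (hzx : z ⋖ x) (hzx' : z ⋖ x') (hne : x ≠ x') (hp : x ⋖ p) (hp' : x' ⋖ p) :
    (∃ y ∈ Nc, ∀ v, y < v ↔ z < v) ∨ z ∈ junk S Nc co := by
  have hl : lev x = lev x' := by
    have e1 := (H.covBy_iff.mp hzx).2
    have e2 := (H.covBy_iff.mp hzx').2
    omega
  have huni := uc_two_of H hzx hzx' hne
  have side : ∀ (x x' : P), x ∈ junk S Nc co → (x' ∈ Nc ∨ x' ∈ junk S Nc co) → x ⋖ p → x' ⋖ p →
      Side S Nc co x' := by
    intro x x' hx hx' hp hp'
    rcases hx' with h | h
    · obtain ⟨x1, H1, hj⟩ := mem_junk.mp hx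
      have h2 : p ≤ x1 := by
        rcases (mem_jset.mp hj).2 p hp.1.le with h3 | h3
        · exact h3
        · rcases eq_or_lt_of_le h3 with h4 | h4
          · rw [h4]
          · exact absurd h4 (hp.2 (mem_jset.mp hj).1)
      exact Or.inl (mem_junk.mpr ⟨x1, H1, (H1.tail C h (hp'.1.trans_le h2)).2⟩)
    · exact Or.inl h
  by_cases hj : x ∈ junk S Nc co
  · right
    exact junk_of_sides hS C h1 (Or.inl hj) (side x x' hj hx' hp hp') hne hl huni hzx
  · by_cases hj' : x' ∈ junk S Nc co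
    · right
      exact junk_of_sides hS C h1 (side x' x hj' hx hp' hp) (Or.inl hj') hne hl huni hzx
    · left
      have hxN : x ∈ Nc := hx.resolve_right hj
      have hxN' : x' ∈ Nc := hx'.resolve_right hj'
      have hpN := C.up x hxN p hp.1.le
      have f1 := (chart_cov C H hxN hpN).mp hp
      have f2 := (chart_cov C H hxN' hpN).mp hp'
      have hcne : co x ≠ co x' := fun h => hne (C.inj x hxN x' hxN' h)
      have hSp := C.mem p hpN
      have hSp' : S ((co p).1 + 1, (co p).2 + 1) := hSq _ _ hSp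
      rcases f1 with f1 | f1 <;> rcases f2 with f2 | f2
      · exact absurd (Prod.ext (by omega) (by omega)) hcne
      · obtain ⟨y, hy, -, hyx, hyx', -⟩ := max_pair C Mx H hzN hxN hxN' hzx hzx'
          (s := (co p).1) (c := (co p).2) (Prod.ext f1.1 f1.2) (Prod.ext f2.1 f2.2) hSp'
        exact ⟨y, hy, twin_of_pair H hyx hyx' hzx hzx' hne⟩
      · obtain ⟨y, hy, -, hyx', hyx, -⟩ := max_pair C Mx H hzN hxN' hxN hzx' hzx
          (s := (co p).1) (c := (co p).2) (Prod.ext f2.1 f2.2) (Prod.ext f1.1 f1.2) hSp'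
        exact ⟨y, hy, twin_of_pair H hyx hyx' hzx hzx' hne⟩
      · exact absurd (Prod.ext (by omega) (by omega)) hcne

end Chart

/-- a pendant has a twin if its cover has a natural pendant -/
lemma twin_of_single {y z x : P} (hyx : ∀ v, y ⋖ v ↔ v = x) (hzx : ∀ v, z ⋖ v ↔ v = x) :
    ∀ v, y < v ↔ z < v :=
  up_of_cov fun v => by rw [hyx, hzx]

/-- an element of the far set is not below two neighbours with a common cover -/
theorem Wn.no_adj (W : Wn r j w N b θ) {z x x' p : P} (hz : z ∈ rA N) (hx : x ∉ unnat N)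
    (hx' : x' ∉ unnat N) (hzx : z ⋖ x) (hzx' : z ⋖ x') (hne : x ≠ x') (hp : x ⋖ p)
    (hp' : x' ⋖ p) : False := by
  have H := W.gt.H
  have HN := W.natSys
  have hzu := (mem_rA.mp hz).1
  have hzt : ∀ y, y ∉ unnat N → ¬ ∀ v, y < v ↔ z < v := fun y hy h =>
    (mem_rA.mp hz).2 (mem_twA.mpr ⟨hzu, y, hy, h⟩)
  have t1 := (W.up hx hp.1.le).2
  have t2 := (W.up hx' hp'.1.le).2
  have huni := uc_two_of H hzx hzx' hne
  have hxt : x ∈ N (topOf x) := HN.mem_iff.mpr ⟨hx, rfl⟩
  have hxt' : x' ∈ N (topOf x) := HN.mem_iff.mpr ⟨hx', by rw [← t2, t1]⟩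
  have hzN := mem_unnat.mp hzu (topOf x)
  have hnat : ∀ y ∈ N (topOf x), y ∉ unnat N := fun y hy => (HN.mem_iff.mp hy).1
  generalize topOf x = t at hxt hxt' hzN hnat
  rcases W.typ t with ⟨h1, h2, h3, h5⟩ | ⟨Nc, co, h0, h1, h2, h4⟩ |
    ⟨Nc, co, h0, h1, h2, h3, h4, h5'⟩
  · apply hzN
    rw [h1] at hxt hxt' ⊢
    rw [mem_onlyB] at hxt hxt' ⊢
    intro s hs hzs
    have hzs' : z < s := lt_of_le_of_ne hzs (by
      intro h
      have := lev_strictAnti hzx.1
      rw [h] at this
      omega)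
    obtain ⟨v, hv, hvs⟩ := Hul.exists_cov hzs'
    rcases huni v hv with h | h
    · exact hxt s hs (h ▸ hvs)
    · exact hxt' s hs (h ▸ hvs)
  · rw [h1] at hxt hxt' hzN
    rw [mem_natR] at hxt hxt'
    have hzN1 : z ∉ Nc := fun h => hzN (mem_natR.mpr (Or.inl h))
    have hzN2 : z ∉ junk (fun _ => True) Nc co := fun h => hzN (mem_natR.mpr (Or.inr (Or.inl h)))
    have hzN3 : z ∉ junk (fun _ => True) Nc (swp co) :=
      fun h => hzN (mem_natR.mpr (Or.inr (Or.inr h)))
    have g1 := h0.one1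
    have g2 := h0.one2
    -- both in one orientation
    have fin1 : (x ∈ Nc ∨ x ∈ junk (fun _ => True) Nc co) →
        (x' ∈ Nc ∨ x' ∈ junk (fun _ => True) Nc co) → False := by
      intro e1 e2
      rcases adj_core rowT_true (fun _ _ _ => trivial) h0.chart h0.max H g1 hzN1 e1 e2 hzx hzx' hne
        hp hp' with ⟨y, hy, h⟩ | h
      · exact hzt y (hnat y (by rw [h1]; exact mem_natR.mpr (Or.inl hy))) h
      · exact hzN2 h
    have fin2 : (x ∈ Nc ∨ x ∈ junk (fun _ => True) Nc (swp co)) →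
        (x' ∈ Nc ∨ x' ∈ junk (fun _ => True) Nc (swp co)) → False := by
      intro e1 e2
      rcases adj_core rowT_true (fun _ _ _ => trivial) h0.chart.swap h0.max.swap H g2 hzN1 e1 e2
        hzx hzx' hne hp hp' with ⟨y, hy, h⟩ | h
      · exact hzt y (hnat y (by rw [h1]; exact mem_natR.mpr (Or.inl hy))) h
      · exact hzN3 h
    -- no common cover across
    have across : ∀ (a c : P), a ∈ junk (fun _ => True) Nc co →
        c ∈ junk (fun _ => True) Nc (swp co) → a ⋖ p → c ⋖ p → False := by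
      intro a c ha hc hap hcp
      obtain ⟨x1, H1, hj⟩ := mem_junk.mp ha
      obtain ⟨x2, H2, hj2⟩ := mem_junk.mp hc
      have h2 : p ≤ x1 := by
        rcases (mem_jset.mp hj).2 p hap.1.le with h3 | h3
        · exact h3
        · rcases eq_or_lt_of_le h3 with h4 | h4
          · rw [h4]
          · exact absurd h4 (hap.2 (mem_jset.mp hj).1)
      exact junk_cross h0.chart g1 g2 H1 H2 hj2 (hcp.1.trans_le h2)
    rcases hxt with e | e | e
    · rcases hxt' with e' | e' | e'
      · exact fin1 (Or.inl e) (Or.inl e')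
      · exact fin1 (Or.inl e) (Or.inr e')
      · exact fin2 (Or.inl e) (Or.inr e')
    · rcases hxt' with e' | e' | e'
      · exact fin1 (Or.inr e) (Or.inl e')
      · exact fin1 (Or.inr e) (Or.inr e')
      · exact across x x' e e' hp hp'
    · rcases hxt' with e' | e' | e'
      · exact fin2 (Or.inr e) (Or.inl e')
      · exact across x' x e' e hp' hp
      · exact fin2 (Or.inr e) (Or.inr e')
  · rw [h1] at hxt hxt' hzN
    rw [mem_natS] at hxt hxt'
    have hzN1 : z ∉ Nc := fun h => hzN (mem_natS.mpr (Or.inl h))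
    have hzN2 : z ∉ junk (fun c => c.1 ≤ c.2) Nc co := fun h => hzN (mem_natS.mpr (Or.inr h))
    rcases adj_core rowT_shift (fun s c h => by simpa using h) h0.chart h0.max H (h0.one1 h4) hzN1
      hxt hxt' hzx hzx' hne hp hp' with ⟨y, hy, h⟩ | h
    · exact hzt y (hnat y (by rw [h1]; exact mem_natS.mpr (Or.inl hy))) h
    · exact hzN2 h

end Pool.Agent.GaussPoset
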