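import Pool.Agent.W_448s7_h5.SevO

/-!
# The windows of S7: elements below a cell of row `1` (MP_448cb3_co)
-/

namespace Pool.Agent.GaussPoset

set_option linter.unusedSectionVars false

open Polynomial Finset

universe u

variable {P : Type u} [Fintype P] [PartialOrder P] [DecidableEq P] {r j w : ℕ}
  {N : Tops P → Finset P} {b : Tops P → ℕ} {θ : Tops P → P → ℕ}

/-- ancestors of an element with one cover -/
lemma nab_only {z x : P} (honly : ∀ y, z ⋖ y → y = x) (hzx : z ⋖ x) {k : ℕ} (hk : k < lev z) :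
    nab k z = nab k x := by
  classical
  unfold nab
  congr 1
  ext y
  rw [mem_filter, mem_filter, mem_lv]
  refine and_congr_right fun hy => ⟨fun h => ?_, fun h => hzx.1.le.trans h⟩
  exact anc_of_only honly (lt_of_le_of_ne h (by rintro rfl; omega))

/-- straight elements of a rectangle-like component are on a side -/
lemma rect_str {t : Tops P} {c : ℕ} {Nc : Finset P} {co : P → ℕ × ℕ} (R : RectNat j w t c Nc co)
    (hw : w ≤ 3) {x : P} (hx : x ∈ natR Nc co) (hl : 17 ≤ lev x)
    (hth : thR w c Nc co x = lev x - w) :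
    Side (fun _ => True) Nc co x ∨ Side (fun _ => True) Nc (swp co) x := by
  have e1 := R.b_two
  have e2 := R.b_le
  by_cases hJ : x ∈ junk (fun _ => True) Nc co ∨ x ∈ junk (fun _ => True) Nc (swp co)
  · rcases hJ with h | h
    · exact Or.inl (Or.inl h)
    · exact Or.inr (Or.inl h)
  · have hxN : x ∈ Nc := by
      rw [mem_natR] at hx
      rcases hx with h | h | h
      · exact h
      · exact absurd (Or.inl h) hJ
      · exact absurd (Or.inr h) hJ
    have h1 := rect_th R hw hxN hJ hl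
    have h2 : (co x).1 = 0 ∨ (co x).2 = 0 := by omega
    rcases h2 with h | h
    · exact Or.inl (Or.inr ⟨hxN, h⟩)
    · exact Or.inr (Or.inr ⟨hxN, h⟩)

/-- row 1 of a rectangle-like component -/
lemma rect_row1 {t : Tops P} {c : ℕ} {Nc : Finset P} {co : P → ℕ × ℕ} (R : RectNat j w t c Nc co)
    (hw : w ≤ 3) {x : P} (hx : x ∈ natR Nc co) (hl : 17 ≤ lev x)
    (hth : thR w c Nc co x + 1 = lev x - w) (hn : nab 3 x = 2) :
    x ∈ Nc ∧ 1 ≤ (co x).1 ∧ 1 ≤ (co x).2 ∧ ((co x).1 = 1 ∨ (co x).2 = 1) := by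
  have e1 := R.b_two
  have e2 := R.b_le
  have hJ : ¬ (x ∈ junk (fun _ => True) Nc co ∨ x ∈ junk (fun _ => True) Nc (swp co)) := by
    intro h
    unfold thR at hth
    rw [if_pos h] at hth
    omega
  have hxN : x ∈ Nc := by
    rw [mem_natR] at hx
    rcases hx with h | h | h
    · exact h
    · exact absurd (Or.inl h) hJ
    · exact absurd (Or.inr h) hJ
  have h1 := rect_th R hw hxN hJ hl
  have h3 := rect_nab R.chart hxN (k := 3) (by omega)
  have h4 := R.chart.lev x hxN
  refine ⟨hxN, by omega, by omega, by omega⟩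

/-- straight elements of a stair-like component -/
lemma stair_str {t : Tops P} {Nc : Finset P} {co : P → ℕ × ℕ} (R : StairNat j w t Nc co)
    (hw : w ≤ 3) (hw2 : 2 ≤ w) {x : P} (hx : x ∈ natS Nc co) (hl : 17 ≤ lev x)
    (hth : thS w Nc co x = lev x - w) : Side (fun c => c.1 ≤ c.2) Nc co x := by
  by_cases hJ : x ∈ junk (fun c => c.1 ≤ c.2) Nc co
  · exact Or.inl hJ
  · have hxN : x ∈ Nc := by
      rw [mem_natS] at hx
      exact hx.resolve_right hJ
    have h1 := stair_th R hw hw2 hxN hJ hl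
    exact Or.inr ⟨hxN, by omega⟩

/-- row 1 of a stair-like component -/
lemma stair_row1 {t : Tops P} {Nc : Finset P} {co : P → ℕ × ℕ} (R : StairNat j w t Nc co)
    (hw : w ≤ 3) (hw2 : 2 ≤ w) {x : P} (hx : x ∈ natS Nc co) (hl : 17 ≤ lev x)
    (hth : thS w Nc co x + 1 = lev x - w) : x ∈ Nc ∧ (co x).1 = 1 := by
  have hJ : x ∉ junk (fun c => c.1 ≤ c.2) Nc co := by
    intro h
    unfold thS at hth
    rw [if_pos h] at hth
    omega
  have hxN : x ∈ Nc := by
    rw [mem_natS] at hx
    exact hx.resolve_right hJ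
  have h1 := stair_th R hw hw2 hxN hJ hl
  exact ⟨hxN, by omega⟩

/-- three elements above a cell of row `1` and an element on the other side -/
lemma three_above {t : Tops P} {Nc : Finset P} {co : P → ℕ × ℕ}
    (C : Chart (t : P) (fun _ => True) Nc co) (g2 : ∃ y ∈ Nc, 1 ≤ (co y).2)
    {z x q : P} (hx : x ∈ Nc) (hzx : z ≤ x) (h1 : (co x).1 = 1) {k : ℕ} (hk2 : 2 ≤ k)
    (hkx : k < lev x) (hq : Side (fun _ => True) Nc (swp co) q) (hzq : z ≤ q) (hlq : lev q = k) :
    3 ≤ nab k z := by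
  classical
  have hl := C.lev x hx
  obtain ⟨y1, hy1, hc1⟩ := C.low x hx (0, k) ⟨Nat.zero_le _, by simp only; omega⟩ trivial
  obtain ⟨y2, hy2, hc2⟩ := C.low x hx (1, k - 1)
    ⟨by simp only; omega, by simp only; omega⟩ trivial
  have hq0 : q ∈ Nc → (co q).2 = 0 := by
    intro hqN
    rcases hq with h | h
    · exact (junk_swp_fst C g2 h hqN).2
    · exact h.2
  have l1 := C.lev y1 hy1
  have l2 := C.lev y2 hy2
  rw [hc1] at l1
  rw [hc2] at l2
  simp only at l1 l2
  have a1 : x ≤ y1 := by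
    rw [C.le_iff x hx y1 hy1, hc1]
    exact ⟨Nat.zero_le _, by simp only; omega⟩
  have a2 : x ≤ y2 := by
    rw [C.le_iff x hx y2 hy2, hc2]
    exact ⟨by simp only; omega, by simp only; omega⟩
  have n1 : y1 ≠ y2 := by
    rintro rfl
    rw [hc1] at hc2
    simp at hc2
  have n2 : q ≠ y1 := by
    rintro rfl
    have := hq0 hy1
    rw [hc1] at this
    simp only at this
    omega
  have n3 : q ≠ y2 := by
    rintro rfl
    have := hq0 hy2
    rw [hc2] at this
    simp only at this
    omega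
  have h3 : ({q, y1, y2} : Finset P) ⊆ (lv P k).filter (fun y => z ≤ y) := by
    intro y hy
    simp only [mem_insert, mem_singleton] at hy
    rw [mem_filter, mem_lv]
    rcases hy with rfl | rfl | rfl
    · exact ⟨hlq, hzq⟩
    · exact ⟨by omega, hzx.trans a1⟩
    · exact ⟨by omega, hzx.trans a2⟩
  have h4 := Finset.card_le_card h3
  rw [Finset.card_insert_of_notMem (by simp [n2, n3]), Finset.card_pair n1] at h4
  exact h4

/-- the core: a cell of row `1` and a natural element which is not deep, without a common cover -/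
lemma other_side {t : Tops P} {Nc : Finset P} {co : P → ℕ × ℕ} (H : Gr P r)
    (C : Chart (t : P) (fun _ => True) Nc co) (g2 : ∃ y ∈ Nc, 1 ≤ (co y).2)
    {z x x' : P} (hx : x ∈ Nc) (hzx : z ≤ x) (h1 : (co x).1 = 1) (h2 : 1 ≤ (co x).2)
    (hl : lev x = lev x') (hzx' : z ≤ x') (hne : x ≠ x')
    (hx' : Side (fun _ => True) Nc co x' ∨ Side (fun _ => True) Nc (swp co) x' ∨
      (x' ∈ Nc ∧ ((co x').1 = 1 ∨ (co x').2 = 1)))
    (hno : ∀ p, x ⋖ p → ¬ x' ⋖ p) {k : ℕ} (hk2 : 2 ≤ k) (hkx : k < lev x) : 3 ≤ nab k z := by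
  have hlx := C.lev x hx
  rcases hx' with h | h | ⟨h, h3⟩
  · exfalso
    obtain ⟨e1, e2⟩ := h.cell C hx h1 hl
    obtain ⟨p, hp, hcp⟩ := C.low x hx (0, (co x).2) ⟨Nat.zero_le _, le_rfl⟩ trivial
    refine hno p ?_ ?_
    · rw [chart_cov C H hx hp, hcp]
      exact Or.inl ⟨by simp only; omega, rfl⟩
    · rw [chart_cov C H e1 hp, hcp, e2]
      exact Or.inr ⟨rfl, rfl⟩
  · obtain ⟨q, hq1, hq2, hq3⟩ := exists_between H.gradedBelow (z := x') (s := (topOf x' : P))
      (le_topOf x') (l := k) (by have := (topOf x').2; omega) (by omega)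
    exact three_above C g2 hx hzx h1 hk2 hkx (h.up C.swap hq1) (hzx'.trans hq1) hq3
  · rcases h3 with h3 | h3
    · exfalso
      have hlx' := C.lev x' h
      exact hne (C.inj x hx x' h (Prod.ext (by omega) (by omega)))
    · have hlx' := C.lev x' h
      obtain ⟨q, hq, hcq⟩ := C.low x' h (k, 0) ⟨by simp only; omega, Nat.zero_le _⟩ trivial
      have hlq := C.lev q hq
      rw [hcq] at hlq
      simp only at hlq
      refine three_above C g2 hx hzx h1 hk2 hkx (Or.inr ⟨hq, by rw [swp_fst, hcq]⟩) (q := q)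
        (hzx'.trans ?_) (by omega)
      rw [C.le_iff x' h q hq, hcq]
      exact ⟨by simp only; omega, Nat.zero_le _⟩

/-- two covers of the level `j` of an element of the far set have one cover each -/
lemma Wn.near (W : Wn r j w N b θ) {z x x' : P} (hz : z ∈ rA N) (hl : lev z = j + 1)
    (hzx : z ⋖ x) (hzx' : z ⋖ x') (hne : x ≠ x') :
    (Win.uc x).card = 1 ∧ (Win.uc x').card = 1 := by
  have hj := W.hj
  have H := W.gt.H
  obtain ⟨i, rfl⟩ : ∃ i, j = i + 1 := ⟨j - 1, by omega⟩
  rcases (Win.near_level' W.gt (by omega)).1 z x x' hl hzx hzx' hne with h | h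
  · exfalso
    obtain ⟨p, hp, hp'⟩ := Win.StA_of_ucv (v := x) (v' := x') (by omega)
    have e1 := (H.covBy_iff.mp hzx).2
    have e2 := (H.covBy_iff.mp hzx').2
    exact W.no_adj hz (W.low (by omega)) (W.low (by omega)) hzx hzx' hne hp hp'
  · exact ⟨h.1, h.2.1⟩

/-- three elements on the levels above -/
theorem Wn.row1_three (W : Wn r j w N b θ) {z x x' : P} (hz : z ∈ rA N) (hx : x ∉ unnat N)
    (hx' : x' ∉ unnat N) (hzx : z ⋖ x) (hzx' : z ⋖ x') (hne : x ≠ x') (hR : Row1 j w N θ x)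
    (hK : Str w N θ x' ∨ Row1 j w N θ x') {k : ℕ} (hk2 : 2 ≤ k) (hwk : w ≤ k) (hkx : k < lev x) :
    3 ≤ nab k z := by
  have H := W.gt.H
  have HN := W.natSys
  have hj := W.hj
  have hw := W.hw
  have hlz := W.lt_lev (mem_rA.mp hz).1
  have e1 := (H.covBy_iff.mp hzx).2
  have e2 := (H.covBy_iff.mp hzx').2
  have hxt : x ∈ N (topOf x) := HN.mem_iff.mpr ⟨hx, rfl⟩
  have hxt' : x' ∈ N (topOf x') := HN.mem_iff.mpr ⟨hx', rfl⟩
  have hR3 : nab 3 x = 2 := hR.nab 3 hw (by omega)
  have hRt := hR.th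
  by_cases htt : topOf x' = topOf x
  · have hno : ∀ p, x ⋖ p → ¬ x' ⋖ p := fun p hp hp' => W.no_adj hz hx hx' hzx hzx' hne hp hp'
    rw [htt] at hxt'
    have hth' : θ (topOf x) x' = lev x' - w ∨
        (θ (topOf x) x' + 1 = lev x' - w ∧ nab 3 x' = 2) := by
      rcases hK with h | h
      · left
        rw [← htt]
        exact h.th
      · right
        rw [← htt]
        exact ⟨h.th, h.nab 3 hw (by omega)⟩
    generalize topOf x = t at hxt hxt' hRt hth'
    rcases W.typ t with ⟨h1, h2, h3, h5⟩ | ⟨Nc, co, h0, h1, h2, h4⟩ |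
      ⟨Nc, co, h0, h1, h2, h3, h4, h5'⟩
    · exfalso
      rw [h2] at hRt
      simp only at hRt
      omega
    · rw [h1] at hxt hxt'
      rw [h2] at hRt hth'
      obtain ⟨f1, f2, f3, f4⟩ := rect_row1 h0 hw hxt (by omega) hRt hR3
      have hxs' : (Side (fun _ => True) Nc co x' ∨ Side (fun _ => True) Nc (swp co) x') ∨
          (x' ∈ Nc ∧ ((co x').1 = 1 ∨ (co x').2 = 1)) := by
        rcases hth' with h | ⟨h, h'⟩
        · exact Or.inl (rect_str h0 hw hxt' (by omega) h)
        · obtain ⟨a1, a2, a3, a4⟩ := rect_row1 h0 hw hxt' (by omega) h h'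
          exact Or.inr ⟨a1, a4⟩
      rcases f4 with f4 | f4
      · refine other_side H h0.chart h0.one2 f1 hzx.1.le f4 f3 (by omega) hzx'.1.le hne ?_ hno hk2
          hkx
        rcases hxs' with (h | h) | h
        · exact Or.inl h
        · exact Or.inr (Or.inl h)
        · exact Or.inr (Or.inr h)
      · refine other_side H h0.chart.swap h0.one1 f1 hzx.1.le f4 f2 (by omega) hzx'.1.le hne ?_
          hno hk2 hkx
        rcases hxs' with (h | h) | h
        · exact Or.inr (Or.inl h)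
        · exact Or.inl h
        · exact Or.inr (Or.inr ⟨h.1, h.2.symm⟩)
    · exfalso
      rw [h1] at hxt hxt'
      rw [h2] at hRt hth'
      obtain ⟨f1, f2⟩ := stair_row1 h0 hw h4 hxt (by omega) hRt
      rcases hth' with h | ⟨h, h'⟩
      · have h6 := stair_str h0 hw h4 hxt' (by omega) h
        obtain ⟨a1, a2⟩ := h6.cell h0.chart f1 f2 (by omega)
        obtain ⟨p, hp, hcp⟩ := h0.chart.low x f1 (0, (co x).2) ⟨Nat.zero_le _, le_rfl⟩
          (Nat.zero_le _)
        refine hno p ?_ ?_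
        · rw [chart_cov h0.chart H f1 hp, hcp]
          exact Or.inl ⟨by simp only; omega, rfl⟩
        · rw [chart_cov h0.chart H a1 hp, hcp, a2]
          exact Or.inr ⟨rfl, rfl⟩
      · obtain ⟨a1, a2⟩ := stair_row1 h0 hw h4 hxt' (by omega) h
        have l1 := h0.chart.lev x f1
        have l2 := h0.chart.lev x' a1
        exact hne (h0.chart.inj x f1 x' a1 (Prod.ext (by omega) (by omega)))
  · have h3 := nab_join HN H.gradedBelow hxt hzx.1.le (topOf x').2 (fun h => htt (Subtype.ext h))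
      (hzx'.1.le.trans (le_topOf x')) (l := k) (by omega)
    have := hR.nab k hwk hkx
    omega

end Pool.Agent.GaussPoset
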