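import Pool.Agent.W_448s7_h5.SevP

/-!
# The windows of S7: values of the own classes; elements below a cell of row `1` (MP_448cb3_co)
-/

namespace Pool.Agent.GaussPoset

set_option linter.unusedSectionVars false

open Polynomial Finset

universe u

variable {P : Type u} [Fintype P] [PartialOrder P] [DecidableEq P] {r j w : ℕ}
  {N : Tops P → Finset P} {b : Tops P → ℕ} {θ : Tops P → P → ℕ} {Ea : Tops P → Prop}

/-- values of the even own classes at window `w` -/
def EvN (j w v : ℕ) : Prop := 1 ≤ w ∧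
  ((∃ t, v = (j + 1 - w + t) ^ 2) ∨
    (∃ t, v = (j + 1 - w + t) * (j + 1 - w + t + 1) ∨
      v + 1 = (j + 1 - w + t) * (j + 1 - w + t + 1)) ∨
    ∃ s m E, 3 ≤ s ∧ 1 ≤ m ∧ Even m ∧ v = (j + 1 - w + s) ^ 2 + E ∧ (j - w + 2) * m ≤ E ∧
      E ≤ (j - w + (s - 1)) * m)

/-- values of the odd own classes at window `w` -/
def OdN (j w v : ℕ) : Prop := 1 ≤ w ∧
  ((∃ s m E, 3 ≤ s ∧ 1 ≤ m ∧ Odd m ∧ v = (j + 1 - w + s) ^ 2 + E ∧ (j - w + 2) * m ≤ E ∧
      E ≤ (j - w + (s - 1)) * m) ∨
    (j = 18 ∧ ((w = 3 ∧ v = 350) ∨ (w = 2 ∧ v = 402))))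

/-- an element `z` below two tops with two private covers; `Ea` : the early components -/
structure Crs (j : ℕ) (Ea : Tops P → Prop) (z x x' : P) : Prop where
  cov : z ⋖ x
  cov' : z ⋖ x'
  only : x ∈ onlyB (topOf x)
  only' : x' ∈ onlyB (topOf x')
  ne : topOf x ≠ topOf x'
  str : Ea (topOf x) → ∀ k, k ≤ j → nab k x = 1
  str' : Ea (topOf x') → ∀ k, k ≤ j → nab k x' = 1

/-- the outcomes for a cheapest element `z` with the label `h z` and the cost `v` -/
def Out (j w : ℕ) (Ea : Tops P → Prop) (h : P → ℕ) (z : P) (v : ℕ) : Prop :=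
  cap j w < v ∨ (nab w z = nab (w + h z) z + 1 ∧
    ((Even (nst w h z) ∧ EvN j w v) ∨ (Odd (nst w h z) ∧ OdN j w v) ∨
      (∃ x x', Crs j Ea z x x') ∧ v = ful w z ∧ h z = lev z - w))

lemma sq_add_mono {y a : ℕ} (h : y ≤ a) : y ^ 2 + 10 * y ≤ a ^ 2 + 10 * a :=
  Nat.add_le_add (Nat.pow_le_pow_left h 2) (Nat.mul_le_mul_left 10 h)

/-- cost of an element with one cover -/
lemma cst_only {i : ℕ} {h : P → ℕ} {z x : P} (H : GradedBelow P) (hzx : z ⋖ x)
    (honly : ∀ y, z ⋖ y → y = x) :
    cst i h z = cst i (fun _ => h z) x + min (h z) (lev z - i) := by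
  have h1 := H.lev_covBy hzx
  rw [cst_eq, cst_eq, h1, Finset.sum_range_succ _ (lev x + 1), ← h1, nab_self, mul_one]
  congr 1
  refine Finset.sum_congr rfl fun k hk => ?_
  rw [mem_range] at hk
  rw [nab_only honly hzx (by omega)]

/-- a flat cheapest element below a cell of row `1` -/
theorem Wn.row1_out (W : Wn r j w N b θ) {v : ℕ} {z : P} (hz : z ∈ bdR (rA N))
    (hc : cst w (hA N θ) z = v) (hF : Flat j w N θ z) (hge : lev z ≤ hA N θ z + 1 + w) {x : P}
    (hzx : z ⋖ x) (hR : Row1 j w N θ x) : Out j w Ea (hA N θ) z v := by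
  classical
  have H := W.gt.H
  have hj := W.hj
  have hw := W.hw
  have hzR := (mem_bdR.mp hz).1
  have hlz := W.bd_lev hz
  have e1 := (H.covBy_iff.mp hzx).2
  have hx := (hF x hzx).1
  have hbs : GaussPoset.bs N x = x := by
    unfold GaussPoset.bs
    rw [if_neg (W.not_tw hx)]
  have hle := W.hA_le (not_mem_rA.mpr (Or.inl hx)) hzx
  rw [hbs] at hle
  have hRt := hR.th
  obtain ⟨a, ha⟩ : ∃ a, lev x = w + a := ⟨lev x - w, by omega⟩
  have hha : hA N θ z = a := by omega
  have h1w := hR.one_le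
  by_cases honly : ∀ y, z ⋖ y → y = x
  · -- a pendant
    have hlx : lev x ≠ j := fun h => hR.nopen h z hzx honly
    right
    refine ⟨?_, Or.inl ⟨?_, h1w, Or.inr (Or.inl ⟨a - (j + 1 - w), Or.inl ?_⟩)⟩⟩
    · rw [hha, ← ha, nab_only honly hzx (by omega), hR.nab w le_rfl (by omega),
        nab_only honly hzx (by omega), nab_self]
    · rw [nst_eq, hha, Finset.sum_congr rfl (g := fun _ => 2)]
      · rw [Finset.sum_const, card_range]
        exact ⟨a, by simp only [smul_eq_mul]; ring⟩
      · intro k hk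
        rw [mem_range] at hk
        rw [nab_only honly hzx (by omega), hR.nab _ (by omega) (by omega)]
    · rw [← hc, cst_only H.gradedBelow hzx honly, hha, cst_eq_ful (by omega),
        ful_two ha (fun k hk1 hk2 => hR.nab k hk1.le hk2)]
      rw [show j + 1 - w + (a - (j + 1 - w)) = a by omega, Nat.min_eq_left (by omega)]
      ring
  · -- a pair
    push Not at honly
    obtain ⟨x', hzx', hne'⟩ := honly
    have hne : x ≠ x' := Ne.symm hne'
    have e2 := (H.covBy_iff.mp hzx').2
    have hx' := (hF x' hzx').1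
    have hlx : lev x ≠ j := by
      intro h
      have := (W.near hzR (by omega) hzx hzx' hne).1
      have := hR.dbl
      omega
    left
    have h3 : ∀ k, 2 ≤ k → w ≤ k → k < lev x → 3 ≤ nab k z := fun k hk1 hk2 hk3 =>
      W.row1_three hzR hx hx' hzx hzx' hne hR (hF x' hzx').2 hk1 hk2 hk3
    have h4 : 2 ≤ nab (lev x) z := two_le_nab hzx.1.le hzx'.1.le rfl (by omega) hne
    have h5 : ∑ n ∈ range a, n * 3 + a * 2 + a ≤ v := by
      rw [← hc, cst_shift (a := a + 1) (by omega), Finset.sum_range_succ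
        (fun n => min (hA N θ z) n * nab (w + n) z), Finset.sum_range_succ
        (fun n => min (hA N θ z) n * nab (w + n) z), hha]
      refine Nat.add_le_add (Nat.add_le_add ?_ ?_) ?_
      · refine Finset.sum_le_sum fun n hn => ?_
        rw [mem_range] at hn
        rw [Nat.min_eq_right hn.le]
        rcases Nat.eq_zero_or_pos n with h0 | h0
        · subst h0; simp
        · exact Nat.mul_le_mul_left _ (h3 _ (by omega) (by omega) (by omega))
      · rw [Nat.min_self, ← ha]
        exact Nat.mul_le_mul_left _ h4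
      · rw [show w + (a + 1) = lev z by omega, nab_self, mul_one]
        exact Nat.le_min.mpr ⟨le_rfl, by omega⟩
    have h6 := Finset.sum_range_id_mul_two a
    rw [← Finset.sum_mul] at h5
    obtain ⟨y, hy⟩ : ∃ y, j + 1 = w + y := ⟨j + 1 - w, by omega⟩
    have hcap := cap_eq hy (by omega)
    obtain ⟨c, rfl⟩ : ∃ c, a = c + 15 := ⟨a - 15, by omega⟩
    rw [show c + 15 - 1 = c + 14 by omega,
      show (c + 15) * (c + 14) = c * c + 29 * c + 210 by ring] at h6
    have e4 := sq_add_mono (y := y) (a := c + 15) (by omega)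
    have e5 : (c + 15) ^ 2 = c * c + 30 * c + 225 := by ring
    rw [e5] at e4
    omega

end Pool.Agent.GaussPoset
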