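import Pool.Agent.W_448s7_h5.SevR

/-!
# The windows of S7: elements below the two sides of one component (MP_448cb3_co)
-/

namespace Pool.Agent.GaussPoset

set_option linter.unusedSectionVars false

open Polynomial Finset

universe u

variable {P : Type u} [Fintype P] [PartialOrder P] [DecidableEq P] {r j w : ℕ}
  {N : Tops P → Finset P} {b : Tops P → ℕ} {θ : Tops P → P → ℕ}

/-- two straight elements of level `j` below one top (with `B`): each has at most one pendant -/
def OnePen (P : Type u) [Fintype P] [PartialOrder P] [DecidableEq P] (j : ℕ)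
    (B : Tops P → Prop) : Prop :=
  ∀ e e' p p' : P, B (topOf e) → lev e = j → lev e' = j → (∀ k, k ≤ j → nab k e = 1) →
    (∀ k, k ≤ j → nab k e' = 1) → topOf e = topOf e' → e ≠ e' → p ⋖ e → p' ⋖ e →
    (∀ y, p ⋖ y → y = e) → (∀ y, p' ⋖ y → y = e) → p = p'

section Chart

variable {t : P} {S : ℕ × ℕ → Prop} {Nc : Finset P} {co : P → ℕ × ℕ}

/-- side elements of level `j + 1` are pendants of the side element of level `j` -/
lemma Side.pendant (hS : RowT S) (C : Chart t S Nc co) (H : Gr P r)
    (hg : ∀ l, l < j → Win.Good P l) (hstrip : lowPart j t ⊆ Nc) (h1 : ∃ y ∈ Nc, 1 ≤ (co y).1)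
    {p e : P} (hp : Side S Nc co p) (hl : lev p = j + 1) (hpe : p ≤ e) (hle : lev e = j) :
    p ⋖ e ∧ ∀ y, p ⋖ y → y = e := by
  have hpe' : p ⋖ e := H.covBy_iff.mpr ⟨lt_of_le_of_ne hpe (by rintro rfl; omega), by omega⟩
  refine ⟨hpe', fun y hy => ?_⟩
  have hly := (H.covBy_iff.mp hy).2
  have hn := hp.nab_one hS C H hg hstrip h1 (k := j) le_rfl (by omega)
  by_contra hne
  have := two_le_nab (l := j) hy.1.le hpe (by omega) hle hne
  omega

/-- a side element has one ancestor of level `j + 1` -/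
lemma Side.nab_succ (hS : RowT S) (C : Chart t S Nc co) (H : Gr P r)
    (hg : ∀ l, l < j → Win.Good P l) (hstrip : lowPart j t ⊆ Nc) (h1 : ∃ y ∈ Nc, 1 ≤ (co y).1)
    {x : P} (hx : Side S Nc co x) (hl : j + 1 ≤ lev x)
    (hone : ∀ e p p' : P, x ≤ e → lev e = j → p ⋖ e → p' ⋖ e → (∀ y, p ⋖ y → y = e) →
      (∀ y, p' ⋖ y → y = e) → p = p') : nab (j + 1) x = 1 := by
  classical
  obtain ⟨e, he1, he2, he3⟩ := exists_between H.gradedBelow (z := x) (s := (topOf x : P))
    (le_topOf x) (l := j) (by have := (topOf x).2; omega) (by omega)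
  refine le_antisymm ?_ (one_le_nab hl)
  unfold nab
  rw [Finset.card_le_one]
  intro p hp p' hp'
  rw [mem_filter, mem_lv] at hp hp'
  have hnx := hx.nab_one hS C H hg hstrip h1 (k := j) le_rfl (by omega)
  have hbelow : ∀ p, lev p = j + 1 → x ≤ p → p ≤ e := by
    intro p hp hxp
    obtain ⟨e', h1', h2', h3'⟩ := exists_between H.gradedBelow (z := p) (s := (topOf p : P))
      (le_topOf p) (l := j) (by have := (topOf p).2; omega) (by omega)
    by_contra hcon
    have hne : e' ≠ e := by
      rintro rfl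
      exact hcon h1'
    have := two_le_nab (l := j) (hxp.trans h1') he1 h3' he3 hne
    omega
  obtain ⟨a1, a2⟩ := (hx.up C hp.2).pendant hS C H hg hstrip h1 hp.1 (hbelow p hp.1 hp.2) he3
  obtain ⟨b1, b2⟩ := (hx.up C hp'.2).pendant hS C H hg hstrip h1 hp'.1 (hbelow p' hp'.1 hp'.2) he3
  exact hone e p p' he1 he3 a1 b1 a2 b2

end Chart

/-- the numbers of elements above an element below the two sides -/
lemma nab_two_sides {t : Tops P} {c : ℕ} {Nc : Finset P} {co : P → ℕ × ℕ} (H : Gr P r)
    (R : RectNat j w t c Nc co) {z x x' : P} (hx : Side (fun _ => True) Nc co x)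
    (hx' : Side (fun _ => True) Nc (swp co) x') (hzx : z ⋖ x) (hzx' : z ⋖ x') {k : ℕ}
    (hk : 1 ≤ k) (hkz : k < lev z) : nab k z = nab k x + nab k x' := by
  classical
  have hne : x ≠ x' := by
    rintro rfl
    have h2 : ∀ y, x ≤ y → lev y = 1 → False := by
      intro y hy hl
      have e1 := hx.up R.chart hy
      have e2 := hx'.up R.chart.swap hy
      have hyN : y ∈ Nc := by
        rcases e1 with e | e
        · refine R.strip (mem_lowPart.mpr ⟨?_, ?_⟩)
          · obtain ⟨x1, H1, hj⟩ := mem_junk.mp e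
            exact (mem_jset.mp hj).1.le.trans (R.chart.le_t x1 H1.mem)
          · rw [hl]
            by_contra hcon
            have hj0 : j = 0 := by omega
            obtain ⟨x1, H1, hj⟩ := mem_junk.mp e
            have h3 := lev_strictAnti (mem_jset.mp hj).1
            obtain ⟨y0, hy0, hc0⟩ := R.one1
            have h4 := H1.lt y0 hy0 hc0
            have h5 := R.chart.lev x1 H1.mem
            omega
        · exact e.1
      have hly := R.chart.lev y hyN
      have f1 : (co y).1 = 0 := by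
        rcases e1 with e | e
        · exact (junk_fst R.chart R.one1 e hyN).2
        · exact e.2
      have f2 : (co y).2 = 0 := by
        rcases e2 with e | e
        · exact (junk_swp_fst R.chart R.one2 e hyN).2
        · exact e.2
      omega
    obtain ⟨q, hq1, hq2, hq3⟩ := exists_between H.gradedBelow (z := x) (s := (topOf x : P))
      (le_topOf x) (l := 1) (by have := (topOf x).2; omega) (by
        have := (H.covBy_iff.mp hzx).2
        omega)
    exact h2 q hq1 hq3
  have huni := uc_two_of H hzx hzx' hne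
  refine le_antisymm (nab_le_add huni hkz) ?_
  unfold nab
  rw [← Finset.card_union_of_disjoint]
  · refine Finset.card_le_card fun y hy => ?_
    rw [mem_union, mem_filter, mem_filter] at hy
    rw [mem_filter]
    rcases hy with hy | hy
    · exact ⟨hy.1, hzx.1.le.trans hy.2⟩
    · exact ⟨hy.1, hzx'.1.le.trans hy.2⟩
  · rw [Finset.disjoint_left]
    intro y hy hy'
    rw [mem_filter, mem_lv] at hy hy'
    have e1 := hx.up R.chart hy.2
    have e2 := hx'.up R.chart.swap hy'.2
    have g1 := R.one1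
    have g2 := R.one2
    rcases e1 with e1 | e1
    · rcases e2 with e2 | e2
      · obtain ⟨x1, H1, hj1⟩ := mem_junk.mp e1
        obtain ⟨x2, H2, hj2⟩ := mem_junk.mp e2
        exact junk_cross R.chart g1 g2 H1 H2 hj2 (mem_jset.mp hj1).1
      · have h3 := junk_fst R.chart g1 e1 e2.1
        have h4 := e2.2
        rw [swp_fst] at h4
        omega
    · have hl := R.chart.lev y e1.1
      rcases e2 with e2 | e2
      · have h3 := junk_swp_fst R.chart g2 e2 e1.1
        have h4 := e1.2
        omega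
      · have h3 := e1.2
        have h4 := e2.2
        rw [swp_fst] at h4
        omega

/-- the arithmetic of the own pairs -/
lemma own_arith {c s m : ℕ} (nb : ℕ → ℕ) (z : P) (hj : w ≤ j) (hw1 : 1 ≤ w)
    (hl : lev z = w + c) (hs : c = j + 1 - w + s) (hnb : ∀ n, nb n = nab (w + n) z)
    (h2 : ∀ n, n < c → 2 ≤ nb n) (he : ∀ n, n < c → (n ≤ j + 1 - w ∨ c ≤ n + 1) → nb n = 2)
    (hm : m = ∑ n ∈ range c, (nb n - 2)) :
    ∑ n ∈ range c, nb n = 2 * c + m ∧
      ∃ E, ful w z = (j + 1 - w + s) ^ 2 + E ∧ (j - w + 2) * m ≤ E ∧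
        E ≤ (j - w + (s - 1)) * m ∧ (1 ≤ m → 3 ≤ s) := by
  classical
  have h3 : ∑ n ∈ range c, nb n = 2 * c + m := by
    have : ∀ n ∈ range c, nb n = 2 + (nb n - 2) := fun n hn => by
      have := h2 n (mem_range.mp hn)
      omega
    rw [Finset.sum_congr rfl this, Finset.sum_add_distrib, ← hm, Finset.sum_const, card_range,
      smul_eq_mul]
    ring
  refine ⟨h3, ∑ n ∈ range c, n * (nb n - 2), ?_, ?_, ?_, ?_⟩
  · have h4 : ful w z = ∑ n ∈ range c, n * nb n + c := by
      have h5 : cst w (fun _ => c) z = ful w z := cst_eq_ful (h := fun _ => c) (by omega)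
      rw [← h5, cst_shift hl, Finset.sum_range_succ, ← hl, nab_self, mul_one, Nat.min_self]
      congr 1
      refine Finset.sum_congr rfl fun n hn => ?_
      rw [mem_range] at hn
      rw [Nat.min_eq_right hn.le, hnb]
    have h5 : ∑ n ∈ range c, n * nb n = (∑ n ∈ range c, n) * 2 + ∑ n ∈ range c, n * (nb n - 2) := by
      rw [Finset.sum_mul, ← Finset.sum_add_distrib]
      refine Finset.sum_congr rfl fun n hn => ?_
      have h6 := h2 n (mem_range.mp hn)
      obtain ⟨d, hd⟩ : ∃ d, nb n = 2 + d := ⟨nb n - 2, by omega⟩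
      rw [hd, Nat.add_sub_cancel_left]
      ring
    rw [h4, h5, Finset.sum_range_id_mul_two, ← hs]
    rcases Nat.eq_zero_or_pos c with h0 | h0
    · omega
    · obtain ⟨d, rfl⟩ : ∃ d, c = d + 1 := ⟨c - 1, by omega⟩
      rw [Nat.add_sub_cancel]
      ring
  · rw [hm, Finset.mul_sum]
    refine Finset.sum_le_sum fun n hn => ?_
    rw [mem_range] at hn
    by_cases h6 : n ≤ j + 1 - w ∨ c ≤ n + 1
    · rw [he n hn h6]
      simp
    · exact Nat.mul_le_mul_right _ (by omega)
  · rw [hm, Finset.mul_sum]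
    refine Finset.sum_le_sum fun n hn => ?_
    rw [mem_range] at hn
    by_cases h6 : n ≤ j + 1 - w ∨ c ≤ n + 1
    · rw [he n hn h6]
      simp
    · exact Nat.mul_le_mul_right _ (by omega)
  · intro hm1
    obtain ⟨n, hn, hn2⟩ : ∃ n ∈ range c, nb n - 2 ≠ 0 := by
      by_contra hcon
      push Not at hcon
      rw [Finset.sum_eq_zero hcon] at hm
      omega
    rw [mem_range] at hn
    have h6 : ¬ (n ≤ j + 1 - w ∨ c ≤ n + 1) := fun h => hn2 (by rw [he n hn h])
    omega

/-- no extra elements if the cost is small -/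
lemma own_small {c s : ℕ} (nb : ℕ → ℕ) (z : P) (hj : w ≤ j)
    (hl : lev z = w + c) (hs : c = j + 1 - w + s) (hnb : ∀ n, nb n = nab (w + n) z)
    (h2 : ∀ n, n < c → 2 ≤ nb n) (he : ∀ n, n < c → (n < j + 1 - w ∨ c ≤ n + 1) → nb n = 2)
    (hsm : ful w z ≤ (j + 1 - w) ^ 2 + 5 * (j - w)) : ∀ n, n < c → nb n = 2 := by
  classical
  intro n0 hn0
  by_contra hcon
  have h3 := h2 n0 hn0
  have h6 : ¬ (n0 < j + 1 - w ∨ c ≤ n0 + 1) := fun h => hcon (he n0 hn0 h)
  have h4 : ful w z = ∑ n ∈ range c, n * nb n + c := by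
    have h5 : cst w (fun _ => c) z = ful w z := cst_eq_ful (h := fun _ => c) (by omega)
    rw [← h5, cst_shift hl, Finset.sum_range_succ, ← hl, nab_self, mul_one, Nat.min_self]
    congr 1
    refine Finset.sum_congr rfl fun n hn => ?_
    rw [mem_range] at hn
    rw [Nat.min_eq_right hn.le, hnb]
  have h5 : ∑ n ∈ range c, (n * 2 + if n = n0 then n0 else 0) ≤ ∑ n ∈ range c, n * nb n := by
    refine Finset.sum_le_sum fun n hn => ?_
    rw [mem_range] at hn
    split_ifs with h
    · subst h
      calc n * 2 + n = n * 3 := by ring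
        _ ≤ n * nb n := Nat.mul_le_mul_left _ (by omega)
    · rw [add_zero]
      exact Nat.mul_le_mul_left _ (h2 n hn)
  rw [Finset.sum_add_distrib, Finset.sum_ite_eq' (range c) n0 (fun _ => n0),
    if_pos (mem_range.mpr hn0), ← Finset.sum_mul, Finset.sum_range_id_mul_two] at h5
  obtain ⟨y, hy⟩ : ∃ y, j + 1 - w = y := ⟨_, rfl⟩
  obtain ⟨d, hd⟩ : ∃ d, c = y + 2 + d := ⟨c - y - 2, by omega⟩
  have h7 : c * (c - 1) + c = c * c := by
    obtain ⟨c', rfl⟩ : ∃ c', c = c' + 1 := ⟨c - 1, by omega⟩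
    rw [Nat.add_sub_cancel]
    ring
  have h8 : (y + 2) * (y + 2) ≤ c * c := Nat.mul_le_mul (by omega) (by omega)
  have h9 : (y + 2) * (y + 2) = y ^ 2 + 4 * y + 4 := by ring
  rw [hy] at hsm h6
  omega

end Pool.Agent.GaussPoset
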