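import Pool.Agent.W_448s7_h5.SevT

/-!
# The windows of S7: straight covers below two tops (MP_448cb3_co)
-/

namespace Pool.Agent.GaussPoset

set_option linter.unusedSectionVars false

open Polynomial Finset

universe u

variable {P : Type u} [Fintype P] [PartialOrder P] [DecidableEq P] {r j w : ℕ}
  {N : Tops P → Finset P} {b : Tops P → ℕ} {θ : Tops P → P → ℕ} {Ea : Tops P → Prop}

/-- private elements of early components which are not straight (windows `0`, `1` only) -/
def Fat (j w : ℕ) (x : P) : Prop :=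
  w ≤ 1 ∧ (∀ k, 2 ≤ k → k + 2 ≤ j → 2 ≤ nab k x) ∧
    (lev x = j → (Win.uc x).card = 2 ∨
      (j % 2 = 0 ∧ ∀ k, k ≤ j → nab k x + (k - j / 2) = k / 2 + 1))

/-- the strips which are light at window `w` -/
structure Lgt (j w : ℕ) (b : Tops P → ℕ) (Ea : Tops P → Prop) : Prop where
  uniq : ∀ t : Tops P, b t = 1 → ∀ x y : P, x ≤ (t : P) → y ≤ (t : P) → lev x = w →
    lev y = w → x = y
  dich : ∀ t : Tops P, Ea t → b t = 1 → ∀ x ∈ onlyB t, j ≤ lev x →
    (∀ k, k ≤ j → nab k x = 1) ∨ Fat j w x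

/-- straight natural elements -/
lemma Wn.str_nab (W : Wn r j w N b θ) (L : Lgt j w b Ea) {x : P} (hx : x ∉ unnat N)
    (hS : Str w N θ x) (hl : j ≤ lev x) :
    nab w x = 1 ∧ ((Ea (topOf x) → ∀ k, k ≤ j → nab k x = 1) ∨ Fat j w x) := by
  classical
  have H := W.gt.H
  have HN := W.natSys
  have hg := W.gt.good
  have hj := W.hj
  have hw := W.hw
  have hxt : x ∈ N (topOf x) := HN.mem_iff.mpr ⟨hx, rfl⟩
  have hth := hS.th
  generalize topOf x = t at hxt hth ⊢
  rcases W.typ t with ⟨g1, g2, g3, g5⟩ | ⟨Nc, co, h0, g1, g2, g4⟩ |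
    ⟨Nc, co, h0, g1, g2, g3, g4, g5'⟩
  · rw [g1] at hxt
    constructor
    · refine le_antisymm ?_ (one_le_nab (by omega))
      unfold nab
      rw [Finset.card_le_one]
      intro y hy y' hy'
      rw [mem_filter, mem_lv] at hy hy'
      exact L.uniq t g3 y y' (onlyB_le (onlyB_up hxt hy.2)) (onlyB_le (onlyB_up hxt hy'.2)) hy.1
        hy'.1
    · by_cases hE : Ea t
      · rcases L.dich t hE g3 x hxt hl with h | h
        · exact Or.inl fun _ => h
        · exact Or.inr h
      · exact Or.inl fun h => absurd h hE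
  · rw [g1] at hxt
    rw [g2] at hth
    rcases rect_str h0 hw hxt (by omega) hth with h | h
    · have := fun k (hk : k ≤ j) =>
        h.nab_one rowT_true h0.chart H hg h0.strip h0.one1 hk (by omega)
      exact ⟨this w (by omega), Or.inl fun _ => this⟩
    · have := fun k (hk : k ≤ j) =>
        h.nab_one rowT_true h0.chart.swap H hg h0.strip h0.one2 hk (by omega)
      exact ⟨this w (by omega), Or.inl fun _ => this⟩
  · rw [g1] at hxt
    rw [g2] at hth
    have h := stair_str h0 hw g4 hxt (by omega) hth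
    have := fun k (hk : k ≤ j) =>
      h.nab_one rowT_shift h0.chart H hg h0.strip (h0.one1 g4) hk (by omega)
    exact ⟨this w (by omega), Or.inl fun _ => this⟩

/-- lower bound of the full cost -/
lemma ful_ge {z : P} {c : ℕ} (g : ℕ → ℕ) (hl : lev z = w + c)
    (h : ∀ n, 1 ≤ n → n < c → 2 + g n ≤ nab (w + n) z) :
    c ^ 2 + ∑ n ∈ range c, n * g n ≤ ful w z := by
  have h1 := cst_ge_shift (i := w) (h := fun _ => c) (x := z) (fun n => 2 + g n) hl (by omega) h
  rw [cst_eq_ful (h := fun _ => c) (by omega)] at h1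
  have h2 : ∑ n ∈ range c, n * (2 + g n) = (∑ n ∈ range c, n) * 2 + ∑ n ∈ range c, n * g n := by
    rw [Finset.sum_mul, ← Finset.sum_add_distrib]
    refine Finset.sum_congr rfl fun n _ => ?_
    ring
  rw [h2, Finset.sum_range_id_mul_two, Nat.min_self] at h1
  rcases Nat.eq_zero_or_pos c with h0 | h0
  · subst h0
    simpa using h1
  · obtain ⟨d, rfl⟩ : ∃ d, c = d + 1 := ⟨c - 1, by omega⟩
    rw [Nat.add_sub_cancel] at h1
    have : (d + 1) ^ 2 = (d + 1) * d + (d + 1) := by ring
    omega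

/-- an element of level greater than `j + 1` above which there are three elements on most levels -/
lemma fat_far {z : P} (hj : 17 ≤ j) (hw : w ≤ 1) (hl : j + 2 ≤ lev z)
    (h2 : ∀ k, w < k → k < lev z → 2 ≤ nab k z) (h3 : ∀ k, 2 ≤ k → k + 2 ≤ j → 3 ≤ nab k z) :
    cap j w < ful w z := by
  obtain ⟨c, hc⟩ : ∃ c, lev z = w + c := ⟨lev z - w, by omega⟩
  obtain ⟨y, hy⟩ : ∃ y, j + 1 = w + y := ⟨j + 1 - w, by omega⟩
  have hcap := cap_eq hy (by omega)
  have h4 := ful_ge (fun n => ind (2 - w) (y - 2) n) hc (fun n hn1 hn2 => by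
    have e1 := h2 (w + n) (by omega) (by omega)
    unfold ind
    split_ifs with h
    · have := h3 (w + n) (by omega) (by omega)
      omega
    · omega)
  have g2 := sum_ind (s := 2 - w) (a := y - 2) (m := c) (by omega)
  obtain ⟨d, rfl⟩ : ∃ d, y = d + 17 := ⟨y - 17, by omega⟩
  have e4 := sq_add_mono (y := d + 18) (a := c) (by omega)
  rw [show d + 17 - 2 = d + 15 by omega, show d + 15 - 1 = d + 14 by omega,
    show (d + 15) * (d + 14) = d * d + 29 * d + 210 by ring] at g2
  rw [show d + 17 - 2 = d + 15 by omega] at h4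
  have e5 : (d + 17) ^ 2 = d * d + 34 * d + 289 := by ring
  have e6 : (d + 18) ^ 2 = d * d + 36 * d + 324 := by ring
  have e7 : (d + 18) ^ 2 ≤ c ^ 2 := Nat.pow_le_pow_left (by omega) 2
  rw [e6] at e7
  rw [e5] at hcap
  have hw01 : w = 0 ∨ w = 1 := by omega
  rcases hw01 with rfl | rfl
  · norm_num at g2 h4
    omega
  · norm_num at g2 h4
    omega

/-- an element of level `j + 1` below a fold end and another top -/
lemma fat_fold {z x : P} (hj : 17 ≤ j) (hw : w ≤ 1) (hl : lev z = j + 1) (hj2 : j % 2 = 0)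
    (hx : ∀ k, k ≤ j → nab k x + (k - j / 2) = k / 2 + 1)
    (hn : ∀ k, k ≤ j → nab k x + 1 ≤ nab k z) : cap j w < ful w z := by
  obtain ⟨c, hc⟩ : ∃ c, lev z = w + c := ⟨lev z - w, by omega⟩
  have hcap := cap_eq (j := j) (w := w) (y := c) (by omega) (by omega)
  have h4 := ful_ge (fun n => ind (2 - w) (c - 2) n + ind (4 - w) (c - 4) n +
    ind (6 - w) (c - 6) n + 0) hc (fun n hn1 hn2 => by
    have e1 := hn (w + n) (by omega)
    have e2 := hx (w + n) (by omega)
    unfold ind
    split_ifs <;> omega)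
  rw [sum_split4] at h4
  have g2 := sum_ind (s := 2 - w) (a := c - 2) (m := c) (by omega)
  have g3 := sum_ind (s := 4 - w) (a := c - 4) (m := c) (by omega)
  have g4 := sum_ind (s := 6 - w) (a := c - 6) (m := c) (by omega)
  obtain ⟨d, rfl⟩ : ∃ d, c = d + 18 := ⟨c - 18, by omega⟩
  rw [show d + 18 - 2 = d + 16 by omega, show d + 16 - 1 = d + 15 by omega,
    show (d + 16) * (d + 15) = d * d + 31 * d + 240 by ring] at g2
  rw [show d + 18 - 4 = d + 14 by omega, show d + 14 - 1 = d + 13 by omega,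
    show (d + 14) * (d + 13) = d * d + 27 * d + 182 by ring] at g3
  rw [show d + 18 - 6 = d + 12 by omega, show d + 12 - 1 = d + 11 by omega,
    show (d + 12) * (d + 11) = d * d + 23 * d + 132 by ring] at g4
  rw [show d + 18 - 2 = d + 16 by omega, show d + 18 - 4 = d + 14 by omega,
    show d + 18 - 6 = d + 12 by omega] at h4
  have e5 : (d + 18) ^ 2 = d * d + 36 * d + 324 := by ring
  rw [e5] at hcap h4
  simp only [mul_zero, Finset.sum_const_zero, add_zero] at h4
  have hw01 : w = 0 ∨ w = 1 := by omega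
  rcases hw01 with rfl | rfl
  · norm_num at g2 g3 g4 h4
    omega
  · norm_num at g2 g3 g4 h4
    omega

/-- straight covers below two tops -/
theorem Wn.cross_out (W : Wn r j w N b θ) (L : Lgt j w b Ea) {v : ℕ} {z : P}
    (hz : z ∈ bdR (rA N)) (hh : hA N θ z = lev z - w) (hc : cst w (hA N θ) z = v) {x x' : P}
    (hx : x ∉ unnat N) (hx' : x' ∉ unnat N) (hS : Str w N θ x) (hS' : Str w N θ x')
    (hzx : z ⋖ x) (hzx' : z ⋖ x') (htt : topOf x ≠ topOf x') : Out j w Ea (hA N θ) z v := by
  classical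
  have H := W.gt.H
  have HN := W.natSys
  have hj := W.hj
  have hw := W.hw
  have hlz := W.bd_lev hz
  have e1 := (H.covBy_iff.mp hzx).2
  have e2 := (H.covBy_iff.mp hzx').2
  have hne : x ≠ x' := by rintro rfl; exact htt rfl
  have hxt : x ∈ N (topOf x) := HN.mem_iff.mpr ⟨hx, rfl⟩
  have hxt' : x' ∈ N (topOf x') := HN.mem_iff.mpr ⟨hx', rfl⟩
  obtain ⟨n1, d1⟩ := W.str_nab L hx hS (by omega)
  obtain ⟨n2, d2⟩ := W.str_nab L hx' hS' (by omega)
  have hsum := fun {k : ℕ} (hk : k < lev z) => nab_join_eq HN H hxt hxt' htt hzx hzx' hk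
  have hv : v = ful w z := by
    rw [← hc]
    exact cst_eq_ful (by omega)
  -- the fat case
  have fat : ∀ a a' : P, a ∉ unnat N → z ⋖ a → z ⋖ a' → a ≠ a' → Fat j w a →
      (∀ k, k < lev z → nab k z = nab k a + nab k a') → cap j w < v := by
    intro a a' ha hza hza' hne hF hs
    have e1 := (H.covBy_iff.mp hza).2
    have e2 := (H.covBy_iff.mp hza').2
    obtain ⟨f1, f2, f3⟩ := hF
    rw [hv]
    by_cases hl : lev z = j + 1
    · have hn := W.near (mem_bdR.mp hz).1 hl hza hza' hne
      rcases f3 (by omega) with h | ⟨h, h'⟩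
      · omega
      · refine fat_fold hj f1 hl h h' fun k hk => ?_
        rw [hs k (by omega)]
        have := one_le_nab (l := k) (z := a') (by omega)
        omega
    · refine fat_far hj f1 (by omega) (fun k _ hk => ?_) fun k hk1 hk2 => ?_
      · rw [hs k hk]
        have := one_le_nab (l := k) (z := a') (by omega)
        have := one_le_nab (l := k) (z := a) (by omega)
        omega
      · rw [hs k (by omega)]
        have := one_le_nab (l := k) (z := a') (by omega)
        have := f2 k hk1 hk2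
        omega
  rcases d1 with d1 | d1
  · rcases d2 with d2 | d2
    · right
      refine ⟨?_, Or.inr (Or.inr ⟨⟨x, x', hzx, hzx', ?_, ?_, htt, d1, d2⟩, hv, hh⟩)⟩
      · rw [hsum (by omega), n1, n2, hh, show w + (lev z - w) = lev z by omega, nab_self]
      · exact mem_onlyB.mpr fun s hs hxs => HN.top_eq hxt hs hxs
      · exact mem_onlyB.mpr fun s hs hxs => HN.top_eq hxt' hs hxs
    · exact Or.inl (fat x' x hx' hzx' hzx hne.symm d2 fun k hk => by rw [hsum hk, Nat.add_comm])
  · exact Or.inl (fat x x' hx hzx hzx' hne d1 fun k hk => hsum hk)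

end Pool.Agent.GaussPoset
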