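import Pool.Agent.W_448s7_h5.SevW

/-!
# Classification at the windows `0, 1, 2, 3` (MP_448cb3_co, S7, `j ≥ 17`)
-/

namespace Pool.Agent.GaussPoset

set_option linter.unusedSectionVars false

open Polynomial Finset

universe u

variable {P : Type u} [Fintype P] [PartialOrder P] [DecidableEq P] {r j w : ℕ}

/-- the strips of a first bad level `j ≥ 17`: early components have a natural shape, late components
have one element on every level `k ≤ 8` -/
structure Strips (P : Type u) [Fintype P] [PartialOrder P] [DecidableEq P] (r j : ℕ)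
    (lo hi : Tops P → ℕ → ℕ) (e : Tops P → ℕ → ℕ → P) (Ea : Tops P → Prop) : Prop where
  gt : Win.GoodTo P r j
  hj : 17 ≤ j
  comp : ∀ t : Tops P, Cp.Comp j (t : P) (lo t) (hi t) (e t)
  early : ∀ t, Ea t → RectShape j (lo t) (hi t) ∨ StairShape j (lo t) (hi t) ∨
    StairShape j (fun k => k - hi t k) (fun k => k - lo t k)
  late : ∀ t, ¬ Ea t → ∀ k, k ≤ 8 → lo t k = hi t k
  pen : OnePen P j Ea ∨ ∃ z : P, Hul.Jn z ∧ ∀ w, w ≤ 3 → ful w z ≤ (j + 1 - w) ^ 2 + 5 * (j - w)

variable {lo hi : Tops P → ℕ → ℕ} {e : Tops P → ℕ → ℕ → P} {Ea : Tops P → Prop}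

/-- the window context -/
theorem Strips.window (S : Strips P r j lo hi e Ea) (hw : w ≤ 3) :
    ∃ N θ, Wn r j w N (fun t => hi t w - lo t w + 1) θ ∧
      Lgt j w (fun t => hi t w - lo t w + 1) Ea := by
  have hj := S.hj
  have H := S.gt.H
  have hT : ∀ t : Tops P, lo t w = hi t w ∨ RectShape j (lo t) (hi t) ∨
      StairShape j (lo t) (hi t) ∨ StairShape j (fun k => k - hi t k) (fun k => k - lo t k) := by
    intro t
    by_cases hE : Ea t
    · exact Or.inr (S.early t hE)
    · exact Or.inl (S.late t hE w (by omega))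
  choose N θ h1 h2 using fun t => exists_typeX S.gt (by omega) (S.comp t) (i := w) (by omega)
    (hT t)
  refine ⟨N, θ, ⟨S.gt, hj, hw, h1, h2, (card_level H S.gt.good S.comp (by omega)).symm⟩, ?_, ?_⟩
  · intro t ht x y hx hy hlx hly
    have e1 := (S.comp t).lo_le w (by omega)
    obtain ⟨s, a1, a2, a3⟩ := (S.comp t).surj x hx (by omega)
    obtain ⟨s', b1, b2, b3⟩ := (S.comp t).surj y hy (by omega)
    rw [hlx] at a1 a2 a3
    rw [hly] at b1 b2 b3
    rw [← a3, ← b3, show s = s' by omega]
  · intro t hE ht x hx hl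
    have e1 := (S.comp t).lo_le w (by omega)
    exact strip_dich H S.gt.good hj hw (S.comp t) (S.early t hE) (by omega) hx hl

/-- the number of elements strictly above `z` -/
noncomputable def anc (z : P) : ℕ := ∑ k ∈ range (lev z), nab k z

/-- cross elements have two ancestors on the levels `k ≤ 3` -/
lemma Strips.crs_low (S : Strips P r j lo hi e Ea) {z x x' : P} (h : Crs j Ea z x x') :
    j + 1 ≤ lev z ∧ ∀ k, k ≤ 8 → nab k z = 2 := by
  have H := S.gt.H
  have hj := S.hj
  have e1 := (H.covBy_iff.mp h.cov).2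
  have e2 := (H.covBy_iff.mp h.cov').2
  have hJ : Hul.Jn z := ⟨topOf x, topOf x', (topOf x).2, (topOf x').2,
    fun hh => h.ne (Subtype.ext hh), h.cov.1.le.trans (le_topOf x),
    h.cov'.1.le.trans (le_topOf x')⟩
  have hl : j + 1 ≤ lev z := by
    by_contra hcon
    exact S.gt.no_join z (by omega) hJ
  have hone : ∀ a : P, a ∈ onlyB (topOf a) → lev z = lev a + 1 →
      (Ea (topOf a) → ∀ k, k ≤ j → nab k a = 1) → ∀ k, k ≤ 8 → nab k a = 1 := by
    intro a ha hla hs k hk
    by_cases hE : Ea (topOf a)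
    · exact hs hE k (by omega)
    · exact nab_one_of_eq (S.comp (topOf a)) ha (by omega) (by omega) (S.late _ hE k hk)
  refine ⟨hl, fun k hk => ?_⟩
  -- the two up-sets are disjoint
  have hne : x ≠ x' := by rintro rfl; exact h.ne rfl
  have huni := uc_two_of H h.cov h.cov' hne
  have a1 := hone x h.only (by omega) h.str k hk
  have a2 := hone x' h.only' (by omega) h.str' k hk
  have hle := nab_le_add huni (k := k) (by omega)
  have hge : nab k x + 1 ≤ nab k z := by
    classical
    obtain ⟨q, q1, q2, q3⟩ := exists_between H.gradedBelow (z := x') (s := (topOf x' : P))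
      (le_topOf x') (l := k) (by have := (topOf x').2; omega) (by omega)
    have h1 : insert q ((lv P k).filter (fun y => x ≤ y)) ⊆ (lv P k).filter (fun y => z ≤ y) := by
      intro y hy
      rw [mem_insert, mem_filter, mem_lv] at hy
      rw [mem_filter, mem_lv]
      rcases hy with rfl | hy
      · exact ⟨q3, h.cov'.1.le.trans q1⟩
      · exact ⟨hy.1, h.cov.1.le.trans hy.2⟩
    have h2 := Finset.card_le_card h1
    rw [Finset.card_insert_of_notMem (by
      rw [mem_filter]
      rintro ⟨-, hxq⟩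
      exact h.ne (Subtype.ext ((mem_onlyB.mp h.only) (topOf x') (topOf x').2
        (hxq.trans q2)).symm))] at h2
    exact h2
  omega

/-- **Classification at window `w ≤ 3`.** -/
theorem Strips.class (S : Strips P r j lo hi e Ea) (hw : w ≤ 3) (hJ : ∃ z : P, Hul.Jn z) :
    ∃ v, (∀ z : P, Hul.Jn z → v ≤ ful w z) ∧ (cap j w < v ∨
      (((∃ z x x', Crs j Ea z x x' ∧ ful w z = v ∧ Odd (anc z)) ∨ OdN j w v) ∧
        ((∃ z x x', Crs j Ea z x x' ∧ ful w z = v ∧ Even (anc z)) ∨ EvN j w v))) := by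
  classical
  obtain ⟨N, θ, W, L⟩ := S.window hw
  have HN := W.natSys
  have hj := S.hj
  -- joins are in the far set
  have hjoin : ∀ z : P, Hul.Jn z → z ∈ rA N := by
    rintro z ⟨t1, t2, h1, h2, hne, hz1, hz2⟩
    have key : ∀ y, y ∉ unnat N → (y ≤ t1 → y ≤ t2 → False) := by
      intro y hy g1 g2
      have h3 : y ∈ N (topOf y) := HN.mem_iff.mpr ⟨hy, rfl⟩
      exact hne ((HN.top_eq h3 h1 g1).trans (HN.top_eq h3 h2 g2).symm)
    have hzu : z ∈ unnat N := by
      by_contra hcon
      exact key z hcon hz1 hz2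
    refine mem_rA.mpr ⟨hzu, fun h => ?_⟩
    obtain ⟨-, y, hy, hup⟩ := mem_twA.mp h
    have hl := W.lt_lev hzu
    refine key y hy ((hup t1).mpr ?_).le ((hup t2).mpr ?_).le
    · exact lt_of_le_of_ne hz1 (by rintro rfl; omega)
    · exact lt_of_le_of_ne hz2 (by rintro rfl; omega)
  have hpos : ∀ x ∈ rA N, 0 < lev x := fun x hx => by
    have := W.lt_lev (mem_rA.mp hx).1
    omega
  have hbd : (bdR (rA N)).Nonempty := by
    obtain ⟨z, hz⟩ := hJ
    obtain ⟨z', hz', -⟩ := exists_bd_above hpos (hjoin z hz)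
    exact ⟨z', hz'⟩
  obtain ⟨v, M, hex⟩ := exists_min W hbd
  have hmin : ∀ z, Hul.Jn z → v ≤ ful w z := fun z hz => min_le_ful hpos M.bd (hjoin z hz)
  have hPen : OnePen P j (fun t => 2 ≤ hi t w - lo t w + 1) ∨
      v ≤ (j + 1 - w) ^ 2 + 5 * (j - w) := by
    rcases S.pen with h | ⟨z, hz, h⟩
    · left
      intro e e' p p' hB
      refine h e e' p p' ?_
      by_contra hcon
      have := S.late _ hcon w (by omega)
      omega
    · exact Or.inr ((hmin z hz).trans (h w hw))
  refine ⟨v, hmin, ?_⟩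
  by_cases hcap : cap j w < v
  · exact Or.inl hcap
  right
  have hpar : ∀ {z x x' : P}, Crs j Ea z x x' →
      anc z = 2 * w + nst w (fun z => lev z - w) z := by
    intro z x x' h
    obtain ⟨h1, h2⟩ := S.crs_low h
    unfold anc
    obtain ⟨c, hc⟩ : ∃ c, lev z = w + c := ⟨lev z - w, by omega⟩
    rw [nst_eq, hc, Finset.sum_range_add, Nat.add_sub_cancel_left,
      Finset.sum_congr rfl (g := fun _ => 2) (fun k hk => h2 k (by
        rw [mem_range] at hk
        omega)), Finset.sum_const, card_range, smul_eq_mul, Nat.mul_comm]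
  obtain ⟨ho, he⟩ := W.both L hPen M hex (not_lt.mp hcap)
  constructor
  · rcases ho with ⟨z, x, x', h1, h2, h3⟩ | h
    · exact Or.inl ⟨z, x, x', h1, h2, by
        rw [hpar h1]
        exact (even_two_mul w).add_odd h3⟩
    · exact Or.inr h
  · rcases he with ⟨z, x, x', h1, h2, h3⟩ | h
    · exact Or.inl ⟨z, x, x', h1, h2, by
        rw [hpar h1]
        exact (even_two_mul w).add h3⟩
    · exact Or.inr h

end Pool.Agent.GaussPoset
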