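import Pool.Agent.W_448s7_h5.SevX
import Pool.Agent.W_448s7_h27.BalE

/-!
# The cost lines of the cross elements (MP_448cb3_co, S7, `j ≥ 17`)
-/

namespace Pool.Agent.GaussPoset

set_option linter.unusedSectionVars false

open Polynomial Finset

universe u

variable {P : Type u} [Fintype P] [PartialOrder P] [DecidableEq P] {r j w : ℕ}
  {lo hi : Tops P → ℕ → ℕ} {e : Tops P → ℕ → ℕ → P} {Ea : Tops P → Prop}

/-- number of extra elements above `z` -/
noncomputable def mZ (z : P) : ℤ := ∑ k ∈ range (lev z), ((nab k z : ℤ) - 2)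

/-- total depth of the extra elements above `z` -/
noncomputable def cZ (j : ℕ) (z : P) : ℤ :=
  ∑ k ∈ range (lev z), ((nab k z : ℤ) - 2) * ((j : ℤ) - k)

/-- number of extra elements above `x`, levels less than `j` -/
noncomputable def mX (j : ℕ) (x : P) : ℤ := ∑ k ∈ range j, ((nab k x : ℤ) - 1)

/-- total depth of the extra elements above `x`, levels less than `j` -/
noncomputable def cX (j : ℕ) (x : P) : ℤ := ∑ k ∈ range j, ((nab k x : ℤ) - 1) * ((j : ℤ) - k)

/-- slope -/
noncomputable def kapZ (j : ℕ) (z : P) : ℤ := 2 * ((lev z : ℤ) - (j + 1)) + mZ z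

/-- constant -/
noncomputable def gZ (j : ℕ) (z : P) : ℤ :=
  ((lev z : ℤ) - (j + 1)) * ((lev z : ℤ) - (j + 1)) + 2 * ((lev z : ℤ) - (j + 1)) - cZ j z

/-- the full cost as a line -/
theorem ful_line {z : P} (hw : w ≤ j) (hl : w < lev z) (h2 : ∀ k, k < w → nab k z = 2) :
    (ful w z : ℤ) = ((j : ℤ) + 1 - w) ^ 2 + (kapZ j z * ((j : ℤ) - w) + gZ j z) := by
  have h1 : (ful w z : ℤ) = ∑ k ∈ range (lev z), ((k - w : ℕ) : ℤ) * 2 +
      ∑ k ∈ range (lev z), (((k : ℤ) - w) * ((nab k z : ℤ) - 2)) + ((lev z : ℤ) - w) := by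
    rw [ful_eq_above]
    push_cast
    rw [Nat.cast_sub hl.le, ← Finset.sum_add_distrib]
    congr 1
    refine Finset.sum_congr rfl fun k _ => ?_
    rcases Nat.lt_or_ge k w with hk | hk
    · rw [h2 k hk, Nat.sub_eq_zero_of_le hk.le]
      simp
    · rw [Nat.cast_sub hk]
      ring
  have h3 : ∑ k ∈ range (lev z), ((k - w : ℕ) : ℤ) * 2 = ((lev z : ℤ) - w) * ((lev z : ℤ) - w - 1) := by
    obtain ⟨c, hc⟩ : ∃ c, lev z = w + c := ⟨lev z - w, by omega⟩
    rw [hc, Finset.sum_range_add]
    have e1 : ∑ k ∈ range w, ((k - w : ℕ) : ℤ) * 2 = 0 :=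
      Finset.sum_eq_zero fun k hk => by
        rw [mem_range] at hk
        rw [Nat.sub_eq_zero_of_le hk.le]
        simp
    rw [e1, zero_add]
    have e2 : ∑ k ∈ range c, ((w + k - w : ℕ) : ℤ) * 2 = ((∑ k ∈ range c, k : ℕ) : ℤ) * 2 := by
      push_cast
      rw [Finset.sum_mul]
      refine Finset.sum_congr rfl fun k _ => ?_
      rw [Nat.add_sub_cancel_left]
    rw [e2]
    have e3 := Finset.sum_range_id_mul_two c
    have e4 : ((∑ k ∈ range c, k : ℕ) : ℤ) * 2 = ((c * (c - 1) : ℕ) : ℤ) := by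
      rw [← e3]
      push_cast
      ring
    rw [e4]
    rcases Nat.eq_zero_or_pos c with h0 | h0
    · subst h0
      push_cast
      ring
    · push_cast [Nat.cast_sub h0]
      ring
  have h4 : ∑ k ∈ range (lev z), (((k : ℤ) - w) * ((nab k z : ℤ) - 2)) =
      ((j : ℤ) - w) * mZ z - cZ j z := by
    unfold mZ cZ
    rw [Finset.mul_sum, ← Finset.sum_sub_distrib]
    refine Finset.sum_congr rfl fun k _ => ?_
    ring
  rw [h1, h3, h4]
  unfold kapZ gZ
  ring

section Split

variable {z x x' : P}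

/-- numbers of elements above a cross element -/
lemma Crs.sum (H : Gr P r) (h : Crs j Ea z x x') {k : ℕ} (hk : k < lev z) :
    nab k z = nab k x + nab k x' := by
  classical
  have hne : x ≠ x' := by rintro rfl; exact h.ne rfl
  have huni := uc_two_of H h.cov h.cov' hne
  refine le_antisymm (nab_le_add huni hk) ?_
  unfold nab
  rw [← Finset.card_union_of_disjoint]
  · refine Finset.card_le_card fun y hy => ?_
    rw [mem_union, mem_filter, mem_filter] at hy
    rw [mem_filter]
    rcases hy with hy | hy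
    · exact ⟨hy.1, h.cov.1.le.trans hy.2⟩
    · exact ⟨hy.1, h.cov'.1.le.trans hy.2⟩
  · rw [Finset.disjoint_left]
    intro y hy hy'
    rw [mem_filter, mem_lv] at hy hy'
    have e1 := mem_onlyB.mp (onlyB_up h.only hy.2) (topOf y) (topOf y).2 (le_topOf y)
    have e2 := mem_onlyB.mp (onlyB_up h.only' hy'.2) (topOf y) (topOf y).2 (le_topOf y)
    exact h.ne (Subtype.ext (e1.symm.trans e2))

lemma Crs.lev_eq (H : Gr P r) (h : Crs j Ea z x x') : lev z = lev x + 1 ∧ lev z = lev x' + 1 :=
  ⟨(H.covBy_iff.mp h.cov).2, (H.covBy_iff.mp h.cov').2⟩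

/-- the extra elements of a cross element -/
theorem Crs.parts (H : Gr P r) (h : Crs j Ea z x x') (hl : j + 1 ≤ lev z) :
    mX j x + mX j x' ≤ mZ z ∧ cZ j z ≤ cX j x + cX j x' ∧ 0 ≤ mX j x ∧ 0 ≤ mX j x' ∧
      (lev z = j + 1 → mZ z = mX j x + mX j x' ∧ cZ j z = cX j x + cX j x') := by
  obtain ⟨l1, l2⟩ := h.lev_eq H
  have hx : ∀ k, k < lev z → (1 : ℤ) ≤ nab k x := fun k hk => by
    have := one_le_nab (l := k) (z := x) (by omega)
    exact_mod_cast this
  have hx' : ∀ k, k < lev z → (1 : ℤ) ≤ nab k x' := fun k hk => by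
    have := one_le_nab (l := k) (z := x') (by omega)
    exact_mod_cast this
  have hs : ∀ k, k < lev z → (nab k z : ℤ) = nab k x + nab k x' := fun k hk => by
    rw [h.sum H hk]
    push_cast
    ring
  obtain ⟨c, hc⟩ : ∃ c, lev z = j + (c + 1) := ⟨lev z - j - 1, by omega⟩
  have em : mZ z = mX j x + mX j x' + ∑ k ∈ range (c + 1), ((nab (j + k) z : ℤ) - 2) := by
    unfold mZ mX
    rw [hc, Finset.sum_range_add, ← Finset.sum_add_distrib]
    congr 1
    refine Finset.sum_congr rfl fun k hk => ?_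
    rw [mem_range] at hk
    rw [hs k (by omega)]
    ring
  have ec : cZ j z = cX j x + cX j x' +
      ∑ k ∈ range (c + 1), ((nab (j + k) z : ℤ) - 2) * ((j : ℤ) - ((j + k : ℕ) : ℤ)) := by
    unfold cZ cX
    rw [hc, Finset.sum_range_add, ← Finset.sum_add_distrib]
    congr 1
    refine Finset.sum_congr rfl fun k hk => ?_
    rw [mem_range] at hk
    rw [hs k (by omega)]
    ring
  have hnn : ∀ k, k < c + 1 → 0 ≤ (nab (j + k) z : ℤ) - 2 := fun k hk => by
    have h1 := hx (j + k) (by omega)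
    have h2 := hx' (j + k) (by omega)
    rw [hs (j + k) (by omega)]
    linarith
  refine ⟨?_, ?_, ?_, ?_, ?_⟩
  · rw [em]
    have : 0 ≤ ∑ k ∈ range (c + 1), ((nab (j + k) z : ℤ) - 2) :=
      Finset.sum_nonneg fun k hk => hnn k (mem_range.mp hk)
    linarith
  · rw [ec]
    have : ∑ k ∈ range (c + 1), ((nab (j + k) z : ℤ) - 2) * ((j : ℤ) - ((j + k : ℕ) : ℤ)) ≤ 0 := by
      refine Finset.sum_nonpos fun k hk => ?_
      have h1 := hnn k (mem_range.mp hk)
      refine mul_nonpos_of_nonneg_of_nonpos h1 ?_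
      push_cast
      linarith
    linarith
  · exact Finset.sum_nonneg fun k hk => by
      have := hx k (by rw [mem_range] at hk; omega)
      linarith
  · exact Finset.sum_nonneg fun k hk => by
      have := hx' k (by rw [mem_range] at hk; omega)
      linarith
  · intro hlz
    have hc0 : c = 0 := by omega
    subst hc0
    have e1 : nab (j + 0) z = 2 := by
      rw [h.sum H (by omega), show j + 0 = lev x by omega, nab_self,
        show lev x = lev x' by omega, nab_self]
    rw [em, ec]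
    simp only [zero_add, Finset.sum_range_one, e1]
    norm_num

/-- bounds for the constant -/
theorem Crs.bounds (H : Gr P r) (h : Crs j Ea z x x') (hl : j + 1 ≤ lev z) :
    -(((lev z : ℤ) - (j + 1) - 1) * mZ z) ≤ cZ j z ∧ (mZ z = 0 → cZ j z = 0) := by
  obtain ⟨l1, l2⟩ := h.lev_eq H
  have hnn : ∀ k, k < lev z → 0 ≤ (nab k z : ℤ) - 2 := fun k hk => by
    have h1 := one_le_nab (l := k) (z := x) (by omega)
    have h2 := one_le_nab (l := k) (z := x') (by omega)
    rw [h.sum H hk]
    push_cast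
    have h1' : (1 : ℤ) ≤ nab k x := by exact_mod_cast h1
    have h2' : (1 : ℤ) ≤ nab k x' := by exact_mod_cast h2
    linarith
  have hlast : nab (lev z - 1) z = 2 := by
    rw [h.sum H (by omega), show lev z - 1 = lev x by omega, nab_self,
      show lev x = lev x' by omega, nab_self]
  constructor
  · unfold mZ cZ
    rw [Finset.mul_sum, ← Finset.sum_neg_distrib]
    refine Finset.sum_le_sum fun k hk => ?_
    rw [mem_range] at hk
    rcases Nat.lt_or_ge (k + 1) (lev z) with h1 | h1
    · have h2 := hnn k hk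
      have h3 : (k : ℤ) + 2 ≤ lev z := by exact_mod_cast h1
      nlinarith
    · rw [show k = lev z - 1 by omega, hlast]
      norm_num
  · intro h0
    unfold mZ at h0
    have h1 := (Finset.sum_eq_zero_iff_of_nonneg (fun k hk => hnn k (mem_range.mp hk))).mp h0
    unfold cZ
    exact Finset.sum_eq_zero fun k hk => by rw [h1 k hk, zero_mul]

/-- parity -/
lemma anc_parity : (anc z : ℤ) = 2 * lev z + mZ z := by
  unfold anc mZ
  rw [Finset.sum_sub_distrib]
  push_cast
  rw [Finset.sum_const, card_range, nsmul_eq_mul]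
  ring

end Split

end Pool.Agent.GaussPoset
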