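import Pool.Agent.W_448s7_h5.SevY

/-!
# Assembly of S7 for `j ≥ 17` (MP_448cb3_co)
-/

namespace Pool.Agent.GaussPoset

set_option linter.unusedSectionVars false

open Polynomial Finset

universe u

variable {P : Type u} [Fintype P] [PartialOrder P] [DecidableEq P] {r j w : ℕ}
  {lo hi : Tops P → ℕ → ℕ} {e : Tops P → ℕ → ℕ → P} {Ea : Tops P → Prop}

/-- even noise in integers -/
lemma EvN.noise {v : ℕ} (h : EvN j w v) (hw : w ≤ j) {V : ℤ}
    (hV : (v : ℤ) = ((j : ℤ) + 1 - w) ^ 2 + V) :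
    Bal.Noise ((j : ℤ) + 1 - w) V ∨ Bal.EvenNoise ((j : ℤ) - w) V := by
  obtain ⟨_, h⟩ := h
  obtain ⟨Y, hY⟩ : ∃ Y, j = w + Y := ⟨j - w, by omega⟩
  subst hY
  have e1 : w + Y + 1 - w = Y + 1 := by omega
  have e2 : w + Y - w = Y := by omega
  rw [e1, e2] at h
  have e3 : ((w + Y : ℕ) : ℤ) + 1 - w = Y + 1 := by push_cast; ring
  have e4 : ((w + Y : ℕ) : ℤ) - w = Y := by push_cast; ring
  rw [e3] at hV ⊢
  rw [e4]
  rcases h with ⟨t, ht⟩ | ⟨t, ht⟩ | ⟨s, m, E, hs, hm, he, hv, h1, h2⟩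
  · left
    right
    refine ⟨t, by positivity, ?_⟩
    rw [ht] at hV
    push_cast at hV
    linear_combination -hV
  · left
    left
    refine ⟨t + 1, by omega, ?_⟩
    rcases ht with ht | ht
    · left
      rw [ht] at hV
      push_cast at hV
      linear_combination -hV
    · right
      have ht' : (v : ℤ) + 1 = ((Y : ℤ) + 1 + t) * (Y + 1 + t + 1) := by exact_mod_cast ht
      linear_combination ht' - hV
  · right
    have h1' : ((Y : ℤ) + 2) * m ≤ E := by exact_mod_cast h1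
    have h2' : (E : ℤ) ≤ (Y + ((s : ℤ) - 1)) * m := by
      have : (E : ℤ) ≤ ((Y + (s - 1) : ℕ) : ℤ) * m := by exact_mod_cast h2
      rw [Nat.cast_add, Nat.cast_sub (by omega), Nat.cast_one] at this
      exact this
    refine ⟨s, m, 2 * s + s * s + E - Y * m, by exact_mod_cast hs, by exact_mod_cast hm,
      by exact_mod_cast he, by linarith, by linarith, ?_⟩
    rw [hv] at hV
    push_cast at hV
    linear_combination -hV

/-- odd noise in integers -/
lemma OdN.noise {v : ℕ} (h : OdN j w v) (hw : w ≤ j) {V : ℤ}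
    (hV : (v : ℤ) = ((j : ℤ) + 1 - w) ^ 2 + V) :
    Bal.OddNoise ((j : ℤ) - w) V ∨ (j = 18 ∧ ((w = 3 ∧ V = 94) ∨ (w = 2 ∧ V = 113))) := by
  obtain ⟨_, h⟩ := h
  rcases h with ⟨s, m, E, hs, hm, he, hv, h1, h2⟩ | ⟨hj, h⟩
  · left
    obtain ⟨Y, hY⟩ : ∃ Y, j = w + Y := ⟨j - w, by omega⟩
    subst hY
    have e1 : w + Y + 1 - w = Y + 1 := by omega
    have e2 : w + Y - w = Y := by omega
    rw [e1] at hv
    rw [e2] at h1 h2
    have e3 : ((w + Y : ℕ) : ℤ) + 1 - w = Y + 1 := by push_cast; ring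
    have e4 : ((w + Y : ℕ) : ℤ) - w = Y := by push_cast; ring
    rw [e3] at hV
    rw [e4]
    have h1' : ((Y : ℤ) + 2) * m ≤ E := by exact_mod_cast h1
    have h2' : (E : ℤ) ≤ (Y + ((s : ℤ) - 1)) * m := by
      have : (E : ℤ) ≤ ((Y + (s - 1) : ℕ) : ℤ) * m := by exact_mod_cast h2
      rw [Nat.cast_add, Nat.cast_sub (by omega), Nat.cast_one] at this
      exact this
    refine ⟨s, m, 2 * s + s * s + E - Y * m, by exact_mod_cast hs, by exact_mod_cast hm,
      by exact_mod_cast he, by linarith, by linarith, ?_⟩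
    rw [hv] at hV
    push_cast at hV
    linear_combination -hV
  · right
    subst hj
    refine ⟨rfl, ?_⟩
    rcases h with ⟨rfl, rfl⟩ | ⟨rfl, rfl⟩
    · left
      refine ⟨rfl, ?_⟩
      push_cast at hV
      linarith
    · right
      refine ⟨rfl, ?_⟩
      push_cast at hV
      linarith

/-- pool of extra elements of a late component -/
def pool (d : ℕ) : ℕ := if d ≤ 1 then 3 else if d ≤ 3 then 2 else if d ≤ 7 then 1 else 0

/-- widths of a late component -/
def LateWd (j : ℕ) (lo hi : ℕ → ℕ) : Prop :=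
  (∀ d, 1 ≤ d → d ≤ j → hi (j - d) - lo (j - d) ≤ pool d) ∨
    ∃ a, a ≤ j ∧ 2 * (j - a) ≤ j ∧ ∀ k, k < j → hi k - lo k ≤ if k = a then 1 else 0

/-- number of elements above `x` on a level of the strip -/
lemma nab_le_width {t : Tops P} {lo hi : ℕ → ℕ} {e : ℕ → ℕ → P} (C : Cp.Comp j (t : P) lo hi e) {x : P}
    (hx : x ∈ onlyB t) {k : ℕ} (hk : k ≤ j) : nab k x ≤ hi k - lo k + 1 := by
  classical
  have h0 := C.lo_le k hk
  unfold nab
  have h1 : (lv P k).filter (x ≤ ·) ⊆ (Finset.Icc (lo k) (hi k)).image (e k) := by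
    intro y hy
    rw [mem_filter, mem_lv] at hy
    obtain ⟨s, a1, a2, a3⟩ := C.surj y (onlyB_le (onlyB_up hx hy.2)) (by omega)
    rw [hy.1] at a1 a2 a3
    rw [mem_image]
    exact ⟨s, mem_Icc.mpr ⟨a1, a2⟩, a3⟩
  refine (Finset.card_le_card h1).trans (Finset.card_image_le.trans ?_)
  rw [Nat.card_Icc]
  omega

/-- the part of a late cover -/
theorem late_part {t : Tops P} {lo hi : ℕ → ℕ} {e : ℕ → ℕ → P} (C : Cp.Comp j (t : P) lo hi e)
    (hW : LateWd j lo hi) {x : P} (hx : x ∈ onlyB t) (hl : j ≤ lev x) :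
    Bal.Part2 j (mX j x) (cX j x) := by
  have hnn : ∀ k, k < j → (0 : ℤ) ≤ (nab k x : ℤ) - 1 := fun k hk => by
    have := one_le_nab (l := k) (z := x) (by omega)
    have : (1 : ℤ) ≤ nab k x := by exact_mod_cast this
    linarith
  have hle : ∀ k, k < j → (nab k x : ℤ) - 1 ≤ ((hi k - lo k : ℕ) : ℤ) := fun k hk => by
    have := nab_le_width C hx (k := k) hk.le
    have : (nab k x : ℤ) ≤ ((hi k - lo k : ℕ) : ℤ) + 1 := by exact_mod_cast this
    linarith
  refine ⟨Finset.sum_nonneg fun k hk => hnn k (mem_range.mp hk), ?_⟩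
  rcases hW with hW | ⟨a, ha, ha2, hW⟩
  · left
    unfold cX mX
    rw [Finset.mul_sum, ← sub_le_iff_le_add', ← Finset.sum_sub_distrib, ← Finset.sum_range_reflect]
    have h1 : ∀ d ∈ range j, (((nab (j - 1 - d) x : ℤ) - 1) * ((j : ℤ) - ((j - 1 - d : ℕ) : ℤ)) -
        3 * ((nab (j - 1 - d) x : ℤ) - 1)) ≤
        (if d = 3 then 1 else 0) + (if d = 4 then 2 else 0) + (if d = 5 then 3 else 0) +
          (if d = 6 then 4 else 0) := by
      intro d hd
      rw [mem_range] at hd
      have h2 := hnn (j - 1 - d) (by omega)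
      have h3 := hle (j - 1 - d) (by omega)
      have h4 := hW (d + 1) (by omega) (by omega)
      rw [show j - (d + 1) = j - 1 - d by omega] at h4
      have h5 : (j : ℤ) - ((j - 1 - d : ℕ) : ℤ) = d + 1 := by omega
      rw [h5]
      rcases Nat.lt_or_ge d 7 with h7 | h7
      · have h6 : ((hi (j - 1 - d) - lo (j - 1 - d) : ℕ) : ℤ) ≤ (pool (d + 1) : ℕ) := by
          exact_mod_cast h4
        have h8 := h3.trans h6
        clear h3 h4 h5 h6 hW hle hnn
        generalize (nab (j - 1 - d) x : ℤ) - 1 = W at h2 h8 ⊢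
        interval_cases d <;> norm_num [pool] at h8 ⊢ <;> linarith
      · have h6 : pool (d + 1) = 0 := by
          unfold pool
          rw [if_neg (by omega), if_neg (by omega), if_neg (by omega)]
        rw [h6] at h4
        have h8 : (nab (j - 1 - d) x : ℤ) - 1 = 0 := by
          have : ((hi (j - 1 - d) - lo (j - 1 - d) : ℕ) : ℤ) ≤ 0 := by exact_mod_cast h4
          linarith
        rw [h8, if_neg (by omega), if_neg (by omega), if_neg (by omega), if_neg (by omega)]
        norm_num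
    refine (Finset.sum_le_sum h1).trans ?_
    rw [Finset.sum_add_distrib, Finset.sum_add_distrib, Finset.sum_add_distrib]
    have h2 : ∀ (b : ℕ) (c : ℤ), 0 ≤ c → ∑ d ∈ range j, (if d = b then c else 0) ≤ c := by
      intro b c hc
      rw [Finset.sum_ite_eq']
      split_ifs <;> linarith
    have a1 := h2 3 1 (by norm_num)
    have a2 := h2 4 2 (by norm_num)
    have a3 := h2 5 3 (by norm_num)
    have a4 := h2 6 4 (by norm_num)
    linarith
  · right
    unfold cX
    have h1 : ∑ k ∈ range j, ((nab k x : ℤ) - 1) * ((j : ℤ) - k) ≤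
        ∑ k ∈ range j, (if k = a then ((j : ℤ) - a) else 0) := by
      refine Finset.sum_le_sum fun k hk => ?_
      rw [mem_range] at hk
      have h2 := hnn k hk
      have h3 := hle k hk
      have h4 := hW k hk
      have h5 : (0 : ℤ) ≤ (j : ℤ) - k := by omega
      by_cases hka : k = a
      · subst hka
        rw [if_pos rfl] at h4 ⊢
        have h6 : ((hi k - lo k : ℕ) : ℤ) ≤ 1 := by exact_mod_cast h4
        have h7 : (nab k x : ℤ) - 1 ≤ 1 := by linarith
        calc ((nab k x : ℤ) - 1) * ((j : ℤ) - k) ≤ 1 * ((j : ℤ) - k) :=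
              mul_le_mul_of_nonneg_right h7 h5
          _ = _ := one_mul _
      · rw [if_neg hka] at h4 ⊢
        have h6 : ((hi k - lo k : ℕ) : ℤ) ≤ 0 := by exact_mod_cast h4
        have h7 : (nab k x : ℤ) - 1 = 0 := by linarith
        rw [h7, zero_mul]
    have h2 : ∑ k ∈ range j, (if k = a then ((j : ℤ) - a) else 0) ≤ (j : ℤ) - a := by
      rw [Finset.sum_ite_eq']
      split_ifs
      · exact le_rfl
      · omega
    have h3 : 2 * ((j : ℤ) - a) ≤ j := by omega
    linarith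

end Pool.Agent.GaussPoset
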