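import Pool.Agent.W_448s7_h5.SevZ
import Pool.Agent.W_448cr_h63.CH

/-!
# S7 for `j ≥ 17`: no element of level `j + 1` joins two ends (MP_448cb3_co)
-/

namespace Pool.Agent.GaussPoset

set_option linter.unusedSectionVars false

open Polynomial Finset

universe u

variable {P : Type u} [Fintype P] [PartialOrder P] [DecidableEq P] {r j w : ℕ}
  {lo hi : Tops P → ℕ → ℕ} {e : Tops P → ℕ → ℕ → P} {Ea : Tops P → Prop}

/-- the late components: short widths and the list of the single-up ends -/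
structure Lates (j : ℕ) (lo hi : Tops P → ℕ → ℕ) (Ea : Tops P → Prop) : Prop where
  wd : ∀ t, ¬ Ea t → LateWd j (lo t) (hi t)
  en : ∀ t : Tops P, ¬ Ea t → ∀ x : P, x ≤ (t : P) → lev x = j → (Win.uc x).card = 1 →
    Bal.NEnd2 j (mX j x) (cX j x)

lemma mX_zero {x : P} (h : ∀ k, k ≤ j → nab k x = 1) : mX j x = 0 ∧ cX j x = 0 := by
  constructor
  · exact Finset.sum_eq_zero fun k hk => by
      rw [mem_range] at hk
      rw [h k hk.le]
      norm_num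
  · exact Finset.sum_eq_zero fun k hk => by
      rw [mem_range] at hk
      rw [h k hk.le]
      norm_num

/-- the covers of a join of level `j + 1` are ends -/
theorem Strips.ends (S : Strips P r j lo hi e Ea) (L : Lates j lo hi Ea) {z x x' : P}
    (h : Crs j Ea z x x') (hl : lev z = j + 1) :
    Bal.NEnd2 j (mX j x) (cX j x) ∧ Bal.NEnd2 j (mX j x') (cX j x') := by
  have H := S.gt.H
  have hj := S.hj
  obtain ⟨l1, l2⟩ := h.lev_eq H
  have hne : x ≠ x' := by rintro rfl; exact h.ne rfl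
  have G : Win.GoodTo P r ((j - 1) + 1) := by
    rw [show j - 1 + 1 = j by omega]
    exact S.gt
  have hcard : (Win.uc x).card = 1 ∧ (Win.uc x').card = 1 := by
    rcases (Win.near_level' G (by omega)).1 z x x' (by omega) h.cov h.cov' hne with h1 | ⟨h1, h2, _⟩
    · exfalso
      obtain ⟨y, hy, hy'⟩ := Win.exists_of_ucv (v := x) (v' := x') (by rw [h1]; exact one_pos)
      have e1 := mem_onlyB.mp (onlyB_up h.only hy.1.le) (topOf y) (topOf y).2 (le_topOf y)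
      have e2 := mem_onlyB.mp (onlyB_up h.only' hy'.1.le) (topOf y) (topOf y).2 (le_topOf y)
      exact h.ne (Subtype.ext (e1.symm.trans e2))
    · exact ⟨h1, h2⟩
  constructor
  · by_cases hE : Ea (topOf x)
    · obtain ⟨a, b⟩ := mX_zero (h.str hE)
      exact Or.inl ⟨a, b⟩
    · exact L.en _ hE x (le_topOf x) (by omega) hcard.1
  · by_cases hE : Ea (topOf x')
    · obtain ⟨a, b⟩ := mX_zero (h.str' hE)
      exact Or.inl ⟨a, b⟩
    · exact L.en _ hE x' (le_topOf x') (by omega) hcard.2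

/-- the parts of the covers -/
lemma Strips.part (S : Strips P r j lo hi e Ea) (L : Lates j lo hi Ea) {x : P}
    (hx : x ∈ onlyB (topOf x)) (hl : j ≤ lev x)
    (h : Ea (topOf x) → ∀ k, k ≤ j → nab k x = 1) : Bal.Part2 j (mX j x) (cX j x) := by
  by_cases hE : Ea (topOf x)
  · obtain ⟨a, b⟩ := mX_zero (h hE)
    rw [a, b]
    exact ⟨le_rfl, Or.inl (by norm_num)⟩
  · exact late_part (S.comp (topOf x)) (L.wd _ hE) hx hl

/-- the line of a cross element -/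
lemma Strips.line (S : Strips P r j lo hi e Ea) {z x x' : P} (h : Crs j Ea z x x') (hw : w ≤ 3) :
    (ful w z : ℤ) = ((j : ℤ) + 1 - w) ^ 2 + (kapZ j z * ((j : ℤ) - w) + gZ j z) := by
  obtain ⟨h1, h2⟩ := S.crs_low h
  have := S.hj
  exact ful_line (by omega) (by omega) fun k hk => h2 k (by omega)

/-- the line of an optimal cross element is admissible -/
theorem Strips.ln (S : Strips P r j lo hi e Ea) (L : Lates j lo hi Ea) {z x x' : P}
    (h : Crs j Ea z x x') {v0 v1 v2 v3 w : ℤ} (hw : 0 ≤ w) (hw3 : w ≤ 3)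
    (hv : kapZ j z * (j - w) + gZ j z ≤ 10 * (j - w) - 40)
    (t0 : v0 ≤ kapZ j z * j + gZ j z) (t1 : v1 ≤ kapZ j z * (j - 1) + gZ j z)
    (t2 : v2 ≤ kapZ j z * (j - 2) + gZ j z) (t3 : v3 ≤ kapZ j z * (j - 3) + gZ j z) :
    Bal.Ln2 j v0 v1 v2 v3 (kapZ j z) (gZ j z) := by
  have H := S.gt.H
  have hj := S.hj
  obtain ⟨hl, _⟩ := S.crs_low h
  obtain ⟨p1, p2, p3, p4, p5⟩ := h.parts H hl
  obtain ⟨b1, b2⟩ := h.bounds H hl
  obtain ⟨l1, l2⟩ := h.lev_eq H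
  have hjz : (17 : ℤ) ≤ j := by exact_mod_cast hj
  rcases Nat.lt_or_ge (j + 1) (lev z) with hlt | hge
  · have hq : (1 : ℤ) ≤ (lev z : ℤ) - (j + 1) := by
      have : ((j + 1 : ℕ) : ℤ) < lev z := by exact_mod_cast hlt
      push_cast at this
      linarith
    exact Bal.ln2_pos hjz hq hw hw3 p1 (S.part L h.only (by omega) h.str)
      (S.part L h.only' (by omega) h.str') p2 b1 b2 rfl rfl hv t0 t1 t2 t3
  · have hlz : lev z = j + 1 := le_antisymm hge hl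
    obtain ⟨e1, e2⟩ := S.ends L h hlz
    obtain ⟨m1, m2⟩ := p5 hlz
    have hz0 : (lev z : ℤ) - (j + 1) = 0 := by rw [hlz]; push_cast; ring
    refine Bal.ln2_zero hjz e1 e2 ?_ ?_ t0 t1 t2 t3
    · unfold kapZ
      rw [hz0, m1]
      ring
    · unfold gZ
      rw [hz0, m2]
      ring

lemma kap_parity {z : P} : (Odd (anc z) → Odd (kapZ j z)) ∧ (Even (anc z) → Even (kapZ j z)) := by
  have h := anc_parity (z := z)
  have h2 : kapZ j z = (anc z : ℤ) - 2 * (j + 1) := by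
    unfold kapZ
    rw [h]
    ring
  rw [h2]
  constructor
  · intro ho
    have : Odd (anc z : ℤ) := by exact_mod_cast ho
    exact this.sub_even (even_two_mul _)
  · intro ho
    have : Even (anc z : ℤ) := by exact_mod_cast ho
    exact this.sub (even_two_mul _)

/-- the classification in terms of the lines -/
theorem Strips.cls (S : Strips P r j lo hi e Ea) (L : Lates j lo hi Ea) {z₀ x₀ x₀' : P}
    (h₀ : Crs j Ea z₀ x₀ x₀') (hl₀ : lev z₀ = j + 1) (hw : w ≤ 3) :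
    ∃ V : ℤ, V ≤ 10 * ((j : ℤ) - w) - 40 ∧
      (∀ z x x', Crs j Ea z x x' → V ≤ kapZ j z * ((j : ℤ) - w) + gZ j z) ∧
      ((∃ z x x', Crs j Ea z x x' ∧ kapZ j z * ((j : ℤ) - w) + gZ j z = V ∧ Odd (kapZ j z)) ∨
        (1 ≤ w ∧ (Bal.OddNoise ((j : ℤ) - w) V ∨
          (j = 18 ∧ ((w = 3 ∧ V = 94) ∨ (w = 2 ∧ V = 113)))))) ∧
      ((∃ z x x', Crs j Ea z x x' ∧ kapZ j z * ((j : ℤ) - w) + gZ j z = V ∧ Even (kapZ j z)) ∨
        (1 ≤ w ∧ (Bal.Noise ((j : ℤ) + 1 - w) V ∨ Bal.EvenNoise ((j : ℤ) - w) V))) := by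
  have H := S.gt.H
  have hj := S.hj
  have hjn : ∀ z x x', Crs j Ea z x x' → Hul.Jn z := fun z x x' h =>
    ⟨topOf x, topOf x', (topOf x).2, (topOf x').2, fun hh => h.ne (Subtype.ext hh),
      h.cov.1.le.trans (le_topOf x), h.cov'.1.le.trans (le_topOf x')⟩
  obtain ⟨v, hv, hc⟩ := S.class hw ⟨z₀, hjn _ _ _ h₀⟩
  obtain ⟨e1, e2⟩ := S.ends L h₀ hl₀
  obtain ⟨p1, p2, p3, p4, p5⟩ := h₀.parts H hl₀.ge
  obtain ⟨m1, m2⟩ := p5 hl₀
  have hjz : (17 : ℤ) ≤ j := by exact_mod_cast hj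
  have hwz : (w : ℤ) ≤ 3 := by exact_mod_cast hw
  have hz0 : (lev z₀ : ℤ) - (j + 1) = 0 := by rw [hl₀]; push_cast; ring
  have hcap := Bal.cap_of2 hjz hwz e1 e2
  have hline₀ := S.line h₀ hw
  have hkg : kapZ j z₀ * ((j : ℤ) - w) + gZ j z₀ =
      (mX j x₀ + mX j x₀') * ((j : ℤ) - w) - (cX j x₀ + cX j x₀') := by
    unfold kapZ gZ
    rw [hz0, m1, m2]
    ring
  have hvz : (v : ℤ) ≤ ful w z₀ := by exact_mod_cast hv z₀ (hjn _ _ _ h₀)
  have hVcap : (v : ℤ) - ((j : ℤ) + 1 - w) ^ 2 ≤ 10 * ((j : ℤ) - w) - 40 := by linarith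
  have hncap : ¬ cap j w < v := by
    intro hlt
    have h1 : ((cap j w : ℕ) : ℤ) < v := by exact_mod_cast hlt
    unfold cap at h1
    have e3 : ((j + 1 - w : ℕ) : ℤ) = (j : ℤ) + 1 - w := by omega
    have e4 : ((10 * (j - w) - 40 : ℕ) : ℤ) = 10 * ((j : ℤ) - w) - 40 := by omega
    rw [Nat.cast_add, Nat.cast_pow, e3, e4] at h1
    linarith
  have hc' := hc.resolve_left hncap
  have hVeq : (v : ℤ) = ((j : ℤ) + 1 - w) ^ 2 + ((v : ℤ) - ((j : ℤ) + 1 - w) ^ 2) := by ring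
  refine ⟨(v : ℤ) - ((j : ℤ) + 1 - w) ^ 2, hVcap, ?_, ?_, ?_⟩
  · intro z x x' h
    have h1 := S.line h hw
    have h2 : (v : ℤ) ≤ ful w z := by exact_mod_cast hv z (hjn _ _ _ h)
    linarith
  · rcases hc'.1 with ⟨z, x, x', h, hf, hp⟩ | hn
    · left
      refine ⟨z, x, x', h, ?_, kap_parity.1 hp⟩
      have h1 := S.line h hw
      rw [hf] at h1
      linarith
    · exact Or.inr ⟨hn.1, hn.noise (by omega) hVeq⟩
  · rcases hc'.2 with ⟨z, x, x', h, hf, hp⟩ | hn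
    · left
      refine ⟨z, x, x', h, ?_, kap_parity.2 hp⟩
      have h1 := S.line h hw
      rw [hf] at h1
      linarith
    · exact Or.inr ⟨hn.1, hn.noise (by omega) hVeq⟩

/-- S7, `j ≥ 17`: no element of level `j + 1` below two tops covers two ends -/
theorem Strips.no_end_join (S : Strips P r j lo hi e Ea) (L : Lates j lo hi Ea) {z x x' : P}
    (h : Crs j Ea z x x') (hl : lev z = j + 1) : False := by
  have hjz : (17 : ℤ) ≤ j := by exact_mod_cast S.hj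
  obtain ⟨V0, c0, n0, o0, e0⟩ := S.cls L h hl (w := 0) (by norm_num)
  obtain ⟨V1, c1, n1, o1, e1⟩ := S.cls L h hl (w := 1) (by norm_num)
  obtain ⟨V2, c2, n2, o2, e2⟩ := S.cls L h hl (w := 2) (by norm_num)
  obtain ⟨V3, c3, n3, o3, e3⟩ := S.cls L h hl (w := 3) (by norm_num)
  simp only [Nat.cast_ofNat, Nat.cast_one, Nat.cast_zero, sub_zero] at c0 c1 c2 c3 n0 n1 n2 n3
  simp only [Nat.cast_ofNat, Nat.cast_one, Nat.cast_zero, sub_zero] at o0 o1 o2 o3 e0 e1 e2 e3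
  refine Bal.no_balance2 hjz c0 c1 c2 c3
    (fun κ g => ∃ z x x', Crs j Ea z x x' ∧ κ = kapZ j z ∧ g = gZ j z ∧
      ∃ w : ℤ, 0 ≤ w ∧ w ≤ 3 ∧ κ * ((j : ℤ) - w) + g ≤ 10 * ((j : ℤ) - w) - 40) ?_ ?_ ?_ ?_ ?_ ?_ ?_ ?_ ?_
  · rintro κ g ⟨z, x, x', hc, rfl, rfl, w, hw0, hw3, hv⟩
    exact S.ln L hc hw0 hw3 hv (n0 z x x' hc) (n1 z x x' hc) (n2 z x x' hc) (n3 z x x' hc)
  · rcases o0 with ⟨z, x, x', hc, hv, hp⟩ | ⟨hn, _⟩
    · exact ⟨_, _, ⟨z, x, x', hc, rfl, rfl, 0, le_rfl, by norm_num, by rw [sub_zero, hv]; exact c0⟩,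
        hp, hv⟩
    · omega
  · rcases e0 with ⟨z, x, x', hc, hv, hp⟩ | ⟨hn, _⟩
    · exact ⟨_, _, ⟨z, x, x', hc, rfl, rfl, 0, le_rfl, by norm_num, by rw [sub_zero, hv]; exact c0⟩,
        hp, hv⟩
    · omega
  · rcases o1 with ⟨z, x, x', hc, hv, hp⟩ | ⟨_, hn | ⟨_, hn⟩⟩
    · exact Or.inl ⟨_, _, ⟨z, x, x', hc, rfl, rfl, 1, by norm_num, by norm_num, by rw [hv]; exact c1⟩,
        hp, hv⟩
    · exact Or.inr hn
    · omega
  · rcases e1 with ⟨z, x, x', hc, hv, hp⟩ | ⟨_, hn⟩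
    · exact Or.inl ⟨_, _, ⟨z, x, x', hc, rfl, rfl, 1, by norm_num, by norm_num, by rw [hv]; exact c1⟩,
        hp, hv⟩
    · exact Or.inr hn
  · rcases o2 with ⟨z, x, x', hc, hv, hp⟩ | ⟨_, hn | ⟨hn, hn2⟩⟩
    · exact Or.inl ⟨_, _, ⟨z, x, x', hc, rfl, rfl, 2, by norm_num, by norm_num, by rw [hv]; exact c2⟩,
        hp, hv⟩
    · exact Or.inr (Or.inl hn)
    · refine Or.inr (Or.inr ⟨by exact_mod_cast hn, ?_⟩)
      rcases hn2 with ⟨h1, _⟩ | ⟨_, h2⟩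
      · omega
      · exact h2
  · rcases e2 with ⟨z, x, x', hc, hv, hp⟩ | ⟨_, hn⟩
    · exact Or.inl ⟨_, _, ⟨z, x, x', hc, rfl, rfl, 2, by norm_num, by norm_num, by rw [hv]; exact c2⟩,
        hp, hv⟩
    · exact Or.inr hn
  · rcases o3 with ⟨z, x, x', hc, hv, hp⟩ | ⟨_, hn | ⟨hn, hn2⟩⟩
    · exact Or.inl ⟨_, _, ⟨z, x, x', hc, rfl, rfl, 3, by norm_num, by norm_num, by rw [hv]; exact c3⟩,
        hp, hv⟩
    · exact Or.inr (Or.inl hn)
    · refine Or.inr (Or.inr ⟨by exact_mod_cast hn, ?_⟩)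
      rcases hn2 with ⟨_, h1⟩ | ⟨h2, _⟩
      · exact h1
      · omega
  · rcases e3 with ⟨z, x, x', hc, hv, hp⟩ | ⟨_, hn⟩
    · exact Or.inl ⟨_, _, ⟨z, x, x', hc, rfl, rfl, 3, by norm_num, by norm_num, by rw [hv]; exact c3⟩,
        hp, hv⟩
    · exact Or.inr hn

end Pool.Agent.GaussPoset
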